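import Pool.Agent.H14.KD.PB
import Pool.Agent.H70.KP.TE

/-!
# [H14 KD AF] average of the sums over far tuples

Same as H70/KP/AQ: TS_step for every family dis n k V, nea n k j V (contained in KS, module LO), with
hfar from Good.far (V = A in KS has card k). Divide by the constants F.card ^ n >= 0, sum (E1_add,
E1_sum, E1_mul), multiply by exp (-(n^2 rho (e (s+1)))): exp (n^2 rho e) cancels.
PF_congr, PV_congr: the functionals depend only on the weights of the k-sets (module LO).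
-/

namespace Pool.Agent.H14.KD

open Finset
open Pool.Agent.H70.KG (KS DD S gf up0 up pr pr0)
open Pool.Agent.H70.KP (Sta Ex E1 Mild sz rr dis nea TS nc tg WW mem_KS E1_mul E1_add E1_sum TS_step
  dis_sub nea_sub S_congr TS_congr)

variable {n k : ℕ}

theorem avg_PF (P : Par n k) (s : ℕ) {σ : Sta n} (g : Good P σ) :
    E1 n k P.e σ.y (P.PF (s + 1)) ≤ P.PF s σ.y := by
  have hfar : ∀ A ∈ KS n k, ∀ B ∈ KS n k, P.j ≤ (B \ A).card →
      S n k σ.y (A ∪ B) ≤ P.rho * DD n k := by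
    intro A hA B _ hB
    have hAc : A.card = k := mem_KS.mp hA
    exact g.far A B (by omega) (by have := P.hj; omega) hB
  have hone : ∀ F : Finset (Finset (Fin n)), F ⊆ KS n k →
      E1 n k P.e σ.y (fun y' => TS P.j n y' F / (F.card : ℝ) ^ n) ≤
        Real.exp ((n : ℝ) ^ 2 * P.rho * P.e) * (TS P.j n σ.y F / (F.card : ℝ) ^ n) := by
    intro F hF
    have h1 : (fun y' : Finset (Fin n) → ℝ => TS P.j n y' F / (F.card : ℝ) ^ n) =
        fun y' => ((F.card : ℝ) ^ n)⁻¹ * TS P.j n y' F := by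
      funext y'
      rw [div_eq_inv_mul]
    rw [h1, E1_mul]
    have h2 := mul_le_mul_of_nonneg_left (TS_step g.mild P.rho0.le hfar hF)
      (inv_nonneg.mpr (pow_nonneg (Nat.cast_nonneg F.card) n) : (0 : ℝ) ≤ ((F.card : ℝ) ^ n)⁻¹)
    refine h2.trans (le_of_eq ?_)
    rw [div_eq_inv_mul]
    ring
  have h1 : P.PF (s + 1) = fun y' =>
      Real.exp (-((n : ℝ) ^ 2 * P.rho * (P.e * ((s + 1 : ℕ) : ℝ)))) *
      ((fun y' => ∑ V ∈ P.Vd, TS P.j n y' (dis n k V) / ((dis n k V).card : ℝ) ^ n) y' +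
        (fun y' => ∑ V ∈ P.Vc, TS P.j n y' (nea n k P.j V) /
          ((nea n k P.j V).card : ℝ) ^ n) y') := rfl
  rw [h1, E1_mul, E1_add, E1_sum, E1_sum]
  have h2 : ∑ V ∈ P.Vd, E1 n k P.e σ.y
      (fun y' => TS P.j n y' (dis n k V) / ((dis n k V).card : ℝ) ^ n) ≤
      Real.exp ((n : ℝ) ^ 2 * P.rho * P.e) *
        ∑ V ∈ P.Vd, TS P.j n σ.y (dis n k V) / ((dis n k V).card : ℝ) ^ n := by
    rw [mul_sum]
    exact sum_le_sum fun V _ => hone _ (dis_sub n k V)
  have h3 : ∑ V ∈ P.Vc, E1 n k P.e σ.y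
      (fun y' => TS P.j n y' (nea n k P.j V) / ((nea n k P.j V).card : ℝ) ^ n) ≤
      Real.exp ((n : ℝ) ^ 2 * P.rho * P.e) *
        ∑ V ∈ P.Vc, TS P.j n σ.y (nea n k P.j V) / ((nea n k P.j V).card : ℝ) ^ n := by
    rw [mul_sum]
    exact sum_le_sum fun V _ => hone _ (nea_sub n k P.j V)
  refine (mul_le_mul_of_nonneg_left (add_le_add h2 h3) (Real.exp_pos _).le).trans (le_of_eq ?_)
  unfold Par.PF
  rw [← mul_add, ← mul_assoc, ← Real.exp_add]
  congr 2
  push_cast
  ring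

theorem PV_congr (P : Par n k) (s : ℕ) {y y' : Finset (Fin n) → ℝ}
    (h : ∀ A ∈ KS n k, y A = y' A) : P.PV s y = P.PV s y' := by
  unfold Par.PV
  exact sum_congr rfl fun V _ => by rw [S_congr h]

theorem PF_congr (P : Par n k) (s : ℕ) {y y' : Finset (Fin n) → ℝ}
    (h : ∀ A ∈ KS n k, y A = y' A) : P.PF s y = P.PF s y' := by
  unfold Par.PF
  congr 2
  · exact sum_congr rfl fun V _ => by rw [TS_congr h (dis_sub n k V)]
  · exact sum_congr rfl fun V _ => by rw [TS_congr h (nea_sub n k P.j V)]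

end Pool.Agent.H14.KD
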