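import Pool.Agent.H14.KD.PB

/-!
# [H14 KD PR] pairs of near sets

* not_disj: A, B in nea n k j T, T in KS: (B \ A).card <= (B \ T).card + (T \ A).card < 2 j <= k
  (tri, sd_symm for T, A), and B has k elements, so A inter B is nonempty. Also for A = B (k >= 1).
* S_pair: d = (B \ A).card satisfies 1 <= d < 2 j; (A u B).card = k + d (union_card), Good.upp:
  S (A u B) <= sz (k + d) + d1 D = (rr d + d1) D (rr_mul).
-/

namespace Pool.Agent.H14.KD

open Finset
open Pool.Agent.H70.KG (KS DD S gf up0 up pr pr0)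
open Pool.Agent.H70.KP (Sta Ex E1 Mild sz rr dis nea TS nc tg WW mem_KS sd_symm tri union_card rr_mul)

variable {n k : ℕ}

private theorem two_aux {j : ℕ} {T A B : Finset (Fin n)} (hT : T ∈ KS n k)
    (hA : A ∈ nea n k j T) (hB : B ∈ nea n k j T) : (B \ A).card < 2 * j := by
  obtain ⟨hA1, hA2⟩ := mem_filter.1 hA
  obtain ⟨hB1, hB2⟩ := mem_filter.1 hB
  have h1 := tri B A T
  have h2 := sd_symm hT hA1
  omega

theorem not_disj (P : Par n k) {T A B : Finset (Fin n)} (hT : T ∈ KS n k)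
    (hA : A ∈ nea n k P.j T) (hB : B ∈ nea n k P.j T) : ¬ Disjoint A B := by
  intro h
  have h1 := two_aux hT hA hB
  have h2 := P.hjk
  have h3 : B \ A = B := Finset.sdiff_eq_self_of_disjoint h.symm
  rw [h3, mem_KS.1 (mem_filter.1 hB).1] at h1
  omega

theorem S_pair {P : Par n k} {σ : Sta n} (g : Good P σ) {A B : Finset (Fin n)}
    (hA : A ∈ KS n k) (h1 : 1 ≤ (B \ A).card) (h2 : (B \ A).card < 2 * P.j) :
    S n k σ.y (A ∪ B) / DD n k ≤ rr n k (B \ A).card + P.d1 := by
  have hD := P.D_pos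
  have h3 := union_card A B
  rw [mem_KS.1 hA] at h3
  have h4 := g.upp (A ∪ B) (by omega) (by omega)
  rw [h3, ← rr_mul hD] at h4
  rw [div_le_iff₀ hD]
  linarith

theorem near_two {P : Par n k} {T A B : Finset (Fin n)} (hT : T ∈ KS n k)
    (hA : A ∈ nea n k P.j T) (hB : B ∈ nea n k P.j T) : (B \ A).card < 2 * P.j :=
  two_aux hT hA hB

end Pool.Agent.H14.KD
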