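import Pool.Agent.H14.KD.W3
import Pool.Agent.H14.KD.PR

/-!
# [H14 KD AQ] average of the sums over q-tuples of sets in a ball

Fix T in KS and f in tup q (nea j T). Apply `prod_step` with e = P.e, t = e s, index type Fin q,
I = univ (q <= n), B = f, c i = if f i in C then 1 else 0 (= exp (-(0 * st))), al i = P.al s,
b i = P.al (s+1), J i = 1, th = 0, ga i l = ga := (1 + del)(rr 1 + d1), G = P.gl q.
* h1, h2, h3: al_step (al s - al (s+1) = 8 e/D >= 4 e/D, so al (s+1) <= al s), al_half.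
* hinj: different members of f have (f i' \ f i).card >= 1. he: 16 n e <= del <= 1.
* hga: S_pair with 1 <= d < 2 j (near_two), rr_anti, and 1 + 4 n e <= 1 + del (e2).
* hG: for I' with m elements the left side is m (m-1)/2 * ga <= q (q-1)/2 * ga = G.
* val σ' i = wt 0 0 (P.al (s+1)) (e (s+1)) σ' (f i); exp (-(0 * x)) = 1. hpick: f i in insert B0 C
  iff f i = B0 or f i in C; B0 not in C.
(not_disj is not needed here.) Result: Ex of the product <= exp (e gl q) * product (with
wt 0 0 (P.al s) (e s) σ). Sum over T, f (Ex_sum), multiply by exp (-(gl q (e (s+1)))) (Ex_mul).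
-/

namespace Pool.Agent.H14.KD

open Finset
open Pool.Agent.H70.KG (KS DD S gf up0 up pr pr0)
open Pool.Agent.H70.KP (Sta Ex E1 Mild sz rr dis nea TS nc tg WW Ex_sum Ex_mul Ex_mono)

variable {n k : ℕ}

theorem pairs_sum {ι : Type} [DecidableEq ι] (I : Finset ι) (c : ℝ) :
    ∑ i ∈ I, ∑ _l ∈ I.erase i, c = (I.card : ℝ) * (I.card - 1) * c := by
  have h1 : ∀ i ∈ I, ∑ _l ∈ I.erase i, c = ((I.card : ℝ) - 1) * c := by
    intro i hi
    have h2 : 0 < I.card := Finset.card_pos.2 ⟨i, hi⟩
    rw [Finset.sum_const, card_erase_of_mem hi, nsmul_eq_mul, Nat.cast_sub (by omega)]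
    simp
  rw [Finset.sum_congr rfl h1, Finset.sum_const, nsmul_eq_mul]
  ring

theorem pairs_le {m l : ℕ} (h : m ≤ l) :
    (m : ℝ) * (m - 1) ≤ (l : ℝ) * (l - 1) := by
  rcases Nat.eq_zero_or_pos m with h0 | h0
  · subst h0
    rcases Nat.eq_zero_or_pos l with h1 | h1
    · subst h1
      simp
    · have h2 : (1 : ℝ) ≤ l := by exact_mod_cast h1
      have h3 : 0 ≤ (l : ℝ) * (l - 1) := mul_nonneg (by linarith) (by linarith)
      simpa using h3
  · have h1 : (1 : ℝ) ≤ m := by exact_mod_cast h0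
    have h2 : (m : ℝ) ≤ l := by exact_mod_cast h
    nlinarith

/-- the rate of a pair of near sets -/
theorem pair_rate {P : Par n k} {σ : Sta n} (g : Good P σ) {A B : Finset (Fin n)}
    (hA : A ∈ KS n k) (h1 : 1 ≤ (B \ A).card) (h2 : (B \ A).card < 2 * P.j) :
    (1 + 4 * n * P.e) * (S n k σ.y (A ∪ B) / DD n k) ≤
      (1 + P.del) * (rr n k (B \ A).card + P.d1) := by
  have h3 := S_pair g hA h1 h2
  have hD := P.D_pos
  have h4 : 0 ≤ S n k σ.y (A ∪ B) / DD n k :=
    div_nonneg (sum_nonneg fun C hC => g.mild.nonneg C (mem_filter.mp hC).1) hD.le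
  have h5 : 4 * n * P.e ≤ P.del := by
    have h6 := P.e2
    have h7 := P.n_pos
    have h8 := P.e0
    have h9 : 0 ≤ (n : ℝ) * P.e := by positivity
    linarith
  have h6 := P.del0
  calc (1 + 4 * n * P.e) * (S n k σ.y (A ∪ B) / DD n k)
      ≤ (1 + P.del) * (S n k σ.y (A ∪ B) / DD n k) :=
        mul_le_mul_of_nonneg_right (by linarith) h4
    _ ≤ _ := mul_le_mul_of_nonneg_left h3 (by linarith)

private theorem wt00 (al t : ℝ) (σ : Sta n) (B : Finset (Fin n)) :
    wt 0 0 al t σ B = (if B ∈ σ.C then 1 else 0) + al * σ.y B := by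
  unfold wt
  simp

private theorem one_f (P : Par n k) (s : ℕ) (hs : s < P.tau) {σ : Sta n} (g : Good P σ)
    {T : Finset (Fin n)} (hT : T ∈ KS n k) {f : Fin P.q → Finset (Fin n)}
    (hf : f ∈ tup P.q (nea n k P.j T)) :
    Ex k P.e (P.e * s) σ (fun σ' => ∏ i,
        wt 0 0 (P.al (s + 1)) (P.e * ((s + 1 : ℕ) : ℝ)) σ' (f i)) ≤
      Real.exp (P.e * P.gl P.q) * ∏ i, wt 0 0 (P.al s) (P.e * s) σ (f i) := by
  obtain ⟨hf1, hf2⟩ := mem_filter.1 hf
  rw [Fintype.mem_piFinset] at hf1
  have hK : ∀ i, f i ∈ KS n k := fun i => (mem_filter.1 (hf1 i)).1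
  have hD := P.D_pos
  have he := P.e0
  have hinj : Set.InjOn f ((univ : Finset (Fin P.q)) : Set (Fin P.q)) := by
    intro i _ i' _ h
    by_contra hne
    have h1 := hf2 i i' hne
    rw [h, sdiff_self] at h1
    simp at h1
  have hstep := P.al_step s
  have half := P.al_half (s := s) hs.le
  have hals := P.al_pos (s := s) hs.le
  have hals1 := P.al_pos (s := s + 1) hs
  have h8 : 0 ≤ P.e / DD n k := by positivity
  have h16 : 16 * (n : ℝ) * P.e ≤ 1 := by linarith [P.e2, P.del1]
  have hgam := P.gam_nonneg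
  have hdel := P.del0
  have key := prod_step (t := P.e * s) g.mild h16 g.dead (univ : Finset (Fin P.q))
    (by rw [card_univ, Fintype.card_fin]; have := P.hqn; omega) f (fun i _ => hK i) hinj
    (fun i => if f i ∈ σ.C then 1 else 0) (fun _ => P.al s) (fun _ => P.al (s + 1))
    (fun _ => 1) (fun _ => 0) (fun _ _ => (1 + P.del) * (rr n k 1 + P.d1)) (P.gl P.q)
    (fun i _ => by split_ifs <;> norm_num) (fun _ _ => hals1.le) (fun _ _ => zero_le_one)
    (fun _ _ => le_rfl)
    (fun i _ => by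
      rw [mul_zero, Real.exp_zero, mul_one]
      have : 0 ≤ 8 * P.e / DD n k := by positivity
      linarith)
    (fun i _ => by
      rw [mul_zero, Real.exp_zero, mul_one]
      exact half)
    (fun i _ => by
      rw [mul_zero, Real.exp_zero, mul_one, mul_one, hstep]
      exact div_le_div_of_nonneg_right (by linarith) hD.le)
    (fun i _ i' _ hne => by
      have h1 := hf2 i i' hne
      have h2 := near_two hT (hf1 i) (hf1 i')
      refine (pair_rate g (hK i) h1 h2).trans ?_
      refine mul_le_mul_of_nonneg_left ?_ (by linarith)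
      linarith [rr_anti n k h1])
    (fun I' _ => by
      rw [pairs_sum, Finset.sum_const_zero, add_zero]
      have h1 : I'.card ≤ P.q := by
        have := card_le_univ I'
        rwa [Fintype.card_fin] at this
      have h2 := pairs_le h1
      unfold Par.gl
      have h3 : 0 ≤ (1 + P.del) * (rr n k 1 + P.d1) := mul_nonneg (by linarith) hgam
      calc 1 / 2 * ((I'.card : ℝ) * (I'.card - 1) * ((1 + P.del) * (rr n k 1 + P.d1)))
          = (I'.card : ℝ) * (I'.card - 1) * (1 / 2 * ((1 + P.del) * (rr n k 1 + P.d1))) := by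
            ring
        _ ≤ (P.q : ℝ) * (P.q - 1) * (1 / 2 * ((1 + P.del) * (rr n k 1 + P.d1))) :=
            mul_le_mul_of_nonneg_right h2 (by linarith)
        _ = _ := by ring)
    (fun σ' i => wt 0 0 (P.al (s + 1)) (P.e * ((s + 1 : ℕ) : ℝ)) σ' (f i))
    (fun i _ => by
      rw [wt00]
      rfl)
    (fun B0 _ hB0 i _ => by
      rw [wt00]
      show (if f i ∈ insert B0 σ.C then (1 : ℝ) else 0) +
        P.al (s + 1) * up n k P.e σ.y B0 (f i) = _
      congr 1
      by_cases h1 : B0 = f i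
      · rw [if_pos h1, if_pos (by rw [h1]; exact mem_insert_self _ _), if_neg, zero_add]
        rw [← h1]
        exact hB0
      · rw [if_neg h1, add_zero]
        by_cases h2 : f i ∈ σ.C
        · rw [if_pos h2, if_pos (mem_insert_of_mem h2)]
        · rw [if_neg h2, if_neg]
          rw [mem_insert, not_or]
          exact ⟨fun h => h1 h.symm, h2⟩)
  refine key.trans (le_of_eq ?_)
  congr 1
  refine Finset.prod_congr rfl fun i _ => ?_
  rw [wt00]

theorem avg_QQ (P : Par n k) (s : ℕ) (hs : s < P.tau) {σ : Sta n} (g : Good P σ) :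
    Ex k P.e (P.e * s) σ (fun σ' => Real.exp (-(P.gl P.q * (P.e * ((s + 1 : ℕ) : ℝ)))) *
        P.QQ (s + 1) σ') ≤
      Real.exp (-(P.gl P.q * (P.e * s))) * P.QQ s σ := by
  rw [Ex_mul]
  have h1 : Ex k P.e (P.e * s) σ (P.QQ (s + 1)) ≤ Real.exp (P.e * P.gl P.q) * P.QQ s σ := by
    have h2 : P.QQ (s + 1) = fun σ' => ∑ T ∈ KS n k, ∑ f ∈ tup P.q (nea n k P.j T),
        ∏ i, wt 0 0 (P.al (s + 1)) (P.e * ((s + 1 : ℕ) : ℝ)) σ' (f i) := rfl
    rw [h2, Ex_sum]
    unfold Par.QQ
    rw [Finset.mul_sum]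
    refine Finset.sum_le_sum fun T hT => ?_
    rw [Ex_sum, Finset.mul_sum]
    exact Finset.sum_le_sum fun f hf => one_f P s hs g hT hf
  refine (mul_le_mul_of_nonneg_left h1 (Real.exp_pos _).le).trans (le_of_eq ?_)
  rw [← mul_assoc, ← Real.exp_add]
  congr 2
  push_cast
  ring

end Pool.Agent.H14.KD
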