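import Pool.Agent.H14.KD.PB
import Pool.Agent.H70.KP.TV
import Pool.Agent.H70.KP.MA
import Pool.Agent.H70.KG.GR

/-!
# [H14 KD AT] average of the lower exponential terms

Compare H70/KP/AT (there a term is dropped when two chosen sets are near; here never). Fix T in KS,
old = the old term = exp (-(a/D) (S T - tg D) - c (e s)), mu = a / D.
Far choices (j <= (B \ T).card, B not in C): nc unchanged (filter_insert), the new term is
exp (-mu (S (up B) T - tg D) - c (e (s+1))). B in C far: the stay term, and S (up B) T = S (up0) T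
(up_of_mem). So far choices and pr0 together: term_T with th = tg D, bound
old * exp (-c e) * exp (e (8 a e rho + a^2 (64 e + 4 rho))). B in C near T: the stay term, at most
old * exp (-c e) because S (up0) T >= S T (KG.up0_bounds). B not in C near T: nc (insert B C) =
insert B nc, new tg = tg - r_d, d = (B \ T).card < j, and S (up B) T >= S T - S (T u B) (KG.up_bounds),
S (T u B) <= (rr d + d1) D (Good.upp, union_card, rr_mul), so
-mu (S (up B) T - (tg - r_d) D) <= -mu (S T - tg D) + mu d1 D = ... + a d1 <= ... + 1: the new term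
is <= 3 * old * exp (-c e). The total probability of the near B is (e/D) * (near weight) <= e rho
(Good.near, T has card k). Altogether Ex <= old * exp (-c e) * (exp (X) + 3 rho e) <=
old * exp (-c e) exp (X + 3 rho e) <= old (Par.cT), X = e (8 a e rho + a^2 (64 e + 4 rho)) >= 0.
avg_PT: sum over T in KS, Ex_sum.
-/

namespace Pool.Agent.H14.KD

open Finset
open Pool.Agent.H70.KG (KS DD S gf up0 up pr pr0)
open Pool.Agent.H70.KP (Sta Ex E1 Mild sz rr dis nea TS nc tg WW up_of_mem mem_KS union_card rr_mul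
  term_T pr_nonneg Ex_sum)

variable {n k : ℕ}

/-- One term. -/
private noncomputable def tT (P : Par n k) (s : ℕ) (T : Finset (Fin n)) (σ : Sta n) : ℝ :=
  Real.exp (-(P.a / DD n k) * (S n k σ.y T - tg k P.j σ.C T * DD n k) - P.c * (P.e * s))

private theorem S_mem {P : Par n k} {σ : Sta n} (g : Good P σ) {B : Finset (Fin n)}
    (hB : B ∈ σ.C) (T : Finset (Fin n)) :
    S n k (up n k P.e σ.y B) T = S n k (up0 n k P.e σ.y) T := by
  unfold Pool.Agent.H70.KG.S
  refine sum_congr rfl fun A hA => ?_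
  exact up_of_mem g.dead hB (mem_filter.mp hA).1

private theorem nc_far {j : ℕ} {C : Finset (Finset (Fin n))} {T B : Finset (Fin n)}
    (h : j ≤ (B \ T).card) : nc j (insert B C) T = nc j C T := by
  unfold Pool.Agent.H70.KP.nc
  rw [filter_insert, if_neg (by omega)]

private theorem nc_near {j : ℕ} {C : Finset (Finset (Fin n))} {T B : Finset (Fin n)}
    (h : (B \ T).card < j) : nc j (insert B C) T = insert B (nc j C T) := by
  unfold Pool.Agent.H70.KP.nc
  rw [filter_insert, if_pos h]

private theorem near_pick (P : Par n k) (s : ℕ) (t : ℝ) {σ : Sta n} (g : Good P σ)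
    {T : Finset (Fin n)} (hT : T ∈ KS n k) {B : Finset (Fin n)}
    (hBC : B ∉ σ.C) (hn : (B \ T).card < P.j) :
    tT P (s + 1) T (σ.pick k P.e t B) ≤
      3 * Real.exp (-(P.a / DD n k) * (S n k σ.y T - tg k P.j σ.C T * DD n k)) *
        Real.exp (-(P.c * (P.e * ((s + 1 : ℕ) : ℝ)))) := by
  have hBnc : B ∉ nc P.j σ.C T := fun h => hBC (mem_filter.mp h).1
  have hnew : nc P.j (insert B σ.C) T = insert B (nc P.j σ.C T) := nc_near hn
  have htg' : tg k P.j (insert B σ.C) T = tg k P.j σ.C T - rr n k (B \ T).card := by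
    unfold Pool.Agent.H70.KP.tg
    rw [hnew, sum_insert hBnc]
    ring
  show Real.exp (-(P.a / DD n k) * (S n k (up n k P.e σ.y B) T -
    tg k P.j (insert B σ.C) T * DD n k) - P.c * (P.e * ((s + 1 : ℕ) : ℝ))) ≤ _
  rw [htg']
  have hD := P.D_pos
  have hTc : T.card = k := mem_KS.mp hT
  obtain ⟨G, hG0, -, hG⟩ := Pool.Agent.H70.KG.up_bounds (n := n) (k := k) (e := P.e) (y := σ.y)
    hD g.mild.nonneg P.e0.le (by linarith [g.mild.e_le8]) g.mild.S_le T B
  have hcard : (T ∪ B).card = k + (B \ T).card := by rw [union_card, hTc]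
  have hup := g.upp (T ∪ B) (by omega) (by have := P.hj; omega)
  rw [hcard, ← rr_mul hD] at hup
  have ha : 0 ≤ P.a := by linarith [P.a_one]
  have h3 : Real.exp 1 ≤ 3 := by
    have := Real.exp_one_lt_d9
    linarith
  have h4 : -(P.a / DD n k) *
      (S n k (up n k P.e σ.y B) T - (tg k P.j σ.C T - rr n k (B \ T).card) * DD n k) ≤
      -(P.a / DD n k) * (S n k σ.y T - tg k P.j σ.C T * DD n k) + 1 := by
    have h5 : P.a / DD n k * (P.d1 * DD n k) ≤ 1 := by
      have : P.a / DD n k * (P.d1 * DD n k) = P.a * P.d1 := by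
        field_simp
      rw [this]
      exact P.ad
    have h6 : S n k σ.y T - tg k P.j σ.C T * DD n k - P.d1 * DD n k ≤
        S n k (up n k P.e σ.y B) T - (tg k P.j σ.C T - rr n k (B \ T).card) * DD n k := by
      linarith
    have h7 : 0 ≤ P.a / DD n k := by positivity
    have h8 := mul_le_mul_of_nonneg_left h6 h7
    linarith
  have h9 : -(P.a / DD n k) *
      (S n k (up n k P.e σ.y B) T - (tg k P.j σ.C T - rr n k (B \ T).card) * DD n k) -
      P.c * (P.e * ((s + 1 : ℕ) : ℝ)) ≤
      1 + (-(P.a / DD n k) * (S n k σ.y T - tg k P.j σ.C T * DD n k)) +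
        -(P.c * (P.e * ((s + 1 : ℕ) : ℝ))) := by
    linarith
  refine (Real.exp_le_exp.mpr h9).trans ?_
  rw [Real.exp_add, Real.exp_add]
  refine mul_le_mul_of_nonneg_right ?_ (Real.exp_pos _).le
  exact mul_le_mul_of_nonneg_right h3 (Real.exp_pos _).le

private theorem one_T' (P : Par n k) (s : ℕ) (t : ℝ) {σ : Sta n} (g : Good P σ)
    {T : Finset (Fin n)} (hT : T ∈ KS n k) : Ex k P.e t σ (tT P (s + 1) T) ≤ tT P s T σ := by
  have hTc : T.card = k := mem_KS.mp hT
  have hD := P.D_pos
  have he := P.e0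
  have hrho := P.rho0
  have ha : 0 ≤ P.a := by linarith [P.a_one]
  have hnear := g.near T (by omega) (by have := P.hj; omega)
  have hfar : ∀ B ∈ KS n k, P.j ≤ (B \ T).card → S n k σ.y (T ∪ B) ≤ P.rho * DD n k := by
    intro B _ hB
    exact g.far T B (by omega) (by have := P.hj; omega) hB
  set th := tg k P.j σ.C T * DD n k with hth
  set gs := Real.exp (-(P.a / DD n k) * (S n k σ.y T - th)) with hgs
  set K1 := Real.exp (-(P.c * (P.e * ((s + 1 : ℕ) : ℝ)))) with hK1
  set X := P.e * (8 * P.a * P.e * P.rho + P.a ^ 2 * (64 * P.e + 4 * P.rho)) with hX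
  have hX0 : 0 ≤ X := by positivity
  have key := term_T (j := P.j) g.mild T (th := th) (g.mild.S_le T hT) hrho.le hfar hnear ha
    P.arho
  -- the stay term
  have hstay : tT P (s + 1) T (σ.stay k P.e) =
      Real.exp (-(P.a / DD n k) * (S n k (up0 n k P.e σ.y) T - th)) * K1 := by
    rw [hK1, ← Real.exp_add]
    show Real.exp (-(P.a / DD n k) * (S n k (up0 n k P.e σ.y) T -
      tg k P.j σ.C T * DD n k) - P.c * (P.e * ((s + 1 : ℕ) : ℝ))) = _
    congr 1
  have hgs0 : 0 < gs := Real.exp_pos _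
  have hK0 : 0 < K1 := Real.exp_pos _
  obtain ⟨hu0, -⟩ := Pool.Agent.H70.KG.up0_bounds (n := n) (k := k) (e := P.e) (y := σ.y)
    hD g.mild.nonneg P.e0.le (by linarith [g.mild.e_le8]) g.mild.S_le T
  have hstay_le : Real.exp (-(P.a / DD n k) * (S n k (up0 n k P.e σ.y) T - th)) ≤ gs := by
    refine Real.exp_le_exp.mpr ?_
    have h7 : 0 ≤ P.a / DD n k := by positivity
    nlinarith [mul_nonneg h7 hu0]
  -- bound of the new value for each B
  have hB : ∀ B ∈ (KS n k).filter (fun B => B ∉ σ.C),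
      pr n k P.e σ.y B * tT P (s + 1) T (σ.pick k P.e t B) ≤
      (if P.j ≤ (B \ T).card then pr n k P.e σ.y B *
        Real.exp (-(P.a / DD n k) * (S n k (up n k P.e σ.y B) T - th)) * K1 else
        pr n k P.e σ.y B * (3 * gs * K1)) := by
    intro B hBm
    obtain ⟨hBK, hBC⟩ := mem_filter.mp hBm
    have hp := pr_nonneg g.mild hBK
    split_ifs with hf
    · rw [mul_assoc]
      refine mul_le_mul_of_nonneg_left (le_of_eq ?_) hp
      have htgf : tg k P.j (insert B σ.C) T = tg k P.j σ.C T := by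
        unfold Pool.Agent.H70.KP.tg
        rw [nc_far hf]
      show Real.exp (-(P.a / DD n k) * (S n k (up n k P.e σ.y B) T -
        tg k P.j (insert B σ.C) T * DD n k) - P.c * (P.e * ((s + 1 : ℕ) : ℝ))) = _
      rw [htgf, hK1, ← Real.exp_add]
      congr 1
    · refine mul_le_mul_of_nonneg_left ?_ hp
      exact near_pick P s t g hT hBC (by omega)
  have hC : ∀ B ∈ (KS n k).filter (fun B => B ∈ σ.C),
      pr n k P.e σ.y B * tT P (s + 1) T (σ.stay k P.e) ≤
      (if P.j ≤ (B \ T).card then pr n k P.e σ.y B *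
        Real.exp (-(P.a / DD n k) * (S n k (up n k P.e σ.y B) T - th)) * K1 else
        pr n k P.e σ.y B * (3 * gs * K1)) := by
    intro B hBm
    obtain ⟨hBK, hBC⟩ := mem_filter.mp hBm
    have hp := pr_nonneg g.mild hBK
    rw [hstay]
    split_ifs with hf
    · rw [S_mem g hBC, mul_assoc]
    · refine mul_le_mul_of_nonneg_left ?_ hp
      refine mul_le_mul_of_nonneg_right ?_ hK0.le
      linarith
  -- the total
  have htot : Ex k P.e t σ (tT P (s + 1) T) ≤
      ∑ B ∈ KS n k, (if P.j ≤ (B \ T).card then pr n k P.e σ.y B *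
        Real.exp (-(P.a / DD n k) * (S n k (up n k P.e σ.y B) T - th)) * K1 else
        pr n k P.e σ.y B * (3 * gs * K1)) +
      pr0 n k P.e σ.y * Real.exp (-(P.a / DD n k) * (S n k (up0 n k P.e σ.y) T - th)) * K1 := by
    unfold Pool.Agent.H70.KP.Ex
    rw [add_mul, sum_mul, ← sum_filter_add_sum_filter_not (KS n k) (fun B => B ∈ σ.C)
      (fun B => if P.j ≤ (B \ T).card then pr n k P.e σ.y B *
        Real.exp (-(P.a / DD n k) * (S n k (up n k P.e σ.y B) T - th)) * K1 else
        pr n k P.e σ.y B * (3 * gs * K1))]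
    have e1 := sum_le_sum hB
    have e2 := sum_le_sum hC
    rw [hstay] at e2 ⊢
    have e3 : pr0 n k P.e σ.y *
        (Real.exp (-(P.a / DD n k) * (S n k (up0 n k P.e σ.y) T - th)) * K1) =
        pr0 n k P.e σ.y * Real.exp (-(P.a / DD n k) * (S n k (up0 n k P.e σ.y) T - th)) * K1 := by
      ring
    rw [e3]
    linarith
  refine htot.trans ?_
  rw [sum_ite, ← sum_mul]
  have hnearp : ∑ B ∈ (KS n k).filter (fun B => ¬ P.j ≤ (B \ T).card),
      pr n k P.e σ.y B * (3 * gs * K1) ≤ P.e * P.rho * (3 * gs * K1) := by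
    rw [← sum_mul]
    refine mul_le_mul_of_nonneg_right ?_ (by positivity)
    have e1 : ∑ B ∈ (KS n k).filter (fun B => ¬ P.j ≤ (B \ T).card), pr n k P.e σ.y B =
        P.e / DD n k * ∑ B ∈ (KS n k).filter (fun B => (B \ T).card < P.j), σ.y B := by
      rw [mul_sum]
      refine sum_congr ?_ fun B _ => ?_
      · ext B
        simp only [mem_filter, not_le]
      · unfold Pool.Agent.H70.KG.pr
        ring
    rw [e1]
    calc P.e / DD n k * ∑ B ∈ (KS n k).filter (fun B => (B \ T).card < P.j), σ.y B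
        ≤ P.e / DD n k * (P.rho * DD n k) := mul_le_mul_of_nonneg_left hnear (by positivity)
      _ = P.e * P.rho := by field_simp
  have hfin : Real.exp X + 3 * P.rho * P.e ≤ Real.exp (P.c * P.e) := by
    have h1 : Real.exp X + 3 * P.rho * P.e ≤ Real.exp (X + 3 * P.rho * P.e) := by
      rw [Real.exp_add]
      have h2 := Real.add_one_le_exp (3 * P.rho * P.e)
      have h3 : 1 ≤ Real.exp X := Real.one_le_exp hX0
      have h4 : 0 ≤ 3 * P.rho * P.e := by positivity
      nlinarith [Real.exp_pos X]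
    exact h1.trans (Real.exp_le_exp.mpr P.cT)
  have key' : ∑ B ∈ (KS n k).filter (fun B => P.j ≤ (B \ T).card), pr n k P.e σ.y B *
      Real.exp (-(P.a / DD n k) * (S n k (up n k P.e σ.y B) T - th)) +
      pr0 n k P.e σ.y * Real.exp (-(P.a / DD n k) * (S n k (up0 n k P.e σ.y) T - th)) ≤
      gs * Real.exp X := by
    rw [hgs, ← Real.exp_add]
    exact key
  have hold : tT P s T σ = gs * Real.exp (P.c * P.e) * K1 := by
    rw [hgs, hK1, ← Real.exp_add, ← Real.exp_add]
    show Real.exp (-(P.a / DD n k) * (S n k σ.y T - tg k P.j σ.C T * DD n k) -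
      P.c * (P.e * s)) = _
    congr 1
    push_cast
    ring
  rw [hold]
  calc _ ≤ (gs * Real.exp X) * K1 + P.e * P.rho * (3 * gs * K1) := by
        nlinarith [mul_le_mul_of_nonneg_right key' hK0.le, hnearp]
    _ = gs * (Real.exp X + 3 * P.rho * P.e) * K1 := by ring
    _ ≤ gs * Real.exp (P.c * P.e) * K1 := by
        refine mul_le_mul_of_nonneg_right ?_ hK0.le
        exact mul_le_mul_of_nonneg_left hfin hgs0.le

theorem one_T (P : Par n k) (s : ℕ) (t : ℝ) {σ : Sta n} (g : Good P σ) {T : Finset (Fin n)}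
    (hT : T ∈ KS n k) :
    Ex k P.e t σ (fun σ' => Real.exp (-(P.a / DD n k) *
        (S n k σ'.y T - tg k P.j σ'.C T * DD n k) - P.c * (P.e * ((s + 1 : ℕ) : ℝ)))) ≤
      Real.exp (-(P.a / DD n k) * (S n k σ.y T - tg k P.j σ.C T * DD n k) - P.c * (P.e * s)) :=
  one_T' P s t g hT

theorem avg_PT (P : Par n k) (s : ℕ) (t : ℝ) {σ : Sta n} (g : Good P σ) :
    Ex k P.e t σ (P.PT (s + 1)) ≤ P.PT s σ := by
  have h1 : P.PT (s + 1) = fun σ' => ∑ T ∈ KS n k, tT P (s + 1) T σ' := rfl
  rw [h1, Ex_sum]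
  exact sum_le_sum fun T hT => one_T' P s t g hT

end Pool.Agent.H14.KD
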