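import Pool.Agent.H14.KD.W3
import Pool.Agent.H14.KD.PR
import Pool.Agent.H14.KD.AQ

/-!
# [H14 KD AU] average of the sums over T and l-tuples of sets near T

Fix T in KS, 1 <= l < q, and f in tup l (rin j T); d_i = (f i \ T).card, 1 <= d_i < j,
k1_i = rr d_i, k2_i = (1 + del)(rr d_i + d1). Apply `prod_step` with e = P.e, t = e s, index type
Option (Fin l), I = univ (l + 1 <= q <= n), B none = T, B (some i) = f i;
c none = 0, al none = b none = 1, J none = 0, th none = 0;
c (some i) = if f i in C then exp (-(k1_i * st (f i))) else 0, al (some i) = P.al s * exp (-(k2_i * (e s))),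
b (some i) = P.al (s+1) * exp (-(k2_i * (e (s+1)))), J (some i) = exp (-(k1_i * (e s))),
th (some i) = k2_i; ga (none) (some i) = ga (some i) (none) = k2_i, ga (some i) (some i') = ga0 :=
(1 + del)(rr 1 + d1), G = P.gl l.
* b exp (e th) = P.al (s+1) * exp (-(k2 (e s))). h1, h2 as in AQ. h3: al - b exp (e th) =
  (8 e/D) exp (-(k2 (e s))) >= (4 e/D) exp (-(k1 (e s))), because
  (k2 - k1)(e s) = (del rr d + (1 + del) d1)(e s) <= 2 del (e tau) <= 1/16 (dtau, d1 <= del/2,
  rr <= 1) and exp (1/16) <= 2.
* hinj: f injective, and f i <> T since (f i \ T).card >= 1.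
* hga: S_pair for (T, f i): S (T u f i)/D <= rr d_i + d1; for (f i, f i'): 1 <= d < 2 j (near_two;
  rin is contained in nea), rr_anti; factor 1 + 4 n e <= 1 + del. (S (A u B) is symmetric:
  union_comm.)
* hG: let I'' be the set of the i with some i in I', m = |I''|. The left side is
  m (m-1)/2 * ga0 + (sum over I'' of k2_i if none in I', else 0) <= G + sum over I'' of k2_i.
* val σ' none = σ'.y T, val σ' (some i) = wt k1_i k2_i (P.al (s+1)) (e (s+1)) σ' (f i).
The product over Option (Fin l) is Fintype.prod_option. Then sum over T, f (Ex_sum) and multiply by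
exp (-(gl l (e (s+1)))) (Ex_mul).
-/

namespace Pool.Agent.H14.KD

open Finset
open Pool.Agent.H70.KG (KS DD S gf up0 up pr pr0)
open Pool.Agent.H70.KP (Sta Ex E1 Mild sz rr dis nea TS nc tg WW Ex_sum Ex_mul rr_le_one rr_nonneg)

variable {n k : ℕ}

private theorem hG_aux {l : ℕ} (th : Option (Fin l) → ℝ)
    (ga : Option (Fin l) → Option (Fin l) → ℝ) (c : ℝ) (hc : 0 ≤ c) (hth : ∀ o, 0 ≤ th o)
    (h0 : th none = 0) (h1 : ∀ i, ga none (some i) = th (some i))
    (h2 : ∀ i, ga (some i) none = th (some i)) (h3 : ∀ i i', ga (some i) (some i') = c)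
    (I : Finset (Option (Fin l))) :
    1 / 2 * ∑ i ∈ I, ∑ i' ∈ I.erase i, ga i i' ≤ (l : ℝ) * (l - 1) / 2 * c + ∑ i ∈ I, th i := by
  have hcard : (I.erase none).card ≤ l := by
    have h4 : I.erase none ⊆ (univ : Finset (Option (Fin l))).erase none :=
      erase_subset_erase _ (subset_univ _)
    have h5 := card_le_card h4
    rw [card_erase_of_mem (mem_univ _), card_univ, Fintype.card_option, Fintype.card_fin] at h5
    omega
  have hI1 : ∑ i ∈ I.erase none, ∑ i' ∈ (I.erase none).erase i, ga i i' =
      ((I.erase none).card : ℝ) * ((I.erase none).card - 1) * c := by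
    rw [← pairs_sum]
    refine Finset.sum_congr rfl fun i hi => Finset.sum_congr rfl fun i' hi' => ?_
    cases i with
    | none => exact absurd rfl (ne_of_mem_erase hi)
    | some i =>
      cases i' with
      | none => exact absurd rfl (ne_of_mem_erase (mem_of_mem_erase hi'))
      | some i' => exact h3 i i'
  have hle : ((I.erase none).card : ℝ) * ((I.erase none).card - 1) * c ≤
      (l : ℝ) * (l - 1) * c := mul_le_mul_of_nonneg_right (pairs_le hcard) hc
  by_cases hn : none ∈ I
  · have e1 : ∑ i ∈ I, ∑ i' ∈ I.erase i, ga i i' =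
        ∑ i' ∈ I.erase none, ga none i' + ∑ i ∈ I.erase none, ∑ i' ∈ I.erase i, ga i i' :=
      (Finset.add_sum_erase I (fun i => ∑ i' ∈ I.erase i, ga i i') hn).symm
    have e2 : ∑ i' ∈ I.erase none, ga none i' = ∑ i' ∈ I.erase none, th i' := by
      refine Finset.sum_congr rfl fun i' hi' => ?_
      cases i' with
      | none => exact absurd rfl (ne_of_mem_erase hi')
      | some i' => exact h1 i'
    have e3 : ∑ i ∈ I.erase none, ∑ i' ∈ I.erase i, ga i i' =
        ∑ i ∈ I.erase none, th i +
          ∑ i ∈ I.erase none, ∑ i' ∈ (I.erase none).erase i, ga i i' := by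
      rw [← Finset.sum_add_distrib]
      refine Finset.sum_congr rfl fun i hi => ?_
      cases i with
      | none => exact absurd rfl (ne_of_mem_erase hi)
      | some i =>
        have h4 : none ∈ I.erase (some i) := mem_erase.2 ⟨by simp, hn⟩
        rw [← Finset.add_sum_erase (I.erase (some i)) (fun i' => ga (some i) i') h4, h2,
          Finset.erase_right_comm]
    have e4 : ∑ i ∈ I, th i = ∑ i ∈ I.erase none, th i := by
      rw [← Finset.add_sum_erase I th hn, h0, zero_add]
    rw [e1, e2, e3, hI1, e4]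
    linarith
  · have e1 : I.erase none = I := Finset.erase_eq_of_notMem hn
    rw [e1] at hI1 hle
    rw [hI1]
    have h4 : 0 ≤ ∑ i ∈ I, th i := Finset.sum_nonneg fun i _ => hth i
    linarith

private theorem one_f (P : Par n k) (s : ℕ) (hs : s < P.tau) {l : ℕ} (hl : l < P.q)
    {σ : Sta n} (g : Good P σ) {T : Finset (Fin n)} (hT : T ∈ KS n k)
    {f : Fin l → Finset (Fin n)} (hf : f ∈ tup l (rin n k P.j T)) :
    Ex k P.e (P.e * s) σ (fun σ' => σ'.y T * ∏ i, wt (rr n k (f i \ T).card)
        ((1 + P.del) * (rr n k (f i \ T).card + P.d1)) (P.al (s + 1))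
        (P.e * ((s + 1 : ℕ) : ℝ)) σ' (f i)) ≤
      Real.exp (P.e * P.gl l) * (σ.y T * ∏ i, wt (rr n k (f i \ T).card)
        ((1 + P.del) * (rr n k (f i \ T).card + P.d1)) (P.al s) (P.e * s) σ (f i)) := by
  obtain ⟨hf1, hf2⟩ := mem_filter.1 hf
  rw [Fintype.mem_piFinset] at hf1
  have hK : ∀ i, f i ∈ KS n k := fun i => (mem_filter.1 (hf1 i)).1
  have hd1 : ∀ i, 1 ≤ (f i \ T).card := fun i => (mem_filter.1 (hf1 i)).2.1
  have hd2 : ∀ i, (f i \ T).card < P.j := fun i => (mem_filter.1 (hf1 i)).2.2
  have hnea : ∀ i, f i ∈ nea n k P.j T := fun i => mem_filter.2 ⟨hK i, hd2 i⟩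
  have hD := P.D_pos
  have he := P.e0
  have hgam := P.gam_nonneg
  have hdel := P.del0
  have hd10 := P.d10
  have hj := P.hj
  obtain ⟨k1, hk1⟩ : ∃ k1 : Fin l → ℝ, k1 = fun i => rr n k (f i \ T).card := ⟨_, rfl⟩
  obtain ⟨k2, hk2⟩ : ∃ k2 : Fin l → ℝ,
    k2 = fun i => (1 + P.del) * (rr n k (f i \ T).card + P.d1) := ⟨_, rfl⟩
  have hk1i : ∀ i, k1 i = rr n k (f i \ T).card := fun i => by rw [hk1]
  have hk2i : ∀ i, k2 i = (1 + P.del) * (rr n k (f i \ T).card + P.d1) := fun i => by rw [hk2]
  have hk20 : ∀ i, 0 ≤ k2 i := by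
    intro i
    rw [hk2i]
    exact mul_nonneg (by linarith) (add_nonneg (rr_nonneg _ _ _) hd10.le)
  have hstep := P.al_step s
  have half := P.al_half (s := s) hs.le
  have hals := P.al_pos (s := s) hs.le
  have hals1 := P.al_pos (s := s + 1) hs
  have halle : P.al (s + 1) ≤ P.al s := by
    have : 0 ≤ 8 * P.e / DD n k := by positivity
    linarith
  have h16 : 16 * (n : ℝ) * P.e ≤ 1 := by linarith [P.e2, P.del1]
  -- b * exp (e th)
  have hbe : ∀ i, P.al (s + 1) * Real.exp (-(k2 i * (P.e * ((s + 1 : ℕ) : ℝ)))) *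
      Real.exp (P.e * k2 i) = P.al (s + 1) * Real.exp (-(k2 i * (P.e * s))) := by
    intro i
    rw [mul_assoc, ← Real.exp_add]
    congr 2
    push_cast
    ring
  have hk12 : ∀ i, Real.exp (-(k1 i * (P.e * s))) ≤ 2 * Real.exp (-(k2 i * (P.e * s))) := by
    intro i
    have h1 : k2 i - k1 i ≤ 2 * P.del := by
      rw [hk1i, hk2i]
      have h2 := rr_le_one n k (f i \ T).card
      have h3 := rr_nonneg n k (f i \ T).card
      have h4 := P.d1le
      have h5 := P.del1
      nlinarith
    have h2 : (k2 i - k1 i) * (P.e * s) ≤ 1 / 16 := by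
      have h3 : P.e * s ≤ P.e * P.tau :=
        mul_le_mul_of_nonneg_left (by exact_mod_cast hs.le) he.le
      have h4 : 0 ≤ P.e * (s : ℝ) := by positivity
      have h5 := P.dtau
      calc (k2 i - k1 i) * (P.e * s) ≤ 2 * P.del * (P.e * s) :=
            mul_le_mul_of_nonneg_right h1 h4
        _ ≤ 2 * P.del * (P.e * P.tau) := mul_le_mul_of_nonneg_left h3 (by linarith)
        _ ≤ 3 * P.del * (P.e * P.tau) := by
            have : 0 ≤ P.del * (P.e * P.tau) := by positivity
            linarith
        _ ≤ 1 / 16 := h5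
    have h3 : Real.exp (1 / 16) ≤ 2 := by
      have h4 := Real.add_one_le_exp (-(1 / 16 : ℝ))
      have h5 : Real.exp (1 / 16) * Real.exp (-(1 / 16 : ℝ)) = 1 := by
        rw [← Real.exp_add]
        norm_num
      have h6 := Real.exp_pos (1 / 16 : ℝ)
      nlinarith
    have h4 : -(k1 i * (P.e * s)) ≤ 1 / 16 + -(k2 i * (P.e * s)) := by linarith
    calc Real.exp (-(k1 i * (P.e * s))) ≤ Real.exp (1 / 16 + -(k2 i * (P.e * s))) :=
          Real.exp_le_exp.2 h4
      _ = Real.exp (1 / 16) * Real.exp (-(k2 i * (P.e * s))) := Real.exp_add _ _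
      _ ≤ _ := mul_le_mul_of_nonneg_right h3 (Real.exp_pos _).le
  have hinj : Set.InjOn (fun o : Option (Fin l) => o.elim T f)
      ((univ : Finset (Option (Fin l))) : Set (Option (Fin l))) := by
    intro o _ o' _ h
    cases o with
    | none =>
      cases o' with
      | none => rfl
      | some i' =>
        exfalso
        have h1 : T = f i' := h
        have h2 := hd1 i'
        rw [← h1, sdiff_self] at h2
        simp at h2
    | some i =>
      cases o' with
      | none =>
        exfalso
        have h1 : f i = T := h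
        have h2 := hd1 i
        rw [h1, sdiff_self] at h2
        simp at h2
      | some i' =>
        have h1 : f i = f i' := h
        by_contra hne
        have hne' : i ≠ i' := fun h => hne (by rw [h])
        have h2 := hf2 i i' hne'
        rw [h1, sdiff_self] at h2
        simp at h2
  have key := prod_step (t := P.e * s) g.mild h16 g.dead (univ : Finset (Option (Fin l)))
    (by rw [card_univ, Fintype.card_option, Fintype.card_fin]; have := P.hqn; omega)
    (fun o => o.elim T f)
    (fun o _ => by
      cases o with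
      | none => exact hT
      | some i => exact hK i) hinj
    (fun o => o.elim 0 (fun i => if f i ∈ σ.C then Real.exp (-(k1 i * σ.st (f i))) else 0))
    (fun o => o.elim 1 (fun i => P.al s * Real.exp (-(k2 i * (P.e * s)))))
    (fun o => o.elim 1
      (fun i => P.al (s + 1) * Real.exp (-(k2 i * (P.e * ((s + 1 : ℕ) : ℝ))))))
    (fun o => o.elim 0 (fun i => Real.exp (-(k1 i * (P.e * s)))))
    (fun o => o.elim 0 k2)
    (fun o o' => o.elim (o'.elim 0 k2) (fun i => o'.elim (k2 i)
      (fun _ => (1 + P.del) * (rr n k 1 + P.d1)))) (P.gl l)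
    (fun o _ => by
      cases o with
      | none => exact le_rfl
      | some i =>
        show 0 ≤ if f i ∈ σ.C then Real.exp (-(k1 i * σ.st (f i))) else 0
        split_ifs
        · exact (Real.exp_pos _).le
        · exact le_rfl)
    (fun o _ => by
      cases o with
      | none => exact zero_le_one
      | some i => exact mul_nonneg hals1.le (Real.exp_pos _).le)
    (fun o _ => by
      cases o with
      | none => exact le_rfl
      | some i => exact (Real.exp_pos _).le)
    (fun o _ => by
      cases o with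
      | none => exact le_rfl
      | some i => exact hk20 i)
    (fun o _ => by
      cases o with
      | none =>
        show (1 : ℝ) * Real.exp (P.e * 0) ≤ 1
        rw [mul_zero, Real.exp_zero, mul_one]
      | some i =>
        show P.al (s + 1) * Real.exp (-(k2 i * (P.e * ((s + 1 : ℕ) : ℝ)))) *
          Real.exp (P.e * k2 i) ≤ P.al s * Real.exp (-(k2 i * (P.e * s)))
        rw [hbe]
        exact mul_le_mul_of_nonneg_right halle (Real.exp_pos _).le)
    (fun o _ => by
      cases o with
      | none =>
        show (1 - P.e) * 1 ≤ (1 : ℝ) * Real.exp (P.e * 0)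
        rw [mul_zero, Real.exp_zero]
        linarith
      | some i =>
        show (1 - P.e) * (P.al s * Real.exp (-(k2 i * (P.e * s)))) ≤
          P.al (s + 1) * Real.exp (-(k2 i * (P.e * ((s + 1 : ℕ) : ℝ)))) *
          Real.exp (P.e * k2 i)
        rw [hbe, ← mul_assoc]
        exact mul_le_mul_of_nonneg_right half (Real.exp_pos _).le)
    (fun o _ => by
      cases o with
      | none =>
        show 4 * P.e / DD n k * 0 ≤ (1 : ℝ) - 1 * Real.exp (P.e * 0)
        rw [mul_zero, mul_zero, Real.exp_zero]
        norm_num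
      | some i =>
        show 4 * P.e / DD n k * Real.exp (-(k1 i * (P.e * s))) ≤
          P.al s * Real.exp (-(k2 i * (P.e * s))) -
          P.al (s + 1) * Real.exp (-(k2 i * (P.e * ((s + 1 : ℕ) : ℝ)))) *
          Real.exp (P.e * k2 i)
        rw [hbe, ← sub_mul, hstep]
        have h1 := mul_le_mul_of_nonneg_left (hk12 i)
          (by positivity : (0 : ℝ) ≤ 4 * P.e / DD n k)
        refine h1.trans (le_of_eq ?_)
        ring)
    (fun o _ o' _ hne => by
      cases o with
      | none =>
        cases o' with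
        | none => exact absurd rfl hne
        | some i' =>
          show (1 + 4 * n * P.e) * (S n k σ.y (T ∪ f i') / DD n k) ≤ k2 i'
          rw [hk2i]
          exact pair_rate g hT (hd1 i') (by have := hd2 i'; omega)
      | some i =>
        cases o' with
        | none =>
          show (1 + 4 * n * P.e) * (S n k σ.y (f i ∪ T) / DD n k) ≤ k2 i
          rw [hk2i, union_comm]
          exact pair_rate g hT (hd1 i) (by have := hd2 i; omega)
        | some i' =>
          show (1 + 4 * n * P.e) * (S n k σ.y (f i ∪ f i') / DD n k) ≤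
            (1 + P.del) * (rr n k 1 + P.d1)
          have hne' : i ≠ i' := fun h => hne (by rw [h])
          have h1 := hf2 i i' hne'
          have h2 := near_two hT (hnea i) (hnea i')
          refine (pair_rate g (hK i) h1 h2).trans ?_
          refine mul_le_mul_of_nonneg_left ?_ (by linarith)
          linarith [rr_anti n k h1])
    (fun I' _ => by
      have h1 := hG_aux (fun o : Option (Fin l) => o.elim 0 k2)
        (fun o o' => o.elim (o'.elim 0 k2) (fun i => o'.elim (k2 i)
          (fun _ => (1 + P.del) * (rr n k 1 + P.d1)))) ((1 + P.del) * (rr n k 1 + P.d1))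
        (mul_nonneg (by linarith) hgam)
        (fun o => by
          cases o with
          | none => exact le_rfl
          | some i => exact hk20 i) rfl (fun _ => rfl) (fun _ => rfl) (fun _ _ => rfl) I'
      refine h1.trans (le_of_eq ?_)
      unfold Par.gl
      ring)
    (fun σ' o => o.elim (σ'.y T) (fun i => wt (k1 i) (k2 i) (P.al (s + 1))
        (P.e * ((s + 1 : ℕ) : ℝ)) σ' (f i)))
    (fun o _ => by
      cases o with
      | none =>
        show up0 n k P.e σ.y T = 0 + 1 * up0 n k P.e σ.y T
        ring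
      | some i => rfl)
    (fun B0 _ hB0 o _ => by
      cases o with
      | none =>
        show up n k P.e σ.y B0 T = 0 + (if B0 = T then 0 else 0) + 1 * up n k P.e σ.y B0 T
        rw [ite_self]
        ring
      | some i =>
        show (if f i ∈ insert B0 σ.C then
            Real.exp (-(k1 i * (if f i = B0 then P.e * s else σ.st (f i)))) else 0) +
          P.al (s + 1) * Real.exp (-(k2 i * (P.e * ((s + 1 : ℕ) : ℝ)))) *
            up n k P.e σ.y B0 (f i) =
          (if f i ∈ σ.C then Real.exp (-(k1 i * σ.st (f i))) else 0) +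
          (if B0 = f i then Real.exp (-(k1 i * (P.e * s))) else 0) +
          P.al (s + 1) * Real.exp (-(k2 i * (P.e * ((s + 1 : ℕ) : ℝ)))) *
            up n k P.e σ.y B0 (f i)
        congr 1
        by_cases h1 : f i = B0
        · rw [if_pos h1, if_pos (by rw [h1]; exact mem_insert_self _ _), if_neg, if_pos h1.symm,
            zero_add]
          rw [h1]
          exact hB0
        · rw [if_neg h1, if_neg (show ¬ B0 = f i from fun h => h1 h.symm), add_zero]
          by_cases h2 : f i ∈ σ.C
          · rw [if_pos h2, if_pos (mem_insert_of_mem h2)]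
          · rw [if_neg h2, if_neg]
            rw [mem_insert, not_or]
            exact ⟨h1, h2⟩)
  simp only [Fintype.prod_option] at key
  have e1 : (fun σ' : Sta n => σ'.y T * ∏ i, wt (rr n k (f i \ T).card)
        ((1 + P.del) * (rr n k (f i \ T).card + P.d1)) (P.al (s + 1))
        (P.e * ((s + 1 : ℕ) : ℝ)) σ' (f i)) =
      fun σ' : Sta n => σ'.y T * ∏ i, wt (k1 i) (k2 i) (P.al (s + 1))
        (P.e * ((s + 1 : ℕ) : ℝ)) σ' (f i) := by
    rw [hk1, hk2]
  have e2 : σ.y T * ∏ i, wt (rr n k (f i \ T).card)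
        ((1 + P.del) * (rr n k (f i \ T).card + P.d1)) (P.al s) (P.e * s) σ (f i) =
      σ.y T * ∏ i, wt (k1 i) (k2 i) (P.al s) (P.e * s) σ (f i) := by
    rw [hk1, hk2]
  rw [e1, e2]
  refine key.trans (le_of_eq ?_)
  congr 1
  show (0 + 1 * σ.y T) * _ = _
  rw [zero_add, one_mul]
  rfl

theorem avg_UU (P : Par n k) (s : ℕ) (hs : s < P.tau) {l : ℕ} (hl : l < P.q) {σ : Sta n}
    (g : Good P σ) :
    Ex k P.e (P.e * s) σ (fun σ' => Real.exp (-(P.gl l * (P.e * ((s + 1 : ℕ) : ℝ)))) *
        P.UU l (s + 1) σ') ≤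
      Real.exp (-(P.gl l * (P.e * s))) * P.UU l s σ := by
  rw [Ex_mul]
  have h1 : Ex k P.e (P.e * s) σ (P.UU l (s + 1)) ≤ Real.exp (P.e * P.gl l) * P.UU l s σ := by
    have h2 : P.UU l (s + 1) = fun σ' => ∑ T ∈ KS n k, ∑ f ∈ tup l (rin n k P.j T),
        σ'.y T * ∏ i, wt (rr n k (f i \ T).card)
          ((1 + P.del) * (rr n k (f i \ T).card + P.d1)) (P.al (s + 1))
          (P.e * ((s + 1 : ℕ) : ℝ)) σ' (f i) := rfl
    rw [h2, Ex_sum]
    unfold Par.UU
    rw [Finset.mul_sum]
    refine Finset.sum_le_sum fun T hT => ?_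
    rw [Ex_sum, Finset.mul_sum]
    exact Finset.sum_le_sum fun f hf => one_f P s hs hl g hT hf
  refine (mul_le_mul_of_nonneg_left h1 (Real.exp_pos _).le).trans (le_of_eq ?_)
  rw [← mul_assoc, ← Real.exp_add]
  congr 2
  push_cast
  ring

end Pool.Agent.H14.KD
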