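import Pool.Agent.H14.KD.AV
import Pool.Agent.H14.KD.AT
import Pool.Agent.H14.KD.AF
import Pool.Agent.H14.KD.AQ
import Pool.Agent.H14.KD.AU

/-!
# [H14 KD AA] average of the potential and a good choice

avg_Phi: Ex is linear (EO). PV, PF are functionals of the weights: Ex_y with PV_congr, PF_congr,
then avg_PV, avg_PF; avg_PT with t = e s, avg_QQ, avg_UU (l < q). WW n > 0, U0 > 0 (divide:
x * QQ / U0 = (1/U0) * (x * QQ), Ex_mul).
good_choice: as in H70/KP/AA. The weights of Ex are pr B >= 0 (B in KS, not in C) and pr0 + (sum over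
C) >= 0 with total 1 (Ex_const). If Phi (s+1) (stay) <= Phi s take stay. Otherwise, if no B in KS \ C
with pr B > 0 has Phi (s+1) (pick B) <= Phi s, then Ex > Phi s: all terms of positive weight are
> Phi s, a contradiction (total weight is 1 > 0). pr B > 0 implies y B > 0 (e > 0, DD > 0).
-/

namespace Pool.Agent.H14.KD

open Finset
open Pool.Agent.H70.KG (KS DD S gf up0 up pr pr0)
open Pool.Agent.H70.KP (Sta Ex E1 Mild sz rr dis nea TS nc tg WW Ex_add Ex_mul Ex_sum Ex_const Ex_y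
  pr_nonneg)

variable {n k : ℕ}

private theorem Ex_div {e t : ℝ} {σ : Sta n} (c : ℝ) (F : Sta n → ℝ) :
    Ex k e t σ (fun σ' => F σ' / c) = Ex k e t σ F / c := by
  have h1 : (fun σ' : Sta n => F σ' / c) = fun σ' => c⁻¹ * F σ' := by
    funext σ'
    rw [div_eq_inv_mul]
  rw [h1, Ex_mul, div_eq_inv_mul]

theorem avg_Phi (P : Par n k) (s : ℕ) (hs : s < P.tau) {σ : Sta n} (g : Good P σ) :
    Ex k P.e (P.e * s) σ (P.Phi (s + 1)) ≤ P.Phi s σ := by
  have hW := P.WW_pos.le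
  have hPhi : P.Phi (s + 1) = fun σ' : Sta n =>
      (fun σ' : Sta n => P.PV (s + 1) σ'.y) σ' + P.PT (s + 1) σ' +
        (fun σ' : Sta n => P.PF (s + 1) σ'.y) σ' +
      WW n * (fun σ' : Sta n => (fun σ' : Sta n => Real.exp (-(P.gl P.q *
        (P.e * ((s + 1 : ℕ) : ℝ)))) * P.QQ (s + 1) σ') σ' / P.U0 P.q) σ' +
      WW n * (fun σ' : Sta n => ∑ l ∈ Ico 1 P.q,
        (fun (l : ℕ) (σ' : Sta n) => (fun σ' : Sta n => Real.exp (-(P.gl l *
          (P.e * ((s + 1 : ℕ) : ℝ)))) * P.UU l (s + 1) σ') σ' / P.U0 l) l σ') σ' := rfl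
  rw [hPhi, Ex_add, Ex_add, Ex_add, Ex_add, Ex_mul, Ex_mul, Ex_sum, Ex_div]
  have h1 : Ex k P.e (P.e * s) σ (fun σ' : Sta n => P.PV (s + 1) σ'.y) ≤ P.PV s σ.y := by
    rw [Ex_y g.dead (fun y y' hy => PV_congr P (s + 1) hy)]
    exact avg_PV P s g
  have h2 : Ex k P.e (P.e * s) σ (fun σ' : Sta n => P.PT (s + 1) σ') ≤ P.PT s σ :=
    avg_PT P s (P.e * s) g
  have h3 : Ex k P.e (P.e * s) σ (fun σ' : Sta n => P.PF (s + 1) σ'.y) ≤ P.PF s σ.y := by
    rw [Ex_y g.dead (fun y y' hy => PF_congr P (s + 1) hy)]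
    exact avg_PF P s g
  have h4 : Ex k P.e (P.e * s) σ (fun σ' : Sta n => Real.exp (-(P.gl P.q *
      (P.e * ((s + 1 : ℕ) : ℝ)))) * P.QQ (s + 1) σ') / P.U0 P.q ≤
      Real.exp (-(P.gl P.q * (P.e * s))) * P.QQ s σ / P.U0 P.q :=
    div_le_div_of_nonneg_right (avg_QQ P s hs g) (P.U0_pos P.q).le
  have h5 : ∑ l ∈ Ico 1 P.q, Ex k P.e (P.e * s) σ
      (fun σ' : Sta n => (fun σ' : Sta n => Real.exp (-(P.gl l *
          (P.e * ((s + 1 : ℕ) : ℝ)))) * P.UU l (s + 1) σ') σ' / P.U0 l) ≤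
      ∑ l ∈ Ico 1 P.q, Real.exp (-(P.gl l * (P.e * s))) * P.UU l s σ / P.U0 l := by
    refine sum_le_sum fun l hl => ?_
    rw [Ex_div]
    exact div_le_div_of_nonneg_right (avg_UU P s hs (mem_Ico.mp hl).2 g) (P.U0_pos l).le
  unfold Par.Phi
  exact add_le_add (add_le_add (add_le_add (add_le_add h1 h2) h3)
    (mul_le_mul_of_nonneg_left h4 hW)) (mul_le_mul_of_nonneg_left h5 hW)

theorem good_choice (P : Par n k) (s : ℕ) (hs : s < P.tau) {σ : Sta n} (g : Good P σ) :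
    P.Phi (s + 1) (σ.stay k P.e) ≤ P.Phi s σ ∨
      ∃ B ∈ KS n k, B ∉ σ.C ∧ 0 < σ.y B ∧
        P.Phi (s + 1) (σ.pick k P.e (P.e * s) B) ≤ P.Phi s σ := by
  by_contra hcon
  push Not at hcon
  obtain ⟨hst, hpk⟩ := hcon
  have hD := P.D_pos
  have he := P.e0
  have havg := avg_Phi P s hs g
  have hone := Ex_const (n := n) (k := k) (e := P.e) (t := P.e * s) σ 1
  have hcst := Ex_const (n := n) (k := k) (e := P.e) (t := P.e * s) σ (P.Phi s σ)
  unfold Pool.Agent.H70.KP.Ex at havg hone hcst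
  set p := fun B => pr n k P.e σ.y B with hp
  set q := pr0 n k P.e σ.y + ∑ B ∈ (KS n k).filter (fun B => B ∈ σ.C), pr n k P.e σ.y B with hq
  have hq0 : 0 ≤ q := add_nonneg g.mild.p0 (sum_nonneg fun B hB =>
    pr_nonneg g.mild (mem_filter.mp hB).1)
  have hypos : ∀ B, 0 < pr n k P.e σ.y B → 0 < σ.y B := by
    intro B hB
    unfold Pool.Agent.H70.KG.pr at hB
    by_contra h
    push Not at h
    have h1 : P.e * σ.y B / DD n k ≤ 0 :=
      div_nonpos_of_nonpos_of_nonneg (mul_nonpos_of_nonneg_of_nonpos he.le h) hD.le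
    linarith
  have hterm : ∀ B ∈ (KS n k).filter (fun B => B ∉ σ.C),
      pr n k P.e σ.y B * P.Phi s σ ≤
        pr n k P.e σ.y B * P.Phi (s + 1) (σ.pick k P.e (P.e * s) B) := by
    intro B hB
    obtain ⟨hB1, hB2⟩ := mem_filter.mp hB
    rcases (pr_nonneg g.mild hB1).eq_or_lt with h1 | h1
    · rw [← h1, zero_mul, zero_mul]
    · exact mul_le_mul_of_nonneg_left (hpk B hB1 hB2 (hypos B h1)).le h1.le
  by_cases hex : ∃ B ∈ (KS n k).filter (fun B => B ∉ σ.C), 0 < pr n k P.e σ.y B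
  · obtain ⟨B, hB, hB0⟩ := hex
    obtain ⟨hB1, hB2⟩ := mem_filter.mp hB
    have h1 : ∑ B ∈ (KS n k).filter (fun B => B ∉ σ.C), pr n k P.e σ.y B * P.Phi s σ <
        ∑ B ∈ (KS n k).filter (fun B => B ∉ σ.C),
          pr n k P.e σ.y B * P.Phi (s + 1) (σ.pick k P.e (P.e * s) B) :=
      sum_lt_sum hterm ⟨B, hB, mul_lt_mul_of_pos_left (hpk B hB1 hB2 (hypos B hB0)) hB0⟩
    have h2 : q * P.Phi s σ ≤ q * P.Phi (s + 1) (σ.stay k P.e) :=
      mul_le_mul_of_nonneg_left hst.le hq0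
    linarith
  · push Not at hex
    have h1 : ∑ B ∈ (KS n k).filter (fun B => B ∉ σ.C), pr n k P.e σ.y B * 1 = 0 := by
      refine sum_eq_zero fun B hB => ?_
      have h2 := hex B hB
      have h3 := pr_nonneg g.mild (mem_filter.mp hB).1
      have h4 : pr n k P.e σ.y B = 0 := le_antisymm h2 h3
      rw [h4, zero_mul]
    have h2 : q = 1 := by
      rw [h1] at hone
      linarith
    have h3 := sum_le_sum hterm
    have h4 : q * P.Phi s σ < q * P.Phi (s + 1) (σ.stay k P.e) := by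
      rw [h2]
      linarith
    linarith

end Pool.Agent.H14.KD
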