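import Pool.Agent.H14.KD.PB
import Pool.Agent.H70.KP.TV

/-!
# [H14 KD AV] average of the upper exponential terms

For V in Vc: S V <= sz + d1 D <= 2 D (Good.upp, sz_anti with k <= V.card, d1 <= 1), far and near from
Good. H70.KP.term_V with sV := DD n k, rate a1 (h8 = P.a1e) gives E1 of exp (a1/D (S - D)) <=
exp (a1/D (S - D) + e c), c = a1^2 (64 e + 8 rho). Multiply by the constant exp (a1/D (D - sz)) and by
exp (- c (e (s+1))) (E1_mul after splitting the exponential) and sum over V (E1_sum).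
-/

namespace Pool.Agent.H14.KD

open Finset
open Pool.Agent.H70.KG (KS DD S gf up0 up pr pr0)
open Pool.Agent.H70.KP (Sta Ex E1 Mild sz rr dis nea TS nc tg WW E1_sum E1_mul term_V sz_anti sz_k)

variable {n k : ℕ}

theorem avg_PV (P : Par n k) (s : ℕ) {σ : Sta n} (g : Good P σ) :
    E1 n k P.e σ.y (P.PV (s + 1)) ≤ P.PV s σ.y := by
  have hD := P.D_pos
  have h1 : P.PV (s + 1) = fun y' => ∑ V ∈ P.Vc,
      Real.exp (P.a1 / DD n k * (DD n k - sz n k V.card) -
        P.c * (P.e * ((s + 1 : ℕ) : ℝ))) *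
        Real.exp (P.a1 / DD n k * (S n k y' V - DD n k)) := by
    funext y'
    unfold Par.PV
    refine sum_congr rfl fun V _ => ?_
    rw [← Real.exp_add]
    congr 1
    ring
  rw [h1, E1_sum]
  unfold Par.PV
  refine sum_le_sum fun V hV => ?_
  obtain ⟨hV1, hV2⟩ := (mem_filter.mp hV).2
  rw [E1_mul]
  have hupp := g.upp V hV1 hV2
  have h2 : S n k σ.y V ≤ 2 * DD n k := by
    have h3 : sz n k V.card ≤ DD n k := by
      rw [← sz_k]
      exact sz_anti hV1
    have h4 : P.d1 * DD n k ≤ 1 * DD n k :=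
      mul_le_mul_of_nonneg_right (by linarith [P.d1le, P.del1]) hD.le
    linarith
  have key := term_V (j := P.j) (rho := P.rho) (a1 := P.a1) g.mild V hD h2 P.rho0.le
    (fun B _ hB => g.far V B hV1 hV2 hB) (g.near V hV1 hV2) (by linarith [P.a_one, P.a_le])
    P.a1e
  refine (mul_le_mul_of_nonneg_left key (Real.exp_pos _).le).trans (le_of_eq ?_)
  rw [← Real.exp_add]
  congr 1
  unfold Par.c
  push_cast
  ring

end Pool.Agent.H14.KD
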