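import Pool.Agent.H70.KP.Defs

/-!
# [H14 KD] i(n,k) up to a polynomial factor, dense range n/3 <= k <= n/2 (MP_3036ab_co): definitions

The process is the one of H70/KP (states `Sta`, expectation `Ex`). Differences to H70/KP: the
errors in the upper exponential terms are additive (scale `D` for all `V`), the target of
`S T / D` is `1 - ` (sum over ALL near chosen sets of `r_d`), pairs are replaced by tuples of
distinct sets in a ball, and a set may be near several chosen sets.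
Text of the proof: proofs id 376.
-/

namespace Pool.Agent.H14.KD

open Finset
open Pool.Agent.H70.KG (KS DD S gf up0 up pr pr0)
open Pool.Agent.H70.KP (Sta Ex E1 Mild sz rr dis nea TS nc tg WW)

/-- The `l`-tuples of pairwise different members of `F` (k-sets). -/
def tup {n : ℕ} (l : ℕ) (F : Finset (Finset (Fin n))) : Finset (Fin l → Finset (Fin n)) :=
  (Fintype.piFinset (fun _ : Fin l => F)).filter (fun f => ∀ i i', i ≠ i' → 1 ≤ (f i' \ f i).card)

/-- Mixed weight of a set `B`: discounted indicator of `B ∈ C` plus `al * y B`, discounted. -/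
noncomputable def wt {n : ℕ} (k1 k2 al t : ℝ) (σ : Sta n) (B : Finset (Fin n)) : ℝ :=
  (if B ∈ σ.C then Real.exp (-(k1 * σ.st B)) else 0) + al * Real.exp (-(k2 * t)) * σ.y B

/-- The ball around `T` without `T`. -/
def rin (n k j : ℕ) (T : Finset (Fin n)) : Finset (Finset (Fin n)) :=
  (KS n k).filter (fun B => 1 ≤ (B \ T).card ∧ (B \ T).card < j)

/-- All parameters of the process and the numerical hypotheses on them. -/
structure Par (n k : ℕ) where
  j : ℕ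
  q : ℕ
  tau : ℕ
  del : ℝ
  d1 : ℝ
  a : ℝ
  a1 : ℝ
  rho : ℝ
  e : ℝ
  nu : ℝ
  hn : 16 ≤ n
  hk : 1 ≤ k
  hj : 1 ≤ j
  hjk : 2 * j ≤ k
  hsz : 2 * k ≤ n
  htau : 1 ≤ tau
  hq : 2 ≤ q
  hqn : q + 1 ≤ n
  del0 : 0 < del
  del1 : del ≤ 1 / 2
  d10 : 0 < d1
  d1le : 2 * d1 ≤ del
  e0 : 0 < e
  e2 : 16 * n * e ≤ del
  eN : 2 * (e * (n.choose k : ℝ)) ≤ DD n k
  rho0 : 0 < rho
  rho1 : rho ≤ 1
  nu0 : 0 < nu
  aa : a * del = 3 * n
  aa1 : a1 * d1 = 3 * n
  ad : a * d1 ≤ 1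
  arho : a * rho ≤ 1
  a1e : 8 * a1 * e ≤ 1
  cc : a1 ^ 2 * (64 * e + 8 * rho) * (e * tau) ≤ n
  c4 : (n : ℝ) ^ 2 * rho * (e * tau) ≤ 1 / 2
  dtau : 3 * del * (e * tau) ≤ 1 / 16
  H1 : n * nu + 5 * sz n k (k + j) ≤ rho * DD n k
  H2 : n * nu + 5 * (n : ℝ) ^ (4 * j) ≤ rho * DD n k
  H3 : 2 * q * Real.exp ((1 + 2 * del) * (e * tau)) ≤ nu
  HQ : 8 * n * ((n.choose k : ℝ) * (n : ℝ) ^ (4 * j * q) * (8 * (e * tau + 1) / DD n k) ^ q) *
    Real.exp ((1 + del) * ((q : ℝ) * (q - 1) / 2) * (rr n k 1 + d1) * (e * tau)) <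
      (4 * nu / DD n k) ^ q

variable {n k : ℕ}

/-- The rate of the compensation of the exponential terms. -/
noncomputable def Par.c (P : Par n k) : ℝ := P.a1 ^ 2 * (64 * P.e + 8 * P.rho)

/-- Growth rate of the sums over `l`-tuples. -/
noncomputable def Par.gl (P : Par n k) (l : ℕ) : ℝ :=
  (1 + P.del) * ((l : ℝ) * (l - 1) / 2) * (rr n k 1 + P.d1)

/-- The coefficient `8 (Tf + 1 - e s) / D`. -/
noncomputable def Par.al (P : Par n k) (s : ℕ) : ℝ :=
  8 * (P.e * P.tau + 1 - P.e * s) / DD n k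

/-- The normalisation of the sums over `l`-tuples. -/
noncomputable def Par.U0 (P : Par n k) (l : ℕ) : ℝ :=
  (n.choose k : ℝ) * (n : ℝ) ^ (4 * P.j * l) * (8 * (P.e * P.tau + 1) / DD n k) ^ l

/-- The sets `V` whose sums are controlled from above. -/
def Par.Vc (P : Par n k) : Finset (Finset (Fin n)) :=
  univ.filter (fun V => k ≤ V.card ∧ V.card < k + 2 * P.j)

/-- The sets `V` such that the tuples of sets disjoint from `V` are controlled. -/
def Par.Vd (P : Par n k) : Finset (Finset (Fin n)) :=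
  univ.filter (fun V => k + P.j ≤ V.card)

/-- Upper exponential terms. -/
noncomputable def Par.PV (P : Par n k) (s : ℕ) (y : Finset (Fin n) → ℝ) : ℝ :=
  ∑ V ∈ P.Vc, Real.exp (P.a1 / DD n k * (S n k y V - sz n k V.card) - P.c * (P.e * s))

/-- Lower exponential terms. -/
noncomputable def Par.PT (P : Par n k) (s : ℕ) (σ : Sta n) : ℝ :=
  ∑ T ∈ KS n k,
    Real.exp (-(P.a / DD n k) * (S n k σ.y T - tg k P.j σ.C T * DD n k) - P.c * (P.e * s))

/-- Sums over tuples of far sets. -/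
noncomputable def Par.PF (P : Par n k) (s : ℕ) (y : Finset (Fin n) → ℝ) : ℝ :=
  Real.exp (-((n : ℝ) ^ 2 * P.rho * (P.e * s))) *
    (∑ V ∈ P.Vd, TS P.j n y (dis n k V) / ((dis n k V).card : ℝ) ^ n +
      ∑ V ∈ P.Vc, TS P.j n y (nea n k P.j V) / ((nea n k P.j V).card : ℝ) ^ n)

/-- Sum over the `q`-tuples of different sets in a ball of the products of the mixed weights
(no discount). -/
noncomputable def Par.QQ (P : Par n k) (s : ℕ) (σ : Sta n) : ℝ :=
  ∑ T ∈ KS n k, ∑ f ∈ tup P.q (nea n k P.j T),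
    ∏ i, wt 0 0 (P.al s) (P.e * s) σ (f i)

/-- Sum over `T` and the `l`-tuples of different sets in the ball around `T` (without `T`) of `y T`
times the product of the discounted mixed weights. -/
noncomputable def Par.UU (P : Par n k) (l s : ℕ) (σ : Sta n) : ℝ :=
  ∑ T ∈ KS n k, ∑ f ∈ tup l (rin n k P.j T),
    σ.y T * ∏ i, wt (rr n k (f i \ T).card) ((1 + P.del) * (rr n k (f i \ T).card + P.d1))
      (P.al s) (P.e * s) σ (f i)

/-- The potential. -/
noncomputable def Par.Phi (P : Par n k) (s : ℕ) (σ : Sta n) : ℝ :=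
  P.PV s σ.y + P.PT s σ + P.PF s σ.y +
    WW n * (Real.exp (-(P.gl P.q * (P.e * s))) * P.QQ s σ / P.U0 P.q) +
    WW n * (∑ l ∈ Ico 1 P.q, Real.exp (-(P.gl l * (P.e * s))) * P.UU l s σ / P.U0 l)

/-- Derived facts at one time. -/
structure Good (P : Par n k) (σ : Sta n) : Prop where
  mild : Mild n k P.e σ.y
  dead : ∀ A ∈ KS n k, (∃ B ∈ σ.C, Disjoint A B) → σ.y A = 0
  sub : σ.C ⊆ KS n k
  upp : ∀ V : Finset (Fin n), k ≤ V.card → V.card < k + 2 * P.j →
    S n k σ.y V ≤ sz n k V.card + P.d1 * DD n k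
  far : ∀ V B : Finset (Fin n), k ≤ V.card → V.card < k + 2 * P.j → P.j ≤ (B \ V).card →
    S n k σ.y (V ∪ B) ≤ P.rho * DD n k
  near : ∀ V : Finset (Fin n), k ≤ V.card → V.card < k + 2 * P.j →
    ∑ B ∈ (KS n k).filter (fun B => (B \ V).card < P.j), σ.y B ≤ P.rho * DD n k

/-- The part of the invariants from which everything else is derived. -/
structure Base (P : Par n k) (s : ℕ) (σ : Sta n) : Prop where
  hs : s ≤ P.tau
  nonneg : ∀ A ∈ KS n k, 0 ≤ σ.y A
  dead : ∀ A ∈ KS n k, (∃ B ∈ σ.C, Disjoint A B) → σ.y A = 0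
  sub : σ.C ⊆ KS n k
  ymax : ∀ A ∈ KS n k, σ.y A ≤ Real.exp ((1 + 2 * P.del) * (P.e * s))
  phi : P.Phi s σ ≤ 4 ^ n

/-- The invariants after `s` steps. -/
structure Inv (P : Par n k) (s : ℕ) (σ : Sta n) : Prop where
  nonneg : ∀ A ∈ KS n k, 0 ≤ σ.y A
  dead : ∀ A ∈ KS n k, (∃ B ∈ σ.C, Disjoint A B) → σ.y A = 0
  sub : σ.C ⊆ KS n k
  int : Pool.Agent.H31.Kn.IsInt n k σ.C
  card : σ.C.card ≤ s
  ymax : ∀ A ∈ KS n k, σ.y A ≤ Real.exp ((1 + 2 * P.del) * (P.e * s))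
  low : ∀ T ∈ KS n k, (∀ B ∈ σ.C, ¬ Disjoint T B) →
    Real.exp ((1 - P.del) * (P.e * s) -
      ∑ B ∈ nc P.j σ.C T, rr n k (B \ T).card * (P.e * s - σ.st B)) ≤ σ.y T
  phi : P.Phi s σ ≤ 4 ^ n

end Pool.Agent.H14.KD
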