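import Pool.Agent.H14.KD.RO
import Pool.Agent.H70.KG.SB
import Pool.Agent.H70.KP.NV
import Pool.Agent.H70.KP.TR

/-!
# [H14 KD IZ] the invariants at time 0

y = 1, C empty, st = 0, s = 0. S 1 V = sz V.card (KG.S_one), so each term of PV is exp 0 = 1, at most
2^n terms. nc is empty, tg = 1, S 1 T = DD: each term of PT is 1, at most 2^n terms.
TS <= F.card^n (TS_one_le), quotients <= 1: PF <= 2 * 2^n. wt k1 k2 (al 0) 0 = al 0 =
8 (e tau + 1)/D; (nea j T).card <= n^(4 j) (H70.KP.nea_card, T.card = k, hj) and rin is contained in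
nea, so tup l has at most n^(4 j l) elements: QQ 0 <= U0 q, UU l 0 <= U0 l. The last two parts are
at most WW + (q - 1) WW = q 4^n / (8 n) <= 4^n / 8. Total <= 4 * 2^n + 4^n/8 <= 4^n for n >= 16.
The other invariants: y = 1 <= exp 0; low: nc is empty, exp 0 <= 1; C is empty.
-/

namespace Pool.Agent.H14.KD

open Finset
open Pool.Agent.H70.KG (KS DD S gf up0 up pr pr0)
open Pool.Agent.H70.KP (Sta Ex E1 Mild sz rr dis nea TS nc tg WW mem_KS card_KS TS_one_le nea_card)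

variable {n k : ℕ}

private theorem card_univ_le (P : Finset (Fin n) → Prop) [DecidablePred P] :
    (((univ : Finset (Finset (Fin n))).filter P).card : ℝ) ≤ 2 ^ n := by
  have h1 := card_filter_le (univ : Finset (Finset (Fin n))) P
  rw [card_univ, Fintype.card_finset, Fintype.card_fin] at h1
  exact_mod_cast h1

private theorem pv_zero (P : Par n k) : P.PV 0 (fun _ => 1) ≤ 2 ^ n := by
  unfold Par.PV
  have h1 : ∀ V ∈ P.Vc, Real.exp (P.a1 / DD n k *
      (S n k (fun _ => 1) V - sz n k V.card) - P.c * (P.e * ((0 : ℕ) : ℝ))) = 1 := by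
    intro V _
    rw [Pool.Agent.H70.KG.S_one]
    have : ((n - V.card).choose k : ℝ) - sz n k V.card = 0 := sub_self _
    rw [this]
    simp
  rw [sum_congr rfl h1, sum_const, nsmul_eq_mul, mul_one]
  exact card_univ_le _

private theorem pt_zero (P : Par n k) :
    P.PT 0 (⟨fun _ => 1, ∅, fun _ => 0⟩ : Sta n) ≤ 2 ^ n := by
  unfold Par.PT
  have h1 : ∀ T ∈ KS n k,
      Real.exp (-(P.a / DD n k) * (S n k (fun _ => 1) T -
        tg k P.j (∅ : Finset (Finset (Fin n))) T * DD n k) -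
        P.c * (P.e * ((0 : ℕ) : ℝ))) = 1 := by
    intro T hT
    have hTc : T.card = k := mem_KS.mp hT
    have htg : tg k P.j (∅ : Finset (Finset (Fin n))) T = 1 := by
      unfold Pool.Agent.H70.KP.tg Pool.Agent.H70.KP.nc
      simp
    rw [Pool.Agent.H70.KG.S_one, htg, hTc, one_mul]
    have : ((n - k).choose k : ℝ) - DD n k = 0 := sub_self _
    rw [this]
    simp
  have h2 : ∑ T ∈ KS n k,
      Real.exp (-(P.a / DD n k) * (S n k (fun _ => 1) T -
        tg k P.j (∅ : Finset (Finset (Fin n))) T * DD n k) -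
        P.c * (P.e * ((0 : ℕ) : ℝ))) ≤ 2 ^ n := by
    rw [sum_congr rfl h1, sum_const, nsmul_eq_mul, mul_one]
    have h3 := card_le_univ (KS n k)
    rw [Fintype.card_finset, Fintype.card_fin] at h3
    exact_mod_cast h3
  exact h2

private theorem pf_zero (P : Par n k) : P.PF 0 (fun _ => 1) ≤ 2 ^ n + 2 ^ n := by
  unfold Par.PF
  have h0 : Real.exp (-((n : ℝ) ^ 2 * P.rho * (P.e * ((0 : ℕ) : ℝ)))) = 1 := by simp
  rw [h0, one_mul]
  have h1 : ∀ F : Finset (Finset (Fin n)),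
      TS P.j n (fun _ => 1) F / (F.card : ℝ) ^ n ≤ 1 := fun F =>
    div_le_one_of_le₀ (TS_one_le F P.j n) (pow_nonneg (Nat.cast_nonneg _) _)
  refine add_le_add ?_ ?_
  · refine (sum_le_sum fun V _ => h1 (dis n k V)).trans ?_
    rw [sum_const, nsmul_eq_mul, mul_one]
    exact card_univ_le _
  · refine (sum_le_sum fun V _ => h1 (nea n k P.j V)).trans ?_
    rw [sum_const, nsmul_eq_mul, mul_one]
    exact card_univ_le _

private theorem wt_zero (P : Par n k) (k1 k2 : ℝ) (B : Finset (Fin n)) :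
    wt k1 k2 (P.al 0) (P.e * ((0 : ℕ) : ℝ)) (⟨fun _ => 1, ∅, fun _ => 0⟩ : Sta n) B =
      8 * (P.e * P.tau + 1) / DD n k := by
  unfold wt Par.al
  simp

private theorem tup_card {l : ℕ} (F : Finset (Finset (Fin n))) :
    (tup l F).card ≤ F.card ^ l := by
  refine (card_filter_le _ _).trans (le_of_eq ?_)
  rw [Fintype.card_piFinset, prod_const, card_univ, Fintype.card_fin]

private theorem nea_le (P : Par n k) {T : Finset (Fin n)} (hT : T ∈ KS n k) :
    (nea n k P.j T).card ≤ n ^ (4 * P.j) := by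
  have hTc : T.card = k := mem_KS.mp hT
  have hn := P.hn
  have hj := P.hj
  exact nea_card (by omega) (by omega) (by omega)

private theorem al_nonneg (P : Par n k) : 0 ≤ 8 * (P.e * P.tau + 1) / DD n k := by
  have h1 := P.D_pos
  have h2 := P.e0
  positivity

private theorem sum_tup_le (P : Par n k) (l : ℕ) (R : Finset (Fin n) → Finset (Finset (Fin n)))
    (hR : ∀ T ∈ KS n k, (R T).card ≤ n ^ (4 * P.j)) :
    ∑ T ∈ KS n k, ∑ _f ∈ tup l (R T), (8 * (P.e * P.tau + 1) / DD n k) ^ l ≤ P.U0 l := by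
  have h0 := al_nonneg P
  have h1 : ∀ T ∈ KS n k, ∑ _f ∈ tup l (R T), (8 * (P.e * P.tau + 1) / DD n k) ^ l ≤
      (n : ℝ) ^ (4 * P.j * l) * (8 * (P.e * P.tau + 1) / DD n k) ^ l := by
    intro T hT
    rw [sum_const, nsmul_eq_mul]
    refine mul_le_mul_of_nonneg_right ?_ (pow_nonneg h0 l)
    have h2 : (tup l (R T)).card ≤ n ^ (4 * P.j * l) := by
      refine (tup_card (R T)).trans ?_
      rw [pow_mul]
      exact Nat.pow_le_pow_left (hR T hT) l
    exact_mod_cast h2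
  refine (sum_le_sum h1).trans (le_of_eq ?_)
  rw [sum_const, nsmul_eq_mul, card_KS]
  unfold Par.U0
  ring

private theorem qq_zero (P : Par n k) :
    P.QQ 0 (⟨fun _ => 1, ∅, fun _ => 0⟩ : Sta n) ≤ P.U0 P.q := by
  have h1 : P.QQ 0 (⟨fun _ => 1, ∅, fun _ => 0⟩ : Sta n) =
      ∑ T ∈ KS n k, ∑ _f ∈ tup P.q (nea n k P.j T),
        (8 * (P.e * P.tau + 1) / DD n k) ^ P.q := by
    unfold Par.QQ
    refine sum_congr rfl fun T _ => sum_congr rfl fun f _ => ?_
    rw [prod_congr rfl fun i _ => wt_zero P 0 0 (f i), prod_const, card_univ, Fintype.card_fin]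
  rw [h1]
  exact sum_tup_le P P.q (fun T => nea n k P.j T) fun T hT => nea_le P hT

private theorem uu_zero (P : Par n k) (l : ℕ) :
    P.UU l 0 (⟨fun _ => 1, ∅, fun _ => 0⟩ : Sta n) ≤ P.U0 l := by
  have h1 : P.UU l 0 (⟨fun _ => 1, ∅, fun _ => 0⟩ : Sta n) =
      ∑ T ∈ KS n k, ∑ _f ∈ tup l (rin n k P.j T),
        (8 * (P.e * P.tau + 1) / DD n k) ^ l := by
    unfold Par.UU
    refine sum_congr rfl fun T _ => sum_congr rfl fun f _ => ?_
    rw [one_mul, prod_congr rfl fun i _ => wt_zero P _ _ (f i), prod_const, card_univ,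
      Fintype.card_fin]
  rw [h1]
  refine sum_tup_le P l (fun T => rin n k P.j T) fun T hT => ?_
  refine (card_le_card ?_).trans (nea_le P hT)
  intro B hB
  obtain ⟨h2, h3⟩ := mem_filter.1 hB
  exact mem_filter.2 ⟨h2, h3.2⟩

private theorem two_pow (m : ℕ) (h : 3 ≤ m) : (8 : ℝ) ≤ 2 ^ m := by
  calc (8 : ℝ) = 2 ^ 3 := by norm_num
    _ ≤ 2 ^ m := pow_le_pow_right₀ (by norm_num) h

theorem phi_zero (P : Par n k) : P.Phi 0 (⟨fun _ => 1, ∅, fun _ => 0⟩ : Sta n) ≤ 4 ^ n := by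
  have hW := P.WW_pos.le
  have hn := P.n_pos
  have h1 := pv_zero P
  have h2 := pt_zero P
  have h3 := pf_zero P
  have hexp : ∀ x : ℝ, Real.exp (-(x * (P.e * ((0 : ℕ) : ℝ)))) = 1 := by
    intro x
    simp
  have h4 : Real.exp (-(P.gl P.q * (P.e * ((0 : ℕ) : ℝ)))) *
      P.QQ 0 (⟨fun _ => 1, ∅, fun _ => 0⟩ : Sta n) / P.U0 P.q ≤ 1 := by
    rw [hexp, one_mul]
    exact (div_le_one (P.U0_pos _)).mpr (qq_zero P)
  have h5 : ∑ l ∈ Ico 1 P.q, Real.exp (-(P.gl l * (P.e * ((0 : ℕ) : ℝ)))) *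
      P.UU l 0 (⟨fun _ => 1, ∅, fun _ => 0⟩ : Sta n) / P.U0 l ≤ P.q - 1 := by
    have h6 : ∀ l ∈ Ico 1 P.q, Real.exp (-(P.gl l * (P.e * ((0 : ℕ) : ℝ)))) *
        P.UU l 0 (⟨fun _ => 1, ∅, fun _ => 0⟩ : Sta n) / P.U0 l ≤ 1 := by
      intro l _
      rw [hexp, one_mul]
      exact (div_le_one (P.U0_pos _)).mpr (uu_zero P l)
    refine (sum_le_sum h6).trans ?_
    rw [sum_const, nsmul_eq_mul, mul_one, Nat.card_Ico, Nat.cast_sub (by have := P.hq; omega)]
    simp
  have h7 : (P.q : ℝ) ≤ n := by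
    have h8 := P.hqn
    exact_mod_cast (by omega : P.q ≤ n)
  have h8 : WW n * P.q ≤ 4 ^ n / 8 := by
    refine (mul_le_mul_of_nonneg_left h7 hW).trans (le_of_eq ?_)
    unfold Pool.Agent.H70.KP.WW
    field_simp
  have h9 : (4 : ℝ) ^ n = 2 ^ n * 2 ^ n := by
    rw [← mul_pow]
    norm_num
  have h10 := two_pow n (by have := P.hn; omega)
  have h11 : (0 : ℝ) < 2 ^ n := by positivity
  have h12 : 4 * (2 : ℝ) ^ n ≤ 4 ^ n / 2 := by
    rw [h9]
    nlinarith
  have h13 : P.Phi 0 (⟨fun _ => 1, ∅, fun _ => 0⟩ : Sta n) ≤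
      2 ^ n + 2 ^ n + (2 ^ n + 2 ^ n) + WW n * 1 + WW n * (P.q - 1) := by
    unfold Par.Phi
    exact add_le_add (add_le_add (add_le_add (add_le_add h1 h2) h3)
      (mul_le_mul_of_nonneg_left h4 hW)) (mul_le_mul_of_nonneg_left h5 hW)
  have h14 : (0 : ℝ) < 4 ^ n := by positivity
  nlinarith

theorem inv_zero (P : Par n k) : Inv P 0 (⟨fun _ => 1, ∅, fun _ => 0⟩ : Sta n) := by
  refine ⟨fun _ _ => zero_le_one, ?_, empty_subset _, ⟨?_, ?_⟩, ?_, ?_, ?_, phi_zero P⟩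
  · rintro A _ ⟨B, hB, _⟩
    exact absurd hB (notMem_empty B)
  · intro A hA
    exact absurd hA (notMem_empty A)
  · intro A hA
    exact absurd hA (notMem_empty A)
  · exact le_of_eq card_empty
  · intro A _
    simp
  · intro T _ _
    have hnc : nc P.j (∅ : Finset (Finset (Fin n))) T = ∅ := by
      unfold Pool.Agent.H70.KP.nc
      simp
    show Real.exp ((1 - P.del) * (P.e * ((0 : ℕ) : ℝ)) -
      ∑ B ∈ nc P.j (∅ : Finset (Finset (Fin n))) T,
        rr n k (B \ T).card * (P.e * ((0 : ℕ) : ℝ) - 0)) ≤ 1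
    rw [hnc]
    simp

end Pool.Agent.H14.KD
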