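import Pool.Agent.H14.KD.IS
import Pool.Agent.H14.KD.IZ

/-!
# [H14 KD FN] the maximal family is small

Take s = tau (induction from inv_zero with inv_step). C is intersecting; let F be a maximal
intersecting family containing C (Set.Finite.exists_le_maximal, see H70/KG/FI.lean). Every T in F is in
KS and meets all members of C. Parts of F:
(1) T in C: at most tau (card).
(2) T not in C with (nc j C T).card = l >= 1: l < q by nc_lt. All B in nc have (B \ T).card >= 1
(eq_of_sd, T not in C), so rr <= rr 1. Take an enumeration f : Fin l -> nc j C T (injective, onto). f is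
in tup l (rin j T). By low: y T >= exp ((1 - del) Tf - sum rr_i (Tf - st_i)), Tf = e tau,
rr_i = rr (f i \ T).card, so
y T * prod_i exp (-(rr_i st_i)) >= exp ((1 - del) Tf - sum rr_i Tf) >= exp ((1 - del - l rr 1) Tf),
and each wt is >= its first part exp (-(rr_i st_i)). So the summand of (T, f) in UU l tau is
>= exp ((1 - del - l rr 1) Tf) and the number of such T is at most exp (-((1 - del - l rr 1) Tf)) *
UU l tau <= ... read_U.
(3) T with nc empty: low: y T >= exp ((1 - del) Tf); the sum of all weights is <= (1 + d1) C(n,k) <=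
2 C(n,k) (total).
-/

namespace Pool.Agent.H14.KD

open Finset
open Pool.Agent.H70.KG (KS DD S gf up0 up pr pr0)
open Pool.Agent.H70.KP (Sta Ex E1 Mild sz rr dis nea TS nc tg WW)

variable {n k : ℕ}

open Pool.Agent.H70.KP (mem_KS eq_of_sd)

private theorem inv_all (P : Par n k) (s : ℕ) (hs : s ≤ P.tau) : ∃ σ : Sta n, Inv P s σ := by
  induction s with
  | zero => exact ⟨_, inv_zero P⟩
  | succ s ih =>
    obtain ⟨σ, h⟩ := ih (by omega)
    exact inv_step (by omega) h

private theorem exists_ge {C : Finset (Finset (Fin n))}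
    (hC : Pool.Agent.H31.Kn.IsInt n k C) :
    ∃ F : Finset (Finset (Fin n)), C ⊆ F ∧ Maximal (Pool.Agent.H31.Kn.IsInt n k) F := by
  obtain ⟨F, hCF, hF⟩ := (Set.toFinite {F : Finset (Finset (Fin n)) |
    Pool.Agent.H31.Kn.IsInt n k F}).exists_le_maximal (a := C) hC
  exact ⟨F, hCF, hF⟩

/-- The summand of `UU` for one tuple. -/
private noncomputable def summ (P : Par n k) (l s : ℕ) (σ : Sta n) (T : Finset (Fin n))
    (f : Fin l → Finset (Fin n)) : ℝ :=
  σ.y T * ∏ i, wt (rr n k (f i \ T).card) ((1 + P.del) * (rr n k (f i \ T).card + P.d1))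
      (P.al s) (P.e * s) σ (f i)

private theorem summ_nonneg {P : Par n k} {l s : ℕ} (hs : s ≤ P.tau) {σ : Sta n}
    (hy : ∀ A ∈ KS n k, 0 ≤ σ.y A) {T : Finset (Fin n)} (hT : T ∈ KS n k)
    {f : Fin l → Finset (Fin n)} (hf : f ∈ tup l (rin n k P.j T)) : 0 ≤ summ P l s σ T f := by
  unfold summ
  refine mul_nonneg (hy T hT) (prod_nonneg fun i _ => ?_)
  have h1 : f i ∈ rin n k P.j T := (Fintype.mem_piFinset.mp (mem_filter.mp hf).1) i
  exact wt_nonneg (P.al_pos hs).le (hy _ (rin_sub n k P.j T h1))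

/-- A set with exactly `l` near chosen sets gives a big summand. -/
private theorem big_summand {P : Par n k} {σ : Sta n} (h : Inv P P.tau σ) {T : Finset (Fin n)}
    (hT : T ∈ KS n k) (hTC : T ∉ σ.C) (hal : ∀ B ∈ σ.C, ¬ Disjoint T B) {l : ℕ}
    (hl : (nc P.j σ.C T).card = l) :
    ∃ f ∈ tup l (rin n k P.j T),
      Real.exp ((1 - P.del - l * rr n k 1) * (P.e * P.tau)) ≤ summ P l P.tau σ T f := by
  classical
  set g := (equivFinOfCardEq hl).symm with hg
  have hmem : ∀ i : Fin l, ((g i : Finset (Fin n)) ∈ σ.C) ∧ ((g i : Finset (Fin n)) \ T).card < P.j :=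
    fun i => mem_filter.mp (g i).2
  have hKS : ∀ i : Fin l, (g i : Finset (Fin n)) ∈ KS n k := fun i => h.sub (hmem i).1
  have hpos : ∀ i : Fin l, 1 ≤ ((g i : Finset (Fin n)) \ T).card := by
    intro i
    rcases Nat.eq_zero_or_pos ((g i : Finset (Fin n)) \ T).card with h0 | h0
    · exfalso
      apply hTC
      rw [eq_of_sd hT (hKS i) h0]
      exact (hmem i).1
    · exact h0
  have ht0 : 0 ≤ P.e * P.tau := mul_nonneg P.e0.le (Nat.cast_nonneg _)
  refine ⟨fun i => (g i : Finset (Fin n)), ?_, ?_⟩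
  · unfold tup
    refine mem_filter.mpr ⟨Fintype.mem_piFinset.mpr fun i => ?_, fun i i' hii => ?_⟩
    · exact mem_filter.mpr ⟨hKS i, hpos i, (hmem i).2⟩
    · rcases Nat.eq_zero_or_pos ((g i' : Finset (Fin n)) \ (g i : Finset (Fin n))).card with h0 | h0
      · exfalso
        have h1 := eq_of_sd (hKS i) (hKS i') h0
        exact hii (g.injective (Subtype.ext h1))
      · exact h0
  · unfold summ
    have hlow := h.low T hT hal
    have hsum : ∑ B ∈ nc P.j σ.C T, rr n k (B \ T).card * (P.e * P.tau - σ.st B) =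
        ∑ i : Fin l, rr n k ((g i : Finset (Fin n)) \ T).card *
          (P.e * P.tau - σ.st (g i : Finset (Fin n))) := by
      rw [← Finset.sum_coe_sort (nc P.j σ.C T)
        (fun B => rr n k (B \ T).card * (P.e * P.tau - σ.st B))]
      exact (Equiv.sum_comp g (fun B : (nc P.j σ.C T) =>
        rr n k ((B : Finset (Fin n)) \ T).card * (P.e * P.tau - σ.st (B : Finset (Fin n))))).symm
    rw [hsum] at hlow
    have hprod : Real.exp (-∑ i : Fin l, rr n k ((g i : Finset (Fin n)) \ T).card *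
        σ.st (g i : Finset (Fin n))) ≤
        ∏ i : Fin l, wt (rr n k ((g i : Finset (Fin n)) \ T).card)
          ((1 + P.del) * (rr n k ((g i : Finset (Fin n)) \ T).card + P.d1))
          (P.al P.tau) (P.e * P.tau) σ (g i : Finset (Fin n)) := by
      rw [← sum_neg_distrib, Real.exp_sum]
      refine prod_le_prod (fun i _ => (Real.exp_pos _).le) fun i _ => ?_
      unfold wt
      rw [if_pos (hmem i).1]
      have h1 : 0 ≤ P.al P.tau * Real.exp (-((1 + P.del) *
          (rr n k ((g i : Finset (Fin n)) \ T).card + P.d1) * (P.e * P.tau))) *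
          σ.y (g i : Finset (Fin n)) :=
        mul_nonneg (mul_nonneg (P.al_pos le_rfl).le (Real.exp_pos _).le) (h.nonneg _ (hKS i))
      linarith
    have hrr : ∑ i : Fin l, rr n k ((g i : Finset (Fin n)) \ T).card * (P.e * P.tau) ≤
        l * rr n k 1 * (P.e * P.tau) := by
      have h1 : ∀ i ∈ (univ : Finset (Fin l)),
          rr n k ((g i : Finset (Fin n)) \ T).card * (P.e * P.tau) ≤
            rr n k 1 * (P.e * P.tau) := fun i _ =>
        mul_le_mul_of_nonneg_right (rr_anti n k (hpos i)) ht0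
      refine (sum_le_card_nsmul _ _ _ h1).trans ?_
      rw [card_univ, Fintype.card_fin, nsmul_eq_mul, mul_assoc]
    calc Real.exp ((1 - P.del - l * rr n k 1) * (P.e * P.tau))
        ≤ Real.exp ((1 - P.del) * (P.e * P.tau) - ∑ i : Fin l,
            rr n k ((g i : Finset (Fin n)) \ T).card * (P.e * P.tau - σ.st (g i : Finset (Fin n)))) *
          Real.exp (-∑ i : Fin l, rr n k ((g i : Finset (Fin n)) \ T).card *
            σ.st (g i : Finset (Fin n))) := by
          rw [← Real.exp_add]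
          refine Real.exp_le_exp.mpr ?_
          have h2 : ∑ i : Fin l, rr n k ((g i : Finset (Fin n)) \ T).card *
              (P.e * P.tau - σ.st (g i : Finset (Fin n))) =
              ∑ i : Fin l, rr n k ((g i : Finset (Fin n)) \ T).card * (P.e * P.tau) -
              ∑ i : Fin l, rr n k ((g i : Finset (Fin n)) \ T).card *
                σ.st (g i : Finset (Fin n)) := by
            rw [← sum_sub_distrib]
            exact sum_congr rfl fun i _ => by ring
          rw [h2]
          have h3 : (1 - P.del - l * rr n k 1) * (P.e * P.tau) =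
            (1 - P.del) * (P.e * P.tau) - l * rr n k 1 * (P.e * P.tau) := by ring
          rw [h3]
          linarith
      _ ≤ _ := mul_le_mul hlow hprod (Real.exp_pos _).le (h.nonneg T hT)

private theorem near_part {P : Par n k} {σ : Sta n} (h : Inv P P.tau σ)
    {F : Finset (Finset (Fin n))} (hFK : F ⊆ KS n k)
    (hal : ∀ T ∈ F, ∀ B ∈ σ.C, ¬ Disjoint T B) {l : ℕ} (hl : l ∈ Ico 1 P.q) :
    ((F.filter (fun T => T ∉ σ.C ∧ (nc P.j σ.C T).card = l)).card : ℝ) ≤
      Real.exp (-((1 - P.del - l * rr n k 1) * (P.e * P.tau))) *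
        (8 * n * P.U0 l * Real.exp (P.gl l * (P.e * P.tau))) := by
  have b := h.base le_rfl
  set E := Real.exp (-((1 - P.del - l * rr n k 1) * (P.e * P.tau))) with hE
  have hE0 : 0 < E := Real.exp_pos _
  have h1 : ((F.filter (fun T => T ∉ σ.C ∧ (nc P.j σ.C T).card = l)).card : ℝ) ≤
      ∑ T ∈ F.filter (fun T => T ∉ σ.C ∧ (nc P.j σ.C T).card = l),
        E * ∑ f ∈ tup l (rin n k P.j T), summ P l P.tau σ T f := by
    rw [card_eq_sum_ones, Nat.cast_sum]
    refine sum_le_sum fun T hT => ?_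
    obtain ⟨hTF, hTC, hTl⟩ := mem_filter.mp hT
    have hTK := hFK hTF
    obtain ⟨f, hf, hfb⟩ := big_summand h hTK hTC (hal T hTF) hTl
    have h2 : summ P l P.tau σ T f ≤ ∑ f ∈ tup l (rin n k P.j T), summ P l P.tau σ T f :=
      single_le_sum (f := fun f => summ P l P.tau σ T f)
        (fun f hf => summ_nonneg le_rfl h.nonneg hTK hf) hf
    have h3 : (1 : ℝ) = E * Real.exp ((1 - P.del - l * rr n k 1) * (P.e * P.tau)) := by
      rw [hE, ← Real.exp_add, neg_add_cancel, Real.exp_zero]
    push_cast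
    rw [h3]
    exact mul_le_mul_of_nonneg_left (hfb.trans h2) hE0.le
  have h2 : ∑ T ∈ F.filter (fun T => T ∉ σ.C ∧ (nc P.j σ.C T).card = l),
        E * ∑ f ∈ tup l (rin n k P.j T), summ P l P.tau σ T f ≤
      ∑ T ∈ KS n k, E * ∑ f ∈ tup l (rin n k P.j T), summ P l P.tau σ T f :=
    sum_le_sum_of_subset_of_nonneg (fun T hT => hFK (mem_filter.mp hT).1)
      (fun T hT _ => mul_nonneg hE0.le
        (sum_nonneg fun f hf => summ_nonneg le_rfl h.nonneg hT hf))
  have h3 : ∑ T ∈ KS n k, E * ∑ f ∈ tup l (rin n k P.j T), summ P l P.tau σ T f =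
      E * P.UU l P.tau σ := by
    rw [← mul_sum]
    rfl
  have h4 := read_U b hl
  calc ((F.filter (fun T => T ∉ σ.C ∧ (nc P.j σ.C T).card = l)).card : ℝ)
      ≤ E * P.UU l P.tau σ := by linarith
    _ ≤ _ := mul_le_mul_of_nonneg_left h4 hE0.le

private theorem far_part {P : Par n k} {σ : Sta n} (h : Inv P P.tau σ)
    {F : Finset (Finset (Fin n))} (hFK : F ⊆ KS n k)
    (hal : ∀ T ∈ F, ∀ B ∈ σ.C, ¬ Disjoint T B) :
    ((F.filter (fun T => (nc P.j σ.C T).card = 0)).card : ℝ) ≤
      2 * (n.choose k : ℝ) * Real.exp (-((1 - P.del) * (P.e * P.tau))) := by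
  have b := h.base le_rfl
  have h1 : ((F.filter (fun T => (nc P.j σ.C T).card = 0)).card : ℝ) *
      Real.exp ((1 - P.del) * (P.e * P.tau)) ≤ ∑ T ∈ KS n k, σ.y T := by
    rw [← nsmul_eq_mul, ← sum_const]
    refine (sum_le_sum fun T hT => ?_).trans (sum_le_sum_of_subset_of_nonneg
      (fun T hT => hFK (mem_filter.mp hT).1) (fun T hT _ => h.nonneg T hT))
    obtain ⟨hTF, hTn⟩ := mem_filter.mp hT
    have h2 := h.low T (hFK hTF) (hal T hTF)
    rw [card_eq_zero.mp hTn, sum_empty, sub_zero] at h2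
    exact h2
  have h2 := total b
  have h3 : (1 + P.d1) * (n.choose k : ℝ) ≤ 2 * (n.choose k : ℝ) :=
    mul_le_mul_of_nonneg_right (by linarith [P.d1le, P.del1]) (Nat.cast_nonneg _)
  have h5 : Real.exp ((1 - P.del) * (P.e * P.tau)) *
      Real.exp (-((1 - P.del) * (P.e * P.tau))) = 1 := by
    rw [← Real.exp_add, add_neg_cancel, Real.exp_zero]
  calc ((F.filter (fun T => (nc P.j σ.C T).card = 0)).card : ℝ)
      = (((F.filter (fun T => (nc P.j σ.C T).card = 0)).card : ℝ) *
          Real.exp ((1 - P.del) * (P.e * P.tau))) *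
          Real.exp (-((1 - P.del) * (P.e * P.tau))) := by
        rw [mul_assoc, h5, mul_one]
    _ ≤ _ := mul_le_mul_of_nonneg_right (by linarith) (Real.exp_pos _).le

theorem main_family (P : Par n k) :
    ∃ F : Finset (Finset (Fin n)), Maximal (Pool.Agent.H31.Kn.IsInt n k) F ∧
      (F.card : ℝ) ≤ P.tau +
        ∑ l ∈ Ico 1 P.q, Real.exp (-((1 - P.del - l * rr n k 1) * (P.e * P.tau))) *
          (8 * n * P.U0 l * Real.exp (P.gl l * (P.e * P.tau))) +
        2 * (n.choose k : ℝ) * Real.exp (-((1 - P.del) * (P.e * P.tau))) := by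
  obtain ⟨σ, h⟩ := inv_all P P.tau le_rfl
  obtain ⟨F, hCF, hF⟩ := exists_ge h.int
  refine ⟨F, hF, ?_⟩
  have b := h.base le_rfl
  have hFK : F ⊆ KS n k := fun T hT => mem_KS.mpr (hF.prop.1 T hT)
  have hal : ∀ T ∈ F, ∀ B ∈ σ.C, ¬ Disjoint T B := by
    intro T hT B hB hd
    have h1 := hF.prop.2 T hT B (hCF hB)
    rw [disjoint_iff_inter_eq_empty] at hd
    rw [hd] at h1
    exact not_nonempty_empty h1
  have hcov : F ⊆ (σ.C ∪ (Ico 1 P.q).biUnion
      (fun l => F.filter (fun T => T ∉ σ.C ∧ (nc P.j σ.C T).card = l))) ∪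
      F.filter (fun T => (nc P.j σ.C T).card = 0) := by
    intro T hT
    rcases Nat.eq_zero_or_pos (nc P.j σ.C T).card with h1 | h1
    · exact mem_union_right _ (mem_filter.mpr ⟨hT, h1⟩)
    · refine mem_union_left _ ?_
      by_cases h2 : T ∈ σ.C
      · exact mem_union_left _ h2
      · exact mem_union_right _ (mem_biUnion.mpr ⟨(nc P.j σ.C T).card,
          mem_Ico.mpr ⟨h1, nc_lt b (hFK hT)⟩, mem_filter.mpr ⟨hT, h2, rfl⟩⟩)
  have hc1 : F.card ≤ σ.C.card + ∑ l ∈ Ico 1 P.q,
      (F.filter (fun T => T ∉ σ.C ∧ (nc P.j σ.C T).card = l)).card +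
      (F.filter (fun T => (nc P.j σ.C T).card = 0)).card :=
    (card_le_card hcov).trans ((card_union_le _ _).trans (Nat.add_le_add_right
      ((card_union_le _ _).trans (Nat.add_le_add_left card_biUnion_le _)) _))
  have hc2 : (F.card : ℝ) ≤ (σ.C.card : ℝ) + ∑ l ∈ Ico 1 P.q,
      ((F.filter (fun T => T ∉ σ.C ∧ (nc P.j σ.C T).card = l)).card : ℝ) +
      ((F.filter (fun T => (nc P.j σ.C T).card = 0)).card : ℝ) := by
    exact_mod_cast hc1
  have hc3 : (σ.C.card : ℝ) ≤ P.tau := by exact_mod_cast h.card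
  have hc4 := sum_le_sum fun l hl => near_part h hFK hal (l := l) hl
  have hc5 := far_part h hFK hal
  linarith

end Pool.Agent.H14.KD
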