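import Pool.Agent.H14.KD.R4
import Pool.Agent.H70.KG.SC

/-!
# [H14 KD GB] the growth factor

Same as H70/KP/GB. x = e S A / DD, 0 <= x <= e (1 + d1) <= 1/2. gf <= exp (x + x^2)
(KG.inv_one_sub_le_exp) and x + x^2 <= e (1 + d1)(1 + e (1 + d1)) <= e (1 + 2 del) (d1 <= del/2,
e <= del/16, del <= 1/2). If (th - del) DD <= S A then x >= e (th - del), gf >= exp x
(KG.exp_le_inv_one_sub).
-/

namespace Pool.Agent.H14.KD

open Finset
open Pool.Agent.H70.KG (KS DD S gf up0 up pr pr0)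
open Pool.Agent.H70.KP (Sta Ex E1 Mild sz rr dis nea TS nc tg WW)

variable {n k : ℕ}

private theorem e1 (P : Par n k) : 16 * P.e ≤ P.del := by
  have h1 := P.e2
  have h2 : (1 : ℝ) ≤ n := by
    have := P.hn
    exact_mod_cast (by omega : 1 ≤ n)
  have h3 := P.e0
  nlinarith

private theorem x_bounds {P : Par n k} {s : ℕ} {σ : Sta n} (b : Base P s σ)
    {A : Finset (Fin n)} (hA : A ∈ KS n k) :
    0 ≤ P.e * S n k σ.y A / DD n k ∧ P.e * S n k σ.y A / DD n k ≤ P.e * (1 + P.d1) := by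
  have hD := P.D_pos
  have he := P.e0
  constructor
  · exact div_nonneg (mul_nonneg he.le (sum_nonneg fun B hB =>
      b.nonneg B (mem_filter.mp hB).1)) hD.le
  · rw [div_le_iff₀ hD]
    have h1 := mul_le_mul_of_nonneg_left (S_le b hA) he.le
    linarith

theorem gf_le {P : Par n k} {s : ℕ} {σ : Sta n} (b : Base P s σ) {A : Finset (Fin n)}
    (hA : A ∈ KS n k) : gf n k P.e σ.y A ≤ Real.exp ((1 + 2 * P.del) * P.e) := by
  obtain ⟨h0, h1⟩ := x_bounds b hA
  have he := P.e0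
  have hd := P.d10
  have h2 := e1 P
  have h3 := P.d1le
  have h4 := P.del1
  have h5 := P.del0
  unfold Pool.Agent.H70.KG.gf
  set x := P.e * S n k σ.y A / DD n k with hx
  have h6 : x ≤ P.e * (1 + P.del / 2) := by
    refine h1.trans (mul_le_mul_of_nonneg_left (by linarith) he.le)
  have h7 : x ≤ P.del / 8 := by nlinarith
  refine (Pool.Agent.H70.KG.inv_one_sub_le_exp h0 (by linarith)).trans
    (Real.exp_le_exp.mpr ?_)
  have h8 : x + x ^ 2 ≤ x * (1 + P.del / 8) := by nlinarith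
  have h9 : x * (1 + P.del / 8) ≤ P.e * (1 + P.del / 2) * (1 + P.del / 8) :=
    mul_le_mul_of_nonneg_right h6 (by linarith)
  have h10 : (1 + P.del / 2) * (1 + P.del / 8) ≤ 1 + 2 * P.del := by nlinarith
  have h11 := mul_le_mul_of_nonneg_left h10 he.le
  linarith

theorem le_gf {P : Par n k} {s : ℕ} {σ : Sta n} (b : Base P s σ) {A : Finset (Fin n)}
    (hA : A ∈ KS n k) {th : ℝ} (hth : (th - P.del) * DD n k ≤ S n k σ.y A) :
    Real.exp ((th - P.del) * P.e) ≤ gf n k P.e σ.y A := by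
  obtain ⟨h0, h1⟩ := x_bounds b hA
  have he := P.e0
  have hD := P.D_pos
  have h2 := e1 P
  have h3 := P.d1le
  have h4 := P.del1
  have h5 := P.del0
  have hx : (th - P.del) * P.e ≤ P.e * S n k σ.y A / DD n k := by
    rw [le_div_iff₀ hD]
    have h6 := mul_le_mul_of_nonneg_left hth he.le
    linarith
  have h6 : P.e * S n k σ.y A / DD n k ≤ 1 / 2 := by nlinarith
  unfold Pool.Agent.H70.KG.gf
  exact (Real.exp_le_exp.mpr hx).trans (Pool.Agent.H70.KG.exp_le_inv_one_sub h6)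

theorem gf_nonneg {P : Par n k} {s : ℕ} {σ : Sta n} (b : Base P s σ) {A : Finset (Fin n)}
    (hA : A ∈ KS n k) : 0 ≤ gf n k P.e σ.y A := by
  obtain ⟨h0, h1⟩ := x_bounds b hA
  have he := P.e0
  have h2 := e1 P
  have h3 := P.d1le
  have h4 := P.del1
  have h6 : P.e * S n k σ.y A / DD n k ≤ 1 / 2 := by nlinarith
  unfold Pool.Agent.H70.KG.gf
  exact div_nonneg zero_le_one (by linarith)

end Pool.Agent.H14.KD
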