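import Pool.Agent.H14.KD.GB
import Pool.Agent.H14.KD.AA

/-!
# [H14 KD IS] one step of the invariants

base: Inv and s <= tau give Base.
inv_stay: y' A = y A gf A. nonneg, dead clear; ymax: gf_le. low: C, st, nc unchanged; gf T >=
exp ((tg - del) e) (le_gf with th = tg, R1.low), tg = 1 - sum_{nc} rr, and
(1 - del)(e (s+1)) - sum rr (e (s+1) - st) = (old exponent) + (tg - del) e.
inv_pick: B new, B not in C, y B > 0. y' A = 0 if A is disjoint from B, y A gf A otherwise. dead: by
definition or old dead. sub clear. int: B meets all members of C (otherwise y B = 0 by dead), B is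
nonempty (k >= 1), so insert B C is intersecting (compare H70/KP/IS). card: <= s + 1. ymax: gf_le.
low: T alive for insert B C is alive for C and not disjoint from B, so y' T = y T gf T >=
exp (old exponent + (tg - del) e). If B is not near T then nc is unchanged and st' = st on C (B is not
in C), as in inv_stay. If (B \ T).card < j then nc (insert B C) T = insert B (nc C T), st' B = e s,
and the new exponent is (old exponent) + (tg - del) e - rr d (e (s+1) - e s), d = (B \ T).card, which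
is smaller (rr d e >= 0).
-/

namespace Pool.Agent.H14.KD

open Finset
open Pool.Agent.H70.KG (KS DD S gf up0 up pr pr0)
open Pool.Agent.H70.KP (Sta Ex E1 Mild sz rr dis nea TS nc tg WW)

variable {n k : ℕ}

theorem Inv.base {P : Par n k} {s : ℕ} {σ : Sta n} (h : Inv P s σ) (hs : s ≤ P.tau) :
    Base P s σ :=
  ⟨hs, h.nonneg, h.dead, h.sub, h.ymax, h.phi⟩

open Pool.Agent.H70.KP (mem_KS)

private theorem ymax_step {P : Par n k} {s : ℕ} {σ : Sta n} (h : Inv P s σ) (b : Base P s σ)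
    {A : Finset (Fin n)} (hA : A ∈ KS n k) :
    σ.y A * gf n k P.e σ.y A ≤ Real.exp ((1 + 2 * P.del) * (P.e * ((s + 1 : ℕ) : ℝ))) := by
  calc σ.y A * gf n k P.e σ.y A
      ≤ Real.exp ((1 + 2 * P.del) * (P.e * s)) * Real.exp ((1 + 2 * P.del) * P.e) :=
        mul_le_mul (h.ymax A hA) (gf_le b hA) (gf_nonneg b hA) (Real.exp_pos _).le
    _ = Real.exp ((1 + 2 * P.del) * (P.e * ((s + 1 : ℕ) : ℝ))) := by
        rw [← Real.exp_add]
        congr 1
        push_cast
        ring

private theorem low_step {P : Par n k} {s : ℕ} {σ : Sta n} (h : Inv P s σ) (b : Base P s σ)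
    {T : Finset (Fin n)} (hT : T ∈ KS n k) (hl : ∀ B ∈ σ.C, ¬ Disjoint T B) :
    Real.exp ((1 - P.del) * (P.e * ((s + 1 : ℕ) : ℝ)) -
      ∑ B ∈ nc P.j σ.C T, rr n k (B \ T).card * (P.e * ((s + 1 : ℕ) : ℝ) - σ.st B)) ≤
      σ.y T * gf n k P.e σ.y T := by
  have h1 := low b hT
  have h2 : ∑ B ∈ nc P.j σ.C T, rr n k (B \ T).card * (P.e * ((s + 1 : ℕ) : ℝ) - σ.st B) =
      ∑ B ∈ nc P.j σ.C T, rr n k (B \ T).card * (P.e * s - σ.st B) +
        (∑ B ∈ nc P.j σ.C T, rr n k (B \ T).card) * P.e := by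
    rw [sum_mul, ← sum_add_distrib]
    refine sum_congr rfl fun B _ => ?_
    push_cast
    ring
  calc Real.exp ((1 - P.del) * (P.e * ((s + 1 : ℕ) : ℝ)) -
        ∑ B ∈ nc P.j σ.C T, rr n k (B \ T).card * (P.e * ((s + 1 : ℕ) : ℝ) - σ.st B))
      = Real.exp ((1 - P.del) * (P.e * s) -
          ∑ B ∈ nc P.j σ.C T, rr n k (B \ T).card * (P.e * s - σ.st B)) *
          Real.exp ((tg k P.j σ.C T - P.del) * P.e) := by
        rw [← Real.exp_add, h2]
        congr 1
        unfold tg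
        push_cast
        ring
    _ ≤ _ := mul_le_mul (h.low T hT hl) (le_gf b hT h1) (Real.exp_pos _).le (h.nonneg T hT)

theorem inv_stay {P : Par n k} {s : ℕ} (hs : s < P.tau) {σ : Sta n} (h : Inv P s σ)
    (hphi : P.Phi (s + 1) (σ.stay k P.e) ≤ 4 ^ n) : Inv P (s + 1) (σ.stay k P.e) := by
  have b := h.base hs.le
  refine ⟨?_, ?_, h.sub, h.int, h.card.trans (Nat.le_succ s), ?_, ?_, hphi⟩
  · intro A hA
    exact mul_nonneg (h.nonneg A hA) (gf_nonneg b hA)
  · intro A hA hB
    show σ.y A * gf n k P.e σ.y A = 0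
    rw [h.dead A hA hB, zero_mul]
  · intro A hA
    exact ymax_step h b hA
  · intro T hT hl
    exact low_step h b hT hl

theorem inv_pick {P : Par n k} {s : ℕ} (hs : s < P.tau) {σ : Sta n} (h : Inv P s σ)
    {B : Finset (Fin n)} (hB : B ∈ KS n k) (hBC : B ∉ σ.C) (hy : 0 < σ.y B)
    (hphi : P.Phi (s + 1) (σ.pick k P.e (P.e * s) B) ≤ 4 ^ n) :
    Inv P (s + 1) (σ.pick k P.e (P.e * s) B) := by
  have b := h.base hs.le
  have hup : ∀ A : Finset (Fin n), (σ.pick k P.e (P.e * s) B).y A =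
      if Disjoint A B then 0 else σ.y A * gf n k P.e σ.y A := fun A => rfl
  have hupn : ∀ A : Finset (Fin n), ¬ Disjoint A B → (σ.pick k P.e (P.e * s) B).y A =
      σ.y A * gf n k P.e σ.y A := fun A hA => by rw [hup, if_neg hA]
  have hnn : ∀ A ∈ KS n k, 0 ≤ (σ.pick k P.e (P.e * s) B).y A := by
    intro A hA
    rw [hup]
    split_ifs
    · exact le_rfl
    · exact mul_nonneg (h.nonneg A hA) (gf_nonneg b hA)
  have hdead : ∀ A ∈ KS n k, (∃ B' ∈ insert B σ.C, Disjoint A B') →
      (σ.pick k P.e (P.e * s) B).y A = 0 := by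
    intro A hA ⟨B', hB', hd⟩
    rw [hup]
    rcases mem_insert.mp hB' with h1 | h1
    · rw [h1] at hd
      rw [if_pos hd]
    · rw [h.dead A hA ⟨B', h1, hd⟩, zero_mul]
      exact ite_self 0
  have hsub : insert B σ.C ⊆ KS n k := insert_subset hB h.sub
  have hym : ∀ A ∈ KS n k, (σ.pick k P.e (P.e * s) B).y A ≤
      Real.exp ((1 + 2 * P.del) * (P.e * ((s + 1 : ℕ) : ℝ))) := by
    intro A hA
    rw [hup]
    split_ifs
    · exact (Real.exp_pos _).le
    · exact ymax_step h b hA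
  have hmeet : ∀ A ∈ σ.C, ¬ Disjoint B A := by
    intro A hA hd
    have := h.dead B hB ⟨A, hA, hd⟩
    linarith
  have hBk : B.card = k := mem_KS.mp hB
  have hkey : ∀ B₁ ∈ insert B σ.C, ∀ B₂ ∈ insert B σ.C, (B₁ ∩ B₂).Nonempty := by
    intro B₁ h1 B₂ h2
    rcases mem_insert.mp h1 with h1 | h1
    · rcases mem_insert.mp h2 with h2 | h2
      · rw [h1, h2, inter_self, ← card_pos, hBk]
        exact P.hk
      · rw [h1]
        have h3 := hmeet B₂ h2
        rwa [disjoint_iff_inter_eq_empty, ← ne_eq, ← nonempty_iff_ne_empty] at h3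
    · rcases mem_insert.mp h2 with h2 | h2
      · rw [h2, inter_comm]
        have h3 := hmeet B₁ h1
        rwa [disjoint_iff_inter_eq_empty, ← ne_eq, ← nonempty_iff_ne_empty] at h3
      · exact h.int.2 B₁ h1 B₂ h2
  refine ⟨hnn, hdead, hsub, ⟨fun A hA => mem_KS.mp (hsub hA), hkey⟩, ?_, hym, ?_, hphi⟩
  · exact (card_insert_le _ _).trans (Nat.succ_le_succ h.card)
  · intro T hT hl
    rw [hupn T (hl B (mem_insert_self _ _))]
    have hl' : ∀ B₂ ∈ σ.C, ¬ Disjoint T B₂ := fun B₂ h3 => hl B₂ (mem_insert_of_mem h3)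
    refine le_trans (Real.exp_le_exp.mpr ?_) (low_step h b hT hl')
    refine sub_le_sub_left ?_ _
    have hst : ∀ B' ∈ σ.C, (σ.pick k P.e (P.e * s) B).st B' = σ.st B' := by
      intro B' hB'
      refine if_neg ?_
      intro h4
      exact hBC (h4 ▸ hB')
    have hold : ∑ B' ∈ nc P.j σ.C T, rr n k (B' \ T).card *
        (P.e * ((s + 1 : ℕ) : ℝ) - (σ.pick k P.e (P.e * s) B).st B') =
        ∑ B' ∈ nc P.j σ.C T, rr n k (B' \ T).card *
        (P.e * ((s + 1 : ℕ) : ℝ) - σ.st B') :=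
      sum_congr rfl fun B' hB' => by rw [hst B' (mem_filter.mp hB').1]
    have hncI : nc P.j (σ.pick k P.e (P.e * s) B).C T =
        if (B \ T).card < P.j then insert B (nc P.j σ.C T) else nc P.j σ.C T :=
      filter_insert _ _ _
    rw [hncI, ← hold]
    split_ifs with hj
    · have hBn : B ∉ nc P.j σ.C T := fun h5 => hBC (mem_filter.mp h5).1
      rw [sum_insert hBn]
      have hstB : (σ.pick k P.e (P.e * s) B).st B = P.e * s := if_pos rfl
      rw [hstB]
      have h6 : 0 ≤ rr n k (B \ T).card * (P.e * ((s + 1 : ℕ) : ℝ) - P.e * s) := by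
        refine mul_nonneg (Pool.Agent.H70.KP.rr_nonneg n k _) ?_
        push_cast
        linarith [P.e0]
      linarith
    · exact le_rfl

theorem inv_step {P : Par n k} {s : ℕ} (hs : s < P.tau) {σ : Sta n} (h : Inv P s σ) :
    ∃ σ' : Sta n, Inv P (s + 1) σ' := by
  rcases good_choice P s hs (good (h.base hs.le)) with h1 | ⟨B, hB, hBC, hy, h1⟩
  · exact ⟨_, inv_stay hs h (h1.trans h.phi)⟩
  · exact ⟨_, inv_pick hs h hB hBC hy (h1.trans h.phi)⟩

end Pool.Agent.H14.KD
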