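import Pool.Agent.H70.KP.CB
import Pool.Agent.H70.KG.BI

/-!
# [H14 KD NA] the numbers rr, and N/D is large

Let p = n - k, h = n - 2k (2k <= n, 1 <= k). C(p - d - 1, k) (p - d) = C(p - d, k) (p - d - k)
(Nat.succ_mul_choose_eq or choose symmetric forms) gives rr (d+1) = rr d * (h - d)/(p - d) if d < h (and
rr (d+1) = 0 if h <= d), rr 0 = 1.
rr_one: d = 0. rr_pow: (h - d)/(p - d) <= h/p, induction.
rr_le_half: n <= 3 k: h = n - 2k <= k, so 2 h <= h + k = p.
D_small: KG.D_le: DD <= exp (-(k^2/n)) N; k >= n/3, so k^2/n >= n/9 >= 30 log n for n >= 3000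
(log n <= 2 sqrt n - 2 or log n <= n/300 + log 300 - 1: use Real.log_le_sub_one_of_pos for n/300).
-/

namespace Pool.Agent.H14.KD

open Finset
open Pool.Agent.H70.KG (KS DD S gf up0 up pr pr0)
open Pool.Agent.H70.KP (Sta Ex E1 Mild sz rr dis nea TS nc tg WW)

private theorem sz_succ {n k u : ℕ} (hu : u + k ≤ n) (hun : u < n) :
    sz n k (u + 1) * ((n : ℝ) - u) = sz n k u * ((n : ℝ) - u - k) := by
  obtain ⟨M, hM⟩ : ∃ M, n - u = M + 1 := ⟨n - u - 1, by omega⟩
  have h1 : n - (u + 1) = M := by omega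
  have h2 : (n : ℝ) - u = M + 1 := by
    have : ((n - u : ℕ) : ℝ) = ((M + 1 : ℕ) : ℝ) := by rw [hM]
    rw [Nat.cast_sub (by omega)] at this
    push_cast at this
    exact this
  unfold Pool.Agent.H70.KP.sz
  rw [hM, h1, h2]
  have h3 : M.choose k * (M + 1) = (M + 1).choose k * (M + 1 - k) := Nat.choose_mul_succ_eq M k
  have : ((M.choose k * (M + 1) : ℕ) : ℝ) = (((M + 1).choose k * (M + 1 - k) : ℕ) : ℝ) := by
    rw [h3]
  rw [Nat.cast_mul, Nat.cast_mul, Nat.cast_sub (by omega)] at this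
  push_cast at this
  exact this

private theorem D_pos {n k : ℕ} (hk : 2 * k ≤ n) : 0 < DD n k := by
  unfold Pool.Agent.H70.KG.DD
  exact_mod_cast Nat.choose_pos (by omega)

theorem rr_one {n k : ℕ} (hk1 : 1 ≤ k) (hk : 2 * k ≤ n) :
    rr n k 1 = ((n : ℝ) - 2 * k) / ((n : ℝ) - k) := by
  have hD := D_pos hk
  have h1 := sz_succ (n := n) (k := k) (u := k) (by omega) (by omega)
  have h2 : (0 : ℝ) < (n : ℝ) - k := by
    have : (k : ℝ) < n := by exact_mod_cast (by omega : k < n)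
    linarith
  have h3 : sz n k k = DD n k := rfl
  unfold Pool.Agent.H70.KP.rr
  rw [div_eq_div_iff hD.ne' h2.ne', h1, h3]
  ring

theorem rr_pow {n k : ℕ} (hk1 : 1 ≤ k) (hk : 2 * k ≤ n) (d : ℕ) :
    rr n k d ≤ (rr n k 1) ^ d := by
  have hD := D_pos hk
  have hkn : (2 : ℝ) * k ≤ n := by exact_mod_cast hk
  have hk0 : (1 : ℝ) ≤ k := by exact_mod_cast hk1
  have hp : (0 : ℝ) < (n : ℝ) - k := by linarith
  have hr0 : 0 ≤ rr n k 1 := Pool.Agent.H70.KP.rr_nonneg n k 1
  induction d with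
  | zero =>
    rw [pow_zero]
    exact Pool.Agent.H70.KP.rr_le_one n k 0
  | succ d ih =>
    rcases Nat.lt_or_ge (k + d + k) n with h | h
    · have h1 := sz_succ (n := n) (k := k) (u := k + d) (by omega) (by omega)
      have hq : (0 : ℝ) < (n : ℝ) - ((k + d : ℕ) : ℝ) := by
        have : ((k + d : ℕ) : ℝ) < n := by exact_mod_cast (by omega : k + d < n)
        linarith
      have h2 : sz n k (k + (d + 1)) = sz n k (k + d) *
          (((n : ℝ) - ((k + d : ℕ) : ℝ) - k) / ((n : ℝ) - ((k + d : ℕ) : ℝ))) := by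
        rw [← add_assoc]
        field_simp
        linarith
      have h3 : ((n : ℝ) - ((k + d : ℕ) : ℝ) - k) / ((n : ℝ) - ((k + d : ℕ) : ℝ)) ≤
          rr n k 1 := by
        rw [rr_one hk1 hk, div_le_div_iff₀ hq hp]
        push_cast
        nlinarith [mul_nonneg (Nat.cast_nonneg d : (0 : ℝ) ≤ d) (by linarith : (0 : ℝ) ≤ k)]
      have h4 : rr n k (d + 1) = rr n k d *
          (((n : ℝ) - ((k + d : ℕ) : ℝ) - k) / ((n : ℝ) - ((k + d : ℕ) : ℝ))) := by
        unfold Pool.Agent.H70.KP.rr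
        rw [h2]
        ring
      rw [h4, pow_succ]
      exact mul_le_mul ih h3 (div_nonneg (by
        have : ((k + d + k : ℕ) : ℝ) < n := by exact_mod_cast h
        push_cast at this ⊢
        linarith) hq.le) (pow_nonneg hr0 d)
    · have h4 : rr n k (d + 1) = 0 := by
        unfold Pool.Agent.H70.KP.rr Pool.Agent.H70.KP.sz
        rw [Nat.choose_eq_zero_of_lt (by omega)]
        simp
      rw [h4]
      exact pow_nonneg hr0 _

theorem rr_le_half {n k : ℕ} (hk1 : 1 ≤ k) (hk : 2 * k ≤ n) (h3 : n ≤ 3 * k) :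
    rr n k 1 ≤ 1 / 2 := by
  have hkn : (2 : ℝ) * k ≤ n := by exact_mod_cast hk
  have hk0 : (1 : ℝ) ≤ k := by exact_mod_cast hk1
  have h3' : (n : ℝ) ≤ 3 * k := by exact_mod_cast h3
  rw [rr_one hk1 hk, div_le_div_iff₀ (by linarith) (by norm_num)]
  linarith

theorem D_small {n k : ℕ} (hn : 3000 ≤ n) (hk1 : 1 ≤ k) (h3 : n ≤ 3 * k) :
    (n : ℝ) ^ 30 * DD n k ≤ n.choose k := by
  have hn' : (3000 : ℝ) ≤ n := by exact_mod_cast hn
  have hn0 : (0 : ℝ) < n := by linarith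
  have hk0 : (1 : ℝ) ≤ k := by exact_mod_cast hk1
  have h3' : (n : ℝ) ≤ 3 * k := by exact_mod_cast h3
  have h1 := Pool.Agent.H70.KG.D_le n k hk1
  have hlog : Real.log n ≤ n / 270 := by
    have h4 := Real.log_le_sub_one_of_pos (by positivity : (0 : ℝ) < n / 3000)
    rw [Real.log_div hn0.ne' (by norm_num)] at h4
    have h5 : Real.log 3000 ≤ 9 := by
      rw [Real.log_le_iff_le_exp (by norm_num)]
      have h6 : Real.exp 9 = Real.exp 1 ^ 9 := by
        rw [← Real.exp_nat_mul]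
        norm_num
      rw [h6]
      have h7 : (2.7 : ℝ) ≤ Real.exp 1 := by
        have := Real.exp_one_gt_d9
        linarith
      have h8 : (2.7 : ℝ) ^ 9 ≤ Real.exp 1 ^ 9 := pow_le_pow_left₀ (by norm_num) h7 9
      have h9 : (3000 : ℝ) ≤ 2.7 ^ 9 := by norm_num
      linarith
    linarith
  have h4 : (n : ℝ) ^ 30 ≤ Real.exp ((k : ℝ) * k / n) := by
    have h5 : (n : ℝ) ^ 30 = Real.exp (((30 : ℕ) : ℝ) * Real.log n) := by
      rw [Real.exp_nat_mul, Real.exp_log hn0]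
    rw [h5]
    refine Real.exp_le_exp.mpr ?_
    rw [le_div_iff₀ hn0]
    push_cast
    have h6 : 30 * Real.log n * n ≤ n / 9 * n := by
      refine mul_le_mul_of_nonneg_right ?_ hn0.le
      linarith
    nlinarith
  have hN : (0 : ℝ) ≤ n.choose k := Nat.cast_nonneg _
  have hD : (0 : ℝ) ≤ DD n k := Nat.cast_nonneg _
  calc (n : ℝ) ^ 30 * DD n k ≤ Real.exp ((k : ℝ) * k / n) *
        (Real.exp (-((k : ℝ) * k / n)) * (n.choose k : ℝ)) :=
        mul_le_mul h4 h1 hD (Real.exp_pos _).le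
    _ = n.choose k := by
        rw [← mul_assoc, ← Real.exp_add, add_neg_cancel, Real.exp_zero, one_mul]

end Pool.Agent.H14.KD
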