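import Mathlib

/-!
# [H14 KD NB] an inequality for the binary entropy; bounds for binomial coefficients. Mathlib only

ent_ge: f(r) = binEntropy r - 4 log 2 r (1 - r), f 0 = f (1/2) = 0 and f'(1/2) = 0.
f'' = -1/(r (1-r)) + 8 log 2 on (0,1/2): negative for r < a, positive for r > a, where a (1-a) =
1/(8 log 2). On [a, 1/2] f is convex with f (1/2) = 0 and f'(1/2) = 0, so f >= 0; on [0, a] f is concave with
f 0 = 0 and f a >= 0, so f >= 0. (Mathlib: Real.binEntropy, its derivative, deriv2, strictConcaveOn;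
any other proof is fine, e.g. f'(r) = log ((1-r)/r) - 4 log 2 (1 - 2 r) =: g, g (1/2) = 0, g' = f'' changes
sign once, so g is first positive and then negative on (0, 1/2), hence f increases and then
decreases to f (1/2) = 0.)
choose_pow_le: (p/h)^h <= C(p,h) (Nat.pow_le_choose or: C(p,h) = prod_{i<h} (p - i)/(h - i), each factor is
>= p/h).
log_choose_third: the binomial theorem gives 1 = (1/3 + 2/3)^n >= C(n,k) (1/3)^k (2/3)^(n-k).
log_choose_two: C(n,k) <= 2^n.
-/

namespace Pool.Agent.H14.KD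

open Set in
private theorem f_deriv {x : ℝ} (h0 : 0 < x) (h1 : x < 1) :
    HasDerivAt (fun x => Real.binEntropy x - 4 * Real.log 2 * (x * (1 - x)))
      (Real.log (1 - x) - Real.log x - 4 * Real.log 2 * (1 - 2 * x)) x := by
  have h2 := Real.hasDerivAt_binEntropy h0.ne' h1.ne
  have h3 : HasDerivAt (fun x : ℝ => x * (1 - x)) (1 * (1 - x) + x * (0 - 1)) x :=
    (hasDerivAt_id x).mul ((hasDerivAt_const x (1 : ℝ)).sub (hasDerivAt_id x))
  have h4 := h2.sub (h3.const_mul (4 * Real.log 2))
  refine h4.congr_deriv ?_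
  ring

private theorem g_deriv {x : ℝ} (h0 : 0 < x) (h1 : x < 1) :
    HasDerivAt (fun x => Real.log (1 - x) - Real.log x - 4 * Real.log 2 * (1 - 2 * x))
      (8 * Real.log 2 - 1 / (x * (1 - x))) x := by
  have hx1 : (1 - x) ≠ 0 := by
    have : 0 < 1 - x := by linarith
    exact this.ne'
  have h2 : HasDerivAt (fun x : ℝ => Real.log (1 - x)) ((0 - 1) / (1 - x)) x :=
    ((hasDerivAt_const x (1 : ℝ)).sub (hasDerivAt_id x)).log hx1
  have h3 := Real.hasDerivAt_log h0.ne'
  have h4 : HasDerivAt (fun x : ℝ => 1 - 2 * x) (0 - 2 * 1) x :=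
    (hasDerivAt_const x (1 : ℝ)).sub ((hasDerivAt_id x).const_mul 2)
  have h5 := (h2.sub h3).sub (h4.const_mul (4 * Real.log 2))
  refine h5.congr_deriv ?_
  field_simp
  ring

private theorem f_cont :
    Continuous (fun x => Real.binEntropy x - 4 * Real.log 2 * (x * (1 - x))) := by
  have h := Real.binEntropy_continuous
  fun_prop

private theorem f_half :
    Real.binEntropy (1 / 2) - 4 * Real.log 2 * ((1 / 2) * (1 - 1 / 2)) = 0 := by
  have h : Real.binEntropy (1 / 2) = Real.log 2 := by
    rw [one_div]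
    exact Real.binEntropy_two_inv
  rw [h]
  ring

/-- The case where `g` is increasing on `[r, 1/2]`. -/
private theorem caseA {r : ℝ} (h0 : 0 < r) (h1 : r ≤ 1 / 2)
    (h2 : 1 ≤ 8 * Real.log 2 * (r * (1 - r))) :
    0 ≤ Real.binEntropy r - 4 * Real.log 2 * (r * (1 - r)) := by
  have hl := Real.log_two_gt_d9
  have hg : ∀ x ∈ Set.Icc r (1 / 2 : ℝ),
      Real.log (1 - x) - Real.log x - 4 * Real.log 2 * (1 - 2 * x) ≤ 0 := by
    have hmono : MonotoneOn
        (fun x => Real.log (1 - x) - Real.log x - 4 * Real.log 2 * (1 - 2 * x))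
        (Set.Icc r (1 / 2 : ℝ)) := by
      refine monotoneOn_of_deriv_nonneg (convex_Icc r (1 / 2)) ?_ ?_ ?_
      · intro x hx
        exact (g_deriv (by linarith [hx.1]) (by linarith [hx.2])).continuousAt.continuousWithinAt
      · intro x hx
        rw [interior_Icc] at hx
        exact (g_deriv (by linarith [hx.1])
          (by linarith [hx.2])).differentiableAt.differentiableWithinAt
      · intro x hx
        rw [interior_Icc] at hx
        have hx0 : 0 < x := by linarith [hx.1]
        have hx1 : 0 < 1 - x := by linarith [hx.2]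
        rw [(g_deriv hx0 (by linarith)).deriv]
        have h3 : 1 ≤ 8 * Real.log 2 * (x * (1 - x)) := by
          have h4 : r * (1 - r) ≤ x * (1 - x) := by nlinarith [hx.1, hx.2]
          have h5 := mul_le_mul_of_nonneg_left h4 (by linarith : 0 ≤ 8 * Real.log 2)
          linarith
        have h4 : 1 / (x * (1 - x)) ≤ 8 * Real.log 2 := by
          rw [div_le_iff₀ (by positivity)]
          exact h3
        linarith
    intro x hx
    have h3 := hmono hx (Set.right_mem_Icc.mpr h1) hx.2
    beta_reduce at h3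
    refine h3.trans (le_of_eq ?_)
    norm_num
  have hanti : AntitoneOn (fun x => Real.binEntropy x - 4 * Real.log 2 * (x * (1 - x)))
      (Set.Icc r (1 / 2 : ℝ)) := by
    refine antitoneOn_of_deriv_nonpos (convex_Icc r (1 / 2)) f_cont.continuousOn ?_ ?_
    · intro x hx
      rw [interior_Icc] at hx
      exact (f_deriv (by linarith [hx.1])
        (by linarith [hx.2])).differentiableAt.differentiableWithinAt
    · intro x hx
      rw [interior_Icc] at hx
      rw [(f_deriv (by linarith [hx.1]) (by linarith [hx.2])).deriv]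
      exact hg x ⟨hx.1.le, hx.2.le⟩
  have h3 := hanti (Set.left_mem_Icc.mpr h1) (Set.right_mem_Icc.mpr h1) h1
  beta_reduce at h3
  rw [f_half] at h3
  exact h3

theorem ent_ge {r : ℝ} (h0 : 0 < r) (h1 : r ≤ 1 / 2) :
    4 * Real.log 2 * (r * (1 - r)) ≤ Real.binEntropy r := by
  have hl := Real.log_two_gt_d9
  suffices h : 0 ≤ Real.binEntropy r - 4 * Real.log 2 * (r * (1 - r)) by linarith
  by_cases h2 : 1 ≤ 8 * Real.log 2 * (r * (1 - r))
  · exact caseA h0 h1 h2
  push Not at h2
  -- the point a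
  have hcont : ContinuousOn (fun x : ℝ => 8 * Real.log 2 * (x * (1 - x)))
      (Set.Icc r (1 / 2)) := by fun_prop
  have hmem : (1 : ℝ) ∈ Set.Icc (8 * Real.log 2 * (r * (1 - r)))
      (8 * Real.log 2 * ((1 / 2) * (1 - 1 / 2))) := by
    constructor
    · exact h2.le
    · norm_num
      linarith
  obtain ⟨a, ha, hae⟩ := intermediate_value_Icc h1 hcont hmem
  beta_reduce at hae
  have ha0 : 0 < a := lt_of_lt_of_le h0 ha.1
  have hfa := caseA ha0 ha.2 hae.ge
  have hconc : ConcaveOn ℝ (Set.Icc 0 a)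
      (fun x => Real.binEntropy x - 4 * Real.log 2 * (x * (1 - x))) := by
    refine concaveOn_of_hasDerivWithinAt2_nonpos (convex_Icc 0 a) f_cont.continuousOn
      (f' := fun x => Real.log (1 - x) - Real.log x - 4 * Real.log 2 * (1 - 2 * x))
      (f'' := fun x => 8 * Real.log 2 - 1 / (x * (1 - x))) ?_ ?_ ?_
    · intro x hx
      rw [interior_Icc] at hx
      exact (f_deriv hx.1 (by linarith [hx.2, ha.2])).hasDerivWithinAt
    · intro x hx
      rw [interior_Icc] at hx
      exact (g_deriv hx.1 (by linarith [hx.2, ha.2])).hasDerivWithinAt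
    · intro x hx
      rw [interior_Icc] at hx
      have hx1 : 0 < 1 - x := by linarith [hx.2, ha.2]
      have hx0 : 0 < x := hx.1
      have h4 : x * (1 - x) ≤ a * (1 - a) := by nlinarith [hx.1, hx.2, ha.2]
      have h5 := mul_le_mul_of_nonneg_left h4 (by linarith : 0 ≤ 8 * Real.log 2)
      have h6 : 8 * Real.log 2 ≤ 1 / (x * (1 - x)) := by
        rw [le_div_iff₀ (by positivity)]
        linarith
      linarith
  have hseg := hconc.ge_on_segment (Set.left_mem_Icc.mpr ha0.le) (Set.right_mem_Icc.mpr ha0.le)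
    (z := r) (by rw [segment_eq_Icc ha0.le]; exact ⟨h0.le, ha.1⟩)
  beta_reduce at hseg
  refine le_trans (le_min ?_ hfa) hseg
  simp

theorem log_choose_ge {p h : ℕ} (h1 : 1 ≤ h) (h2 : h ≤ p) :
    h * Real.log ((p : ℝ) / h) ≤ Real.log (p.choose h) := by
  have key : ∀ h : ℕ, 1 ≤ h → ∀ p : ℕ, h ≤ p → ((p : ℝ) / h) ^ h ≤ (p.choose h : ℝ) := by
    intro h hh
    induction h, hh using Nat.le_induction with
    | base =>
      intro p _
      simp
    | succ h hh ih =>
      intro p hp
      obtain ⟨p', rfl⟩ : ∃ p', p = p' + 1 := ⟨p - 1, by omega⟩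
      have hp' : h ≤ p' := by omega
      have h3 := ih p' hp'
      have h4 := Nat.add_one_mul_choose_eq p' h
      have hh0 : (0 : ℝ) < h := by exact_mod_cast (by omega : 0 < h)
      have hhp : (h : ℝ) ≤ p' := by exact_mod_cast hp'
      have h5 : ((p' : ℝ) + 1) * (p'.choose h : ℝ) =
          ((p' + 1).choose (h + 1) : ℝ) * ((h : ℝ) + 1) := by
        have h6 : (((p' + 1) * p'.choose h : ℕ) : ℝ) =
            (((p' + 1).choose (h + 1) * (h + 1) : ℕ) : ℝ) := by
          exact_mod_cast h4
        push_cast at h6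
        exact h6
      have h6 : ((p' + 1).choose (h + 1) : ℝ) =
          ((p' : ℝ) + 1) / ((h : ℝ) + 1) * (p'.choose h : ℝ) := by
        field_simp
        linarith
      have h7 : ((p' : ℝ) + 1) / ((h : ℝ) + 1) ≤ (p' : ℝ) / h := by
        rw [div_le_div_iff₀ (by positivity) hh0]
        nlinarith
      rw [h6]
      push_cast
      calc (((p' : ℝ) + 1) / ((h : ℝ) + 1)) ^ (h + 1)
          = ((p' : ℝ) + 1) / ((h : ℝ) + 1) * (((p' : ℝ) + 1) / ((h : ℝ) + 1)) ^ h := by ring
        _ ≤ ((p' : ℝ) + 1) / ((h : ℝ) + 1) * ((p' : ℝ) / h) ^ h :=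
            mul_le_mul_of_nonneg_left (pow_le_pow_left₀ (by positivity) h7 h) (by positivity)
        _ ≤ ((p' : ℝ) + 1) / ((h : ℝ) + 1) * (p'.choose h : ℝ) :=
            mul_le_mul_of_nonneg_left h3 (by positivity)
  have hh0 : (0 : ℝ) < h := by exact_mod_cast (by omega : 0 < h)
  have hp0 : (0 : ℝ) < p := by exact_mod_cast (by omega : 0 < p)
  have h3 := Real.log_le_log (by positivity) (key h h1 p h2)
  rw [Real.log_pow] at h3
  exact h3

theorem log_choose_third {n k : ℕ} (hk : k ≤ n) :
    Real.log (n.choose k) ≤ n * Real.log (3 / 2) + k * Real.log 2 := by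
  have hC : (0 : ℝ) < n.choose k := by exact_mod_cast Nat.choose_pos hk
  have h1 : (n.choose k : ℝ) * ((1 / 3 : ℝ) ^ k * (2 / 3 : ℝ) ^ (n - k)) ≤ 1 := by
    have h2 := add_pow (1 / 3 : ℝ) (2 / 3) n
    have h3 : (1 / 3 : ℝ) + 2 / 3 = 1 := by norm_num
    rw [h3, one_pow] at h2
    have h4 := Finset.single_le_sum (s := Finset.range (n + 1))
      (f := fun i => (1 / 3 : ℝ) ^ i * (2 / 3 : ℝ) ^ (n - i) * (n.choose i : ℝ))
      (fun i _ => by positivity) (Finset.mem_range.mpr (by omega : k < n + 1))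
    rw [← h2] at h4
    linarith
  have h2 : Real.log ((n.choose k : ℝ) * ((1 / 3 : ℝ) ^ k * (2 / 3 : ℝ) ^ (n - k))) ≤ 0 :=
    Real.log_nonpos (by positivity) h1
  rw [Real.log_mul hC.ne' (by positivity), Real.log_mul (by positivity) (by positivity),
    Real.log_pow, Real.log_pow, Nat.cast_sub hk] at h2
  have h3 : Real.log (1 / 3 : ℝ) = -Real.log 3 := by rw [one_div, Real.log_inv]
  have h4 : Real.log (2 / 3 : ℝ) = Real.log 2 - Real.log 3 :=
    Real.log_div (by norm_num) (by norm_num)
  have h5 : Real.log (3 / 2 : ℝ) = Real.log 3 - Real.log 2 :=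
    Real.log_div (by norm_num) (by norm_num)
  rw [h3, h4] at h2
  rw [h5]
  linarith

theorem log_choose_two {n k : ℕ} (hk : k ≤ n) :
    Real.log (n.choose k) ≤ n * Real.log 2 := by
  have hC : (0 : ℝ) < n.choose k := by exact_mod_cast Nat.choose_pos hk
  have h1 : (n.choose k : ℝ) ≤ 2 ^ n := by exact_mod_cast Nat.choose_le_two_pow n k
  have h2 := Real.log_le_log hC h1
  rwa [Real.log_pow] at h2

end Pool.Agent.H14.KD
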