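import Pool.Agent.H14.KD.NA
import Pool.Agent.H14.KD.NB
import Pool.Agent.H70.KP.EN

/-!
# [H14 KD NC] the cost of a tuple beats log N

Let p = n - k, h = n - 2k >= 1, r = rr n k 1 = h/p in (0, 1/2], so p = n/(2 - r), (1 - r) p = k, h = r p;
DD n k = C(p,k) = C(p,h). q = ceil(1/r), cost = q - q (q-1)/2 * r.
cost_half: (q - 1) r <= 1 (q < 1/r + 1), so cost = q (1 - (q-1) r/2) >= q/2.
cost_ge: q = 1/r + x, 0 <= x < 1: 2 cost = 1/r + 1 + x (1 - x) r >= 1/r + 1.
cost_log: log N <= n log 2 (log_choose_two), log 2 in (0.6931, 0.6932).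
(i) r <= 1/17: cost >= 1/(2r) = p/(2h), log DD >= h log (p/h) (log_choose_ge), p >= n/2, log 17 >= 2.833:
cost log DD >= (p/2) log 17 >= 0.708 n >= 1.01 n log 2.
(ii) 1/17 <= r <= 9/20: le_log_choose (for p and h, 1 <= h < p) and ent_ge: log DD >= 4 log 2 p r (1-r) -
log (n+1). cost >= (1+r)/(2r) and (1+r)/(2r) <= 9 (if the lower bound for log DD is negative nothing
is to prove? no: n is large, it is positive): cost log DD >= 2 log 2 p (1 - r^2) - 9 log (n+1) =
log 2 * n * 2 (1 - r^2)/(2 - r) - 9 log (n+1) >= 1.026 n log 2 - 9 log (n+1), because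
- 2 r^2 + 1.026 r - 0.052 >= 0 on [1/17, 9/20] (concave, >= 0 at both ends). n >= 10^4: 0.016 n log 2 >=
9 log (n+1).
(iii) 9/20 <= r <= 1/2: q = 2 (r = 1/2) or q = 3 (2 < 1/r <= 20/9): cost = 3 (1 - r) in both cases.
log DD >= 4 log 2 p r (1-r) - log (n+1), r (1 - r) >= 0.2475, (1 - r) p = k: cost log DD >=
2.97 log 2 k - 3 log (n+1) >= 2.058 k - 3 log (n+1). log N <= n log (3/2) + k log 2 <= 1.91 k
(log_choose_third, n <= 3 k, log (3/2) <= 0.40547). 2.058 k - 3 log (n+1) >= 1.01 * 1.91 k = 1.9291 k for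
n >= 10^4.
-/

namespace Pool.Agent.H14.KD

open Finset
open Pool.Agent.H70.KG (KS DD S gf up0 up pr pr0)
open Pool.Agent.H70.KP (Sta Ex E1 Mild sz rr dis nea TS nc tg WW)

theorem cost_half {r : ℝ} (h0 : 0 < r) (h1 : r ≤ 1 / 2) :
    ((⌈1 / r⌉₊ : ℕ) : ℝ) / 2 ≤
      (⌈1 / r⌉₊ : ℕ) - (⌈1 / r⌉₊ : ℕ) * ((⌈1 / r⌉₊ : ℕ) - 1) / 2 * r := by
  have h2 : ((⌈1 / r⌉₊ : ℕ) : ℝ) < 1 / r + 1 := Nat.ceil_lt_add_one (by positivity)
  set q := ((⌈1 / r⌉₊ : ℕ) : ℝ) with hq
  have hq0 : 0 ≤ q := Nat.cast_nonneg _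
  have h3 : (q - 1) * r ≤ 1 := by
    have h4 : q - 1 ≤ 1 / r := by linarith
    rw [le_div_iff₀ h0] at h4
    exact h4
  nlinarith

theorem cost_ge {r : ℝ} (h0 : 0 < r) (h1 : r ≤ 1 / 2) :
    (1 / r + 1) / 2 ≤
      (⌈1 / r⌉₊ : ℕ) - (⌈1 / r⌉₊ : ℕ) * ((⌈1 / r⌉₊ : ℕ) - 1) / 2 * r := by
  have h2 : ((⌈1 / r⌉₊ : ℕ) : ℝ) < 1 / r + 1 := Nat.ceil_lt_add_one (by positivity)
  have h3 : 1 / r ≤ ((⌈1 / r⌉₊ : ℕ) : ℝ) := Nat.le_ceil _
  set q := ((⌈1 / r⌉₊ : ℕ) : ℝ) with hq
  set s := 1 / r with hs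
  have hrs : r * s = 1 := by
    rw [hs]
    field_simp
  have h4 : 2 * q - q * (q - 1) * r - s - 1 = r * ((q - s) * (s + 1 - q)) := by
    linear_combination (-(2 * q - s - 1)) * hrs
  have h5 : 0 ≤ r * ((q - s) * (s + 1 - q)) :=
    mul_nonneg h0.le (mul_nonneg (by linarith) (by linarith))
  linarith

private theorem log_small {n : ℕ} (hn : 10000 ≤ n) :
    Real.log ((n : ℝ) + 1) ≤ 123 / 100000 * n := by
  have hn' : (10000 : ℝ) ≤ n := by exact_mod_cast hn
  have h4 := Real.log_le_sub_one_of_pos (by positivity : (0 : ℝ) < ((n : ℝ) + 1) / 10000)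
  rw [Real.log_div (by positivity) (by norm_num)] at h4
  have h5 : Real.log 10000 ≤ 12 := by
    rw [Real.log_le_iff_le_exp (by norm_num)]
    have h6 : Real.exp 12 = Real.exp 1 ^ 12 := by
      rw [← Real.exp_nat_mul]
      norm_num
    rw [h6]
    have h7 : (2.7 : ℝ) ≤ Real.exp 1 := by
      have := Real.exp_one_gt_d9
      linarith
    have h8 : (2.7 : ℝ) ^ 12 ≤ Real.exp 1 ^ 12 := pow_le_pow_left₀ (by norm_num) h7 12
    have h9 : (10000 : ℝ) ≤ 2.7 ^ 12 := by norm_num
    linarith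
  linarith

private theorem log17 : 404 / 100 * Real.log 2 ≤ Real.log 17 := by
  have h1 : (2 : ℝ) ^ 101 ≤ 17 ^ 25 := by norm_num
  have h2 := Real.log_le_log (by positivity) h1
  rw [Real.log_pow, Real.log_pow] at h2
  push_cast at h2
  linarith

private theorem log32 : Real.log (3 / 2) ≤ 3 / 5 * Real.log 2 := by
  have h1 : (3 / 2 : ℝ) ^ 5 ≤ 2 ^ 3 := by norm_num
  have h2 := Real.log_le_log (by positivity) h1
  rw [Real.log_pow, Real.log_pow] at h2
  push_cast at h2
  linarith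

private lemma quad_one {r : ℝ} (h1 : 1 / 17 ≤ r) (h2 : r ≤ 9 / 20) :
    0 ≤ -2 * r ^ 2 + 1026 / 1000 * r - 52 / 1000 := by
  nlinarith

private lemma quad_two {r : ℝ} (h1 : 9 / 20 ≤ r) (h2 : r ≤ 1 / 2) :
    2475 / 10000 ≤ r * (1 - r) := by
  nlinarith

private lemma cost_three {r : ℝ} (h20 : 9 / 20 ≤ r) (hrh : r ≤ 1 / 2) :
    ((⌈1 / r⌉₊ : ℕ) : ℝ) - (⌈1 / r⌉₊ : ℕ) * ((⌈1 / r⌉₊ : ℕ) - 1) / 2 * r = 3 * (1 - r) := by
  have hr0 : 0 < r := by linarith
  rcases eq_or_lt_of_le hrh with h4 | h4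
  · have h5 : ⌈1 / r⌉₊ = 2 := by
      rw [h4, one_div_one_div]
      exact Nat.ceil_ofNat 2
    rw [h5, h4]
    push_cast
    ring
  · have h5 : ⌈1 / r⌉₊ = 3 := by
      have h6 : ⌈1 / r⌉₊ ≤ 3 := by
        refine Nat.ceil_le.mpr ?_
        rw [div_le_iff₀ hr0]
        push_cast
        linarith
      have h7 : 2 < ⌈1 / r⌉₊ := by
        refine Nat.lt_ceil.mpr ?_
        rw [lt_div_iff₀ hr0]
        push_cast
        linarith
      omega
    rw [h5]
    push_cast
    ring

theorem cost_log {n k q : ℕ} (hn : 10000 ≤ n) (h3 : n ≤ 3 * k) (hk : 2 * k + 1 ≤ n)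
    (hq : q = ⌈1 / rr n k 1⌉₊) :
    101 / 100 * Real.log (n.choose k) ≤
      (q - q * (q - 1) / 2 * rr n k 1) * Real.log (DD n k) := by
  have hn' : (10000 : ℝ) ≤ n := by exact_mod_cast hn
  have h3' : (n : ℝ) ≤ 3 * k := by exact_mod_cast h3
  have hk' : (2 : ℝ) * k + 1 ≤ n := by exact_mod_cast hk
  have hl2 := Real.log_two_gt_d9
  have hk1 : 1 ≤ k := by omega
  have hk0 : (1 : ℝ) ≤ k := by exact_mod_cast hk1
  have hr := rr_one hk1 (by omega : 2 * k ≤ n)
  have hrh := rr_le_half hk1 (by omega : 2 * k ≤ n) h3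
  set r := rr n k 1 with hrd
  set p : ℝ := (n : ℝ) - k with hp
  set h : ℝ := (n : ℝ) - 2 * k with hh
  have hp0 : 0 < p := by rw [hp]; linarith
  have hh1 : 1 ≤ h := by rw [hh]; linarith
  have hh0 : 0 < h := by linarith
  have hr0 : 0 < r := by rw [hr]; positivity
  have hrp : r * p = h := by
    rw [hr]
    exact div_mul_cancel₀ _ hp0.ne'
  have hkp : (1 - r) * p = k := by
    have : (1 - r) * p = p - r * p := by ring
    rw [this, hrp, hp, hh]
    ring
  have hnp : (n : ℝ) = p * (2 - r) := by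
    have : p * (2 - r) = 2 * p - r * p := by ring
    rw [this, hrp, hp, hh]
    ring
  have hD1 : (1 : ℝ) ≤ DD n k := by
    unfold Pool.Agent.H70.KG.DD
    exact_mod_cast Nat.choose_pos (by omega : k ≤ n - k)
  have hlogD : 0 ≤ Real.log (DD n k) := Real.log_nonneg hD1
  have hDh : DD n k = (((n - k).choose (n - 2 * k) : ℕ) : ℝ) := by
    unfold Pool.Agent.H70.KG.DD
    have h4 : (n - k).choose k = (n - k).choose (n - 2 * k) := by
      rw [← Nat.choose_symm (by omega : k ≤ n - k)]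
      congr 1
      omega
    rw [h4]
  have cp : ((n - k : ℕ) : ℝ) = p := by
    rw [hp]
    exact Nat.cast_sub (by omega)
  have ch : ((n - 2 * k : ℕ) : ℝ) = h := by
    rw [hh, Nat.cast_sub (by omega)]
    push_cast
    ring
  have hcost := cost_ge hr0 hrh
  rw [← hq] at hcost
  have hlogN2 := log_choose_two (n := n) (k := k) (by omega)
  -- the entropy bound
  have hent : 4 * Real.log 2 * (r * (1 - r)) * p - Real.log ((n : ℝ) + 1) ≤
      Real.log (DD n k) := by
    have h4 := Pool.Agent.H70.KP.le_log_choose (n := n - k) (k := n - 2 * k) (by omega) (by omega)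
    rw [cp, ch, ← hDh] at h4
    have h5 : h / p = r := by rw [hr]
    rw [h5] at h4
    have h6 := ent_ge hr0 hrh
    have h7 := mul_le_mul_of_nonneg_left h6 hp0.le
    have h8 : Real.log (p + 1) ≤ Real.log ((n : ℝ) + 1) := by
      refine Real.log_le_log (by linarith) ?_
      rw [hp]
      linarith
    linarith
  have hls := log_small hn
  rcases le_total r (1 / 17) with h17 | h17
  · -- case (i)
    have h4 := log_choose_ge (p := n - k) (h := n - 2 * k) (by omega) (by omega)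
    rw [cp, ch, ← hDh] at h4
    have h5 : Real.log 17 ≤ Real.log (p / h) := by
      refine Real.log_le_log (by norm_num) ?_
      rw [le_div_iff₀ hh0, ← hrp]
      nlinarith
    have h6 : h * Real.log 17 ≤ Real.log (DD n k) :=
      (mul_le_mul_of_nonneg_left h5 hh0.le).trans h4
    have h7 : 1 / r / 2 ≤ (q : ℝ) - q * (q - 1) / 2 * r := by
      have : 0 < 1 / r := by positivity
      linarith
    have h8 : 1 / r / 2 * (h * Real.log 17) ≤
        ((q : ℝ) - q * (q - 1) / 2 * r) * Real.log (DD n k) := by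
      refine mul_le_mul h7 h6 ?_ (le_trans (by positivity) h7)
      exact mul_nonneg hh0.le (Real.log_nonneg (by norm_num))
    have h9 : 1 / r / 2 * (h * Real.log 17) = p / 2 * Real.log 17 := by
      rw [← hrp]
      field_simp
    rw [h9] at h8
    have h10 : (n : ℝ) / 4 * Real.log 17 ≤ p / 2 * Real.log 17 := by
      refine mul_le_mul_of_nonneg_right ?_ (Real.log_nonneg (by norm_num))
      rw [hp]
      linarith
    have h11 := log17
    have h12 : (n : ℝ) / 4 * (404 / 100 * Real.log 2) ≤ (n : ℝ) / 4 * Real.log 17 :=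
      mul_le_mul_of_nonneg_left h11 (by positivity)
    linarith
  · rcases le_total r (9 / 20) with h20 | h20
    · -- case (ii)
      have h7 : (1 + r) / (2 * r) ≤ (q : ℝ) - q * (q - 1) / 2 * r := by
        have h8 : (1 + r) / (2 * r) = (1 / r + 1) / 2 := by
          field_simp
        rw [h8]
        exact hcost
      have hc0 : 0 ≤ (1 + r) / (2 * r) := by positivity
      have h8 : (1 + r) / (2 * r) * Real.log (DD n k) ≤
          ((q : ℝ) - q * (q - 1) / 2 * r) * Real.log (DD n k) :=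
        mul_le_mul_of_nonneg_right h7 hlogD
      have h9 := mul_le_mul_of_nonneg_left hent hc0
      have h10 : (1 + r) / (2 * r) *
          (4 * Real.log 2 * (r * (1 - r)) * p - Real.log ((n : ℝ) + 1)) =
          2 * Real.log 2 * ((1 - r ^ 2) * p) - (1 + r) / (2 * r) * Real.log ((n : ℝ) + 1) := by
        field_simp
        ring
      rw [h10] at h9
      have h11 : (1 + r) / (2 * r) ≤ 9 := by
        rw [div_le_iff₀ (by positivity)]
        linarith
      have hlog0 : 0 ≤ Real.log ((n : ℝ) + 1) := Real.log_nonneg (by linarith)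
      have h12 : (1 + r) / (2 * r) * Real.log ((n : ℝ) + 1) ≤ 9 * Real.log ((n : ℝ) + 1) :=
        mul_le_mul_of_nonneg_right h11 hlog0
      have h13 : 1026 / 1000 * (n : ℝ) ≤ 2 * ((1 - r ^ 2) * p) := by
        rw [hnp]
        have h15 := mul_nonneg hp0.le (quad_one h17 h20)
        linarith
      have h14 := mul_le_mul_of_nonneg_left h13 (by linarith : 0 ≤ Real.log 2)
      have h15 : 693 / 1000 * (n : ℝ) ≤ Real.log 2 * n :=
        mul_le_mul_of_nonneg_right (by linarith) (by linarith)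
      linarith
    · -- case (iii)
      have hc : (q : ℝ) - q * (q - 1) / 2 * r = 3 * (1 - r) := by
        rw [hq]
        exact cost_three h20 hrh
      rw [hc]
      have h4 : 2475 / 10000 ≤ r * (1 - r) := quad_two h20 hrh
      have h5 := log_choose_third (n := n) (k := k) (by omega)
      have h6 := log32
      have h32 : 0 ≤ Real.log (3 / 2) := Real.log_nonneg (by norm_num)
      have h7 : (n : ℝ) * Real.log (3 / 2) ≤ 3 * k * Real.log (3 / 2) :=
        mul_le_mul_of_nonneg_right h3' h32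
      have h8 : 3 * (k : ℝ) * Real.log (3 / 2) ≤ 3 * k * (3 / 5 * Real.log 2) :=
        mul_le_mul_of_nonneg_left h6 (by positivity)
      have h9 : 4 * Real.log 2 * (2475 / 10000) * p ≤ 4 * Real.log 2 * (r * (1 - r)) * p := by
        refine mul_le_mul_of_nonneg_right ?_ hp0.le
        exact mul_le_mul_of_nonneg_left h4 (by linarith)
      have h10 : 4 * Real.log 2 * (2475 / 10000) * p - Real.log ((n : ℝ) + 1) ≤
          Real.log (DD n k) := by linarith
      have h11 := mul_le_mul_of_nonneg_left h10 (by linarith : 0 ≤ 3 * (1 - r))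
      have h12 : 3 * (1 - r) * (4 * Real.log 2 * (2475 / 10000) * p -
          Real.log ((n : ℝ) + 1)) =
          297 / 100 * Real.log 2 * ((1 - r) * p) - 3 * (1 - r) * Real.log ((n : ℝ) + 1) := by
        ring
      rw [h12, hkp] at h11
      have hlog0 : 0 ≤ Real.log ((n : ℝ) + 1) := Real.log_nonneg (by linarith)
      have h13 : 3 * (1 - r) * Real.log ((n : ℝ) + 1) ≤ 3 * Real.log ((n : ℝ) + 1) :=
        mul_le_mul_of_nonneg_right (by linarith) hlog0
      have h14 : 69 / 100 * (k : ℝ) ≤ Real.log 2 * k :=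
        mul_le_mul_of_nonneg_right (by linarith) (by linarith)
      linarith

end Pool.Agent.H14.KD
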