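import Pool.Agent.H14.KD.NA
import Pool.Agent.H14.KD.NB

/-!
# [H14 KD ND] the choice of j, and D is large

Let L = log n, p = n - k, h = n - 2k >= h0 = 208 C2 + 1, r = rr n k 1 = h/p in (0, 1/2], j =
ceil(11 L/log (1/r)). log (1/r) >= log 2 >= 0.69.
* j >= 1; rr j <= r^j (rr_pow) and r^j = exp (- j log (1/r)) <= exp (-11 L) = n^-11.
* 2 j <= 2 (16 L + 1) <= n/3 <= k for large n.
* log DD >= h log (p/h) = h log (1/r) (log_choose_ge; DD = C(p,k) = C(p,h)). j + 1 <= 11 L/log (1/r) + 2 and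
log (1/r) <= log p <= L, so 2 <= 2 L/log (1/r) and (j + 1) L <= 13 L^2/log (1/r). It is enough that
h (log (1/r))^2 >= 13 C2 L^2. If h^2 <= n: p/h >= (n/2)/sqrt n = sqrt n/2 >= n^(1/4) (n >= 16), so
log (1/r) >= L/4 and h/16 >= 13 C2. If h^2 > n: h (log 2)^2 >= 0.47 sqrt n >= 13 C2 L^2 for n >= n1(C2)
(log n = o(n^(1/8)): Real.isLittleO_log_rpow_atTop or isLittleO_pow_log_id_atTop).
-/

namespace Pool.Agent.H14.KD

open Finset
open Pool.Agent.H70.KG (KS DD S gf up0 up pr pr0)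
open Pool.Agent.H70.KP (Sta Ex E1 Mild sz rr dis nea TS nc tg WW)

/-- The asymptotic inequalities that `n` must satisfy. -/
private theorem eventual (C2 : ℕ) : ∃ n1 : ℕ, ∀ n : ℕ, n1 ≤ n →
    3 ≤ Real.log n ∧ 2 * (16 * Real.log n + 1) ≤ (n : ℝ) / 3 ∧
      13 * C2 * Real.log n ^ 2 ≤ 47 / 100 * Real.sqrt n := by
  have e1 : ∀ᶠ x : ℝ in Filter.atTop, 3 ≤ Real.log x :=
    Real.tendsto_log_atTop.eventually_ge_atTop 3
  have e2 : ∀ᶠ x : ℝ in Filter.atTop, ‖Real.log x‖ ≤ 1 / 200 * ‖id x‖ :=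
    Real.isLittleO_log_id_atTop.bound (by norm_num)
  have hc : (0 : ℝ) < 47 / 100 / (13 * C2 + 1) := by positivity
  have e3 : ∀ᶠ x : ℝ in Filter.atTop,
      ‖Real.log x ^ (2 : ℝ)‖ ≤ 47 / 100 / (13 * C2 + 1) * ‖x ^ (1 / 2 : ℝ)‖ :=
    (isLittleO_log_rpow_rpow_atTop 2 (by norm_num : (0 : ℝ) < 1 / 2)).bound hc
  have e4 : ∀ᶠ x : ℝ in Filter.atTop, (12 : ℝ) ≤ x := Filter.eventually_ge_atTop 12
  have e5 := tendsto_natCast_atTop_atTop.eventually (e1.and (e2.and (e3.and e4)))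
  obtain ⟨n1, hn1⟩ := Filter.eventually_atTop.mp e5
  refine ⟨n1, fun n hn => ?_⟩
  obtain ⟨h1, h2, h3, h4⟩ := hn1 n hn
  have hn0 : (0 : ℝ) ≤ n := by linarith
  refine ⟨h1, ?_, ?_⟩
  · rw [Real.norm_of_nonneg (by linarith), id, Real.norm_of_nonneg hn0] at h2
    linarith
  · rw [Real.norm_of_nonneg (Real.rpow_nonneg (by linarith) _),
      Real.norm_of_nonneg (Real.rpow_nonneg hn0 _), Real.rpow_two, ← Real.sqrt_eq_rpow] at h3
    have h5 : 0 ≤ Real.log n ^ 2 := by positivity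
    have h6 : (13 * (C2 : ℝ) + 1) * Real.log n ^ 2 ≤ 47 / 100 * Real.sqrt n := by
      have h7 := mul_le_mul_of_nonneg_left h3 (by positivity : (0 : ℝ) ≤ 13 * C2 + 1)
      have h8 : (13 * (C2 : ℝ) + 1) * (47 / 100 / (13 * C2 + 1) * Real.sqrt n) =
          47 / 100 * Real.sqrt n := by
        field_simp
      linarith
    linarith

/-- The inequality behind the choice of `j`. -/
private theorem key {n h : ℕ} {w C2 : ℝ} (hC : 0 ≤ C2) (hn0 : (0 : ℝ) < n) (hL : 3 ≤ Real.log n)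
    (h3 : 13 * C2 * Real.log n ^ 2 ≤ 47 / 100 * Real.sqrt n) (hh : 208 * C2 + 1 ≤ h)
    (hw : Real.log 2 ≤ w) (hwp : Real.log n - Real.log 2 - Real.log h ≤ w) :
    13 * C2 * Real.log n ^ 2 ≤ h * w ^ 2 := by
  have hl2 := Real.log_two_gt_d9
  have hl3 := Real.log_two_lt_d9
  have hh0 : (0 : ℝ) < h := by linarith
  rcases le_total ((h : ℝ) ^ 2) n with h4 | h4
  · have h5 : Real.log h ≤ Real.log n / 2 := by
      have h6 := Real.log_le_log (by positivity) h4
      rw [Real.log_pow] at h6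
      push_cast at h6
      linarith
    have h6 : Real.log n / 4 ≤ w := by linarith
    have h7 : (Real.log n / 4) ^ 2 ≤ w ^ 2 := pow_le_pow_left₀ (by linarith) h6 2
    have h8 : (208 * C2) * (Real.log n / 4) ^ 2 ≤ h * w ^ 2 :=
      mul_le_mul (by linarith) h7 (by positivity) hh0.le
    linarith
  · have h5 : Real.sqrt n ≤ h := by
      rw [Real.sqrt_le_left hh0.le]
      exact h4
    have h6 : (47 / 100 : ℝ) ≤ w ^ 2 := by
      have h7 : (69 / 100 : ℝ) ^ 2 ≤ w ^ 2 := pow_le_pow_left₀ (by norm_num) (by linarith) 2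
      linarith
    have h7 : Real.sqrt n * (47 / 100) ≤ h * w ^ 2 :=
      mul_le_mul h5 h6 (by norm_num) hh0.le
    linarith

theorem exists_j (C2 : ℕ) : ∃ h0 n1 : ℕ, ∀ n k : ℕ, n1 ≤ n → n ≤ 3 * k → 2 * k + h0 ≤ n →
    ∃ j : ℕ, 1 ≤ j ∧ 2 * j ≤ k ∧ (n : ℝ) ^ 11 * rr n k j ≤ 1 ∧
      C2 * (j + 1) * Real.log n ≤ Real.log (DD n k) := by
  obtain ⟨n1, hn1⟩ := eventual C2
  refine ⟨208 * C2 + 1, max n1 1, fun n k hn h3 hk => ?_⟩
  obtain ⟨hL, hb, hc⟩ := hn1 n ((le_max_left _ _).trans hn)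
  have hn1' : 1 ≤ n := (le_max_right _ _).trans hn
  have hl2 := Real.log_two_gt_d9
  have hk1 : 1 ≤ k := by omega
  have hn0 : (0 : ℝ) < n := by exact_mod_cast hn1'
  have h3' : (n : ℝ) ≤ 3 * k := by exact_mod_cast h3
  have hk' : (2 : ℝ) * k + (208 * C2 + 1) ≤ n := by exact_mod_cast hk
  have hC0 : (0 : ℝ) ≤ C2 := Nat.cast_nonneg _
  have hr := rr_one hk1 (by omega : 2 * k ≤ n)
  have hrh := rr_le_half hk1 (by omega : 2 * k ≤ n) h3
  have hrj := rr_pow hk1 (by omega : 2 * k ≤ n)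
  set r := rr n k 1 with hrd
  have cp : ((n - k : ℕ) : ℝ) = (n : ℝ) - k := Nat.cast_sub (by omega)
  have ch : ((n - 2 * k : ℕ) : ℝ) = (n : ℝ) - 2 * k := by
    rw [Nat.cast_sub (by omega)]
    push_cast
    ring
  have hp0 : 0 < (n : ℝ) - k := by linarith
  have hh0 : 0 < (n : ℝ) - 2 * k := by linarith
  have hr0 : 0 < r := by rw [hr]; positivity
  set w := Real.log (1 / r) with hw
  have hw2 : Real.log 2 ≤ w := by
    refine Real.log_le_log (by norm_num) ?_
    rw [le_div_iff₀ hr0]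
    linarith
  have hw0 : 0 < w := by linarith
  have hwe : w = Real.log ((n : ℝ) - k) - Real.log ((n : ℝ) - 2 * k) := by
    rw [hw, hr, one_div_div, Real.log_div hp0.ne' hh0.ne']
  have hlh : 0 ≤ Real.log ((n : ℝ) - 2 * k) := Real.log_nonneg (by linarith)
  have hlp : Real.log ((n : ℝ) - k) ≤ Real.log n := Real.log_le_log hp0 (by linarith)
  have hlp2 : Real.log n - Real.log 2 ≤ Real.log ((n : ℝ) - k) := by
    rw [← Real.log_div hn0.ne' (by norm_num)]
    exact Real.log_le_log (by positivity) (by linarith)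
  have hwL : w ≤ Real.log n := by linarith
  have hD : (n - 2 * k : ℕ) * w ≤ Real.log (DD n k) := by
    have h4 := log_choose_ge (p := n - k) (h := n - 2 * k) (by omega) (by omega)
    have h5 : (n - k).choose k = (n - k).choose (n - 2 * k) := by
      rw [← Nat.choose_symm (by omega : k ≤ n - k)]
      congr 1
      omega
    unfold Pool.Agent.H70.KG.DD
    rw [h5]
    rw [← Real.log_div hp0.ne' hh0.ne'] at hwe
    rw [hwe, ← cp, ← ch]
    exact h4
  have hkey : 13 * (C2 : ℝ) * Real.log n ^ 2 ≤ (n - 2 * k : ℕ) * w ^ 2 := by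
    refine key hC0 hn0 hL hc ?_ hw2 ?_
    · rw [ch]
      linarith
    · rw [ch]
      linarith
  set j := ⌈11 * Real.log n / w⌉₊ with hj
  have hj1 : 11 * Real.log n / w ≤ j := Nat.le_ceil _
  have hj2 : (j : ℝ) < 11 * Real.log n / w + 1 := Nat.ceil_lt_add_one (by positivity)
  have hj3 : 11 * Real.log n ≤ j * w := by
    rw [div_le_iff₀ hw0] at hj1
    exact hj1
  refine ⟨j, ?_, ?_, ?_, ?_⟩
  · have : (0 : ℝ) < j := lt_of_lt_of_le (by positivity) hj1
    exact_mod_cast this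
  · have h4 : 11 * Real.log n / w ≤ 16 * Real.log n := by
      rw [div_le_iff₀ hw0]
      have h5 : 16 * Real.log n * (69 / 100) ≤ 16 * Real.log n * w :=
        mul_le_mul_of_nonneg_left (by linarith) (by linarith)
      linarith
    have h5 : (2 : ℝ) * j ≤ k := by linarith
    exact_mod_cast h5
  · have h4 : r = Real.exp (-w) := by
      rw [hw, one_div, Real.log_inv, neg_neg, Real.exp_log hr0]
    have h5 : r ^ j = Real.exp (-(j * w)) := by
      rw [h4, ← Real.exp_nat_mul]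
      congr 1
      ring
    have h6 : (n : ℝ) ^ 11 = Real.exp (11 * Real.log n) := by
      have : (11 : ℝ) * Real.log n = ((11 : ℕ) : ℝ) * Real.log n := by norm_num
      rw [this, Real.exp_nat_mul, Real.exp_log hn0]
    calc (n : ℝ) ^ 11 * rr n k j ≤ (n : ℝ) ^ 11 * r ^ j :=
          mul_le_mul_of_nonneg_left (hrj j) (by positivity)
      _ = Real.exp (11 * Real.log n - j * w) := by
          rw [h5, h6, ← Real.exp_add]
          congr 1
      _ ≤ 1 := by
          rw [Real.exp_le_one_iff]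
          linarith
  · refine le_trans ?_ hD
    have h4 : ((j : ℝ) + 1) * w ≤ 13 * Real.log n := by
      have h5 : (j : ℝ) * w ≤ 11 * Real.log n + w := by
        have h6 := mul_le_mul_of_nonneg_right hj2.le hw0.le
        have h7 : (11 * Real.log n / w + 1) * w = 11 * Real.log n + w := by
          field_simp
        linarith
      linarith
    have h5 : (C2 : ℝ) * Real.log n * (((j : ℝ) + 1) * w) ≤
        C2 * Real.log n * (13 * Real.log n) :=
      mul_le_mul_of_nonneg_left h4 (mul_nonneg hC0 (by linarith))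
    have h6 : (C2 : ℝ) * (j + 1) * Real.log n * w ≤ ((n - 2 * k : ℕ) : ℝ) * w * w := by
      calc (C2 : ℝ) * (j + 1) * Real.log n * w = C2 * Real.log n * (((j : ℝ) + 1) * w) := by ring
        _ ≤ C2 * Real.log n * (13 * Real.log n) := h5
        _ = 13 * C2 * Real.log n ^ 2 := by ring
        _ ≤ (n - 2 * k : ℕ) * w ^ 2 := hkey
        _ = (n - 2 * k : ℕ) * w * w := by ring
    exact le_of_mul_le_mul_right h6 hw0

end Pool.Agent.H14.KD
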