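import Pool.Agent.H14.KD.NQ
import Pool.Agent.H14.KD.NC
import Pool.Agent.H14.KD.ND
import Pool.Agent.H31.Kn.K21Lower

/-!
# [H14 KD NF] the theorem for n/3 <= k <= n/2

Let h0, n1 be from exists_j 34000, H = h0 + 2, C = max 162 H (or 162 + H), n0 = max n1 10^4. Let
n >= n0, n <= 3 k, 2 k <= n; L = log n, N, D as usual.
(a) n < 2 k + H: take any maximal intersecting family F (exists_maximal in H31/Kn/K21Lower); its members are
k-subsets, F.card <= N. D = DD n k <= n^(n - 2k) <= n^H (KG.D_le_pow), D > 0, so N <= n^H (N/D) <= n^C (N/D).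
(b) n >= 2 k + H: j from exists_j, q = ceil(1/r), r = rr n k 1 in (0, 1/2] (rr_one, rr_le_half). q >= 2;
q < 1/r + 1 = (n-k)/(n-2k) + 1 <= n/2 + 1, so q + 1 <= n; q r <= 1 + r <= 3/2. h3: log D >= 34000 (j+1) L >=
(16 j + 208) L. h4: D_small. h5: cost := q - q (q-1)/2 r. By cost_log log N <= (100/101) cost log D, so
cost log D - log N >= cost log D/101 >= (q/202) log D (cost_half) >= (q/202) 34000 (j+1) L >=
(4 j + 162) q L (34000/202 > 168). Apply dense_family; n^162 <= n^C.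
-/

namespace Pool.Agent.H14.KD

open Finset
open Pool.Agent.H70.KG (KS DD S gf up0 up pr pr0)
open Pool.Agent.H70.KP (Sta Ex E1 Mild sz rr dis nea TS nc tg WW)

/-- The case `n < 2 k + H`. -/
private theorem near_half {n k H : ℕ} (hn : 1 ≤ n) (hk1 : 1 ≤ k) (hk : 2 * k ≤ n)
    (hH : n < 2 * k + H) :
    ∃ F : Finset (Finset (Fin n)), Maximal (Pool.Agent.H31.Kn.IsInt n k) F ∧
      (F.card : ℝ) ≤ (n : ℝ) ^ H * ((n.choose k : ℝ) / DD n k) := by
  obtain ⟨F, hF⟩ := Pool.Agent.H31.Kn.exists_maximal n k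
  refine ⟨F, hF, ?_⟩
  have hn1 : (1 : ℝ) ≤ n := by exact_mod_cast hn
  have hD : 0 < DD n k := by
    unfold Pool.Agent.H70.KG.DD
    exact_mod_cast Nat.choose_pos (by omega)
  have hN : (0 : ℝ) < n.choose k := by exact_mod_cast Nat.choose_pos (by omega)
  have hcard : F.card ≤ n.choose k := by
    have h1 : F ⊆ powersetCard k (univ : Finset (Fin n)) := by
      intro A hA
      rw [mem_powersetCard]
      exact ⟨subset_univ _, hF.prop.1 A hA⟩
    have h2 := card_le_card h1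
    rw [card_powersetCard, card_univ, Fintype.card_fin] at h2
    exact h2
  have hcard' : (F.card : ℝ) ≤ n.choose k := by exact_mod_cast hcard
  have h3 : DD n k ≤ (n : ℝ) ^ H :=
    (Pool.Agent.H70.KG.D_le_pow n k hk1 hk).trans (pow_le_pow_right₀ hn1 (by omega))
  have h4 : DD n k * ((n.choose k : ℝ) / DD n k) = n.choose k := by
    field_simp
  have h5 := mul_le_mul_of_nonneg_right h3 (by positivity : 0 ≤ (n.choose k : ℝ) / DD n k)
  linarith

/-- The case `n ≥ 2 k + H`. -/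
private theorem far_half {n k j : ℕ} (hn : 10000 ≤ n) (h3 : n ≤ 3 * k) (hk : 2 * k + 2 ≤ n)
    (hj : 1 ≤ j) (hjk : 2 * j ≤ k) (h2 : (n : ℝ) ^ 11 * rr n k j ≤ 1)
    (hLD : 34000 * ((j : ℝ) + 1) * Real.log n ≤ Real.log (DD n k)) :
    ∃ F : Finset (Finset (Fin n)), Maximal (Pool.Agent.H31.Kn.IsInt n k) F ∧
      (F.card : ℝ) ≤ (n : ℝ) ^ 162 * ((n.choose k : ℝ) / DD n k) := by
  have hn1 : (10000 : ℝ) ≤ n := by exact_mod_cast hn
  have hn0 : (0 : ℝ) < n := by linarith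
  have hk1 : 1 ≤ k := by omega
  have hk' : (2 : ℝ) * k + 2 ≤ n := by exact_mod_cast hk
  have hk0 : (1 : ℝ) ≤ k := by exact_mod_cast hk1
  have hL : 1 ≤ Real.log n := by
    rw [Real.le_log_iff_exp_le hn0]
    have := Real.exp_one_lt_d9
    linarith
  have hD : 0 < DD n k := by
    unfold Pool.Agent.H70.KG.DD
    exact_mod_cast Nat.choose_pos (by omega)
  have hr := rr_one hk1 (by omega : 2 * k ≤ n)
  have hrh := rr_le_half hk1 (by omega : 2 * k ≤ n) h3
  have hp0 : 0 < (n : ℝ) - k := by linarith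
  have hh0 : 0 < (n : ℝ) - 2 * k := by linarith
  have hr0 : 0 < rr n k 1 := by rw [hr]; positivity
  have hc1 := cost_log (q := ⌈1 / rr n k 1⌉₊) hn h3 (by omega) rfl
  have hc2 := cost_half hr0 hrh
  have hq1 : ((⌈1 / rr n k 1⌉₊ : ℕ) : ℝ) < 1 / rr n k 1 + 1 :=
    Nat.ceil_lt_add_one (by positivity)
  have hq2 : 2 ≤ ⌈1 / rr n k 1⌉₊ := by
    have : 1 < ⌈1 / rr n k 1⌉₊ := by
      rw [Nat.lt_ceil, lt_div_iff₀ hr0]
      push_cast
      linarith
    omega
  have hq3 : 1 / rr n k 1 ≤ (n : ℝ) / 2 := by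
    rw [hr, one_div_div, div_le_div_iff₀ hh0 (by norm_num)]
    have : (n : ℝ) * 2 ≤ n * (n - 2 * k) := mul_le_mul_of_nonneg_left (by linarith) hn0.le
    linarith
  generalize ⌈1 / rr n k 1⌉₊ = q at *
  have hqr : q * rr n k 1 ≤ 3 / 2 := by
    have h4 := mul_le_mul_of_nonneg_right hq1.le hr0.le
    have h5 : (1 / rr n k 1 + 1) * rr n k 1 = 1 + rr n k 1 := by
      field_simp
    linarith
  have hqn : q + 1 ≤ n := by
    have h4 : (q : ℝ) + 1 ≤ n := by linarith
    exact_mod_cast h4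
  have hq0 : (0 : ℝ) ≤ q := Nat.cast_nonneg q
  have hj0 : (0 : ℝ) ≤ j := Nat.cast_nonneg j
  have hLD0 : 0 ≤ Real.log (DD n k) := le_trans (by positivity) hLD
  refine dense_family (j := j) (q := q) (by omega) (by omega) hj hjk hq2 hqn hqr h2 ?_
    (D_small (by omega) hk1 h3) ?_
  · rw [← Real.exp_log hD]
    have h4 : (n : ℝ) ^ (16 * j + 208) = Real.exp ((16 * j + 208) * Real.log n) := by
      have : (16 * (j : ℝ) + 208) * Real.log n = ((16 * j + 208 : ℕ) : ℝ) * Real.log n := by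
        push_cast
        ring
      rw [this, Real.exp_nat_mul, Real.exp_log hn0]
    rw [h4]
    refine Real.exp_le_exp.mpr (le_trans ?_ hLD)
    exact mul_le_mul_of_nonneg_right (by linarith) (by linarith)
  · have h4 : (q : ℝ) / 2 * Real.log (DD n k) ≤
        ((q : ℝ) - q * (q - 1) / 2 * rr n k 1) * Real.log (DD n k) :=
      mul_le_mul_of_nonneg_right hc2 hLD0
    have h5 : (q : ℝ) / 2 * (34000 * ((j : ℝ) + 1) * Real.log n) ≤
        (q : ℝ) / 2 * Real.log (DD n k) := mul_le_mul_of_nonneg_left hLD (by positivity)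
    have h6 : (q : ℝ) / 2 * (34000 * ((j : ℝ) + 1) * Real.log n) =
        17000 * (j * q * Real.log n) + 17000 * (q * Real.log n) := by ring
    have h7 : (4 * (j : ℝ) + 162) * q * Real.log n =
        4 * (j * q * Real.log n) + 162 * (q * Real.log n) := by ring
    have h8 : 0 ≤ (j : ℝ) * q * Real.log n := by positivity
    have h9 : 0 ≤ (q : ℝ) * Real.log n := by positivity
    rw [h7]
    linarith

theorem dense : ∃ C n0 : ℕ, ∀ n k : ℕ, n0 ≤ n → n ≤ 3 * k → 2 * k ≤ n →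
    ∃ F : Finset (Finset (Fin n)), Maximal (Pool.Agent.H31.Kn.IsInt n k) F ∧
      (F.card : ℝ) ≤ (n : ℝ) ^ C * ((n.choose k : ℝ) / DD n k) := by
  obtain ⟨h0, n1, hj⟩ := exists_j 34000
  refine ⟨162 + (h0 + 2), max n1 10000, fun n k hn h3 hk => ?_⟩
  have hn1 : n1 ≤ n := (le_max_left _ _).trans hn
  have hn2 : 10000 ≤ n := (le_max_right _ _).trans hn
  have hn3 : (1 : ℝ) ≤ n := by exact_mod_cast (by omega : 1 ≤ n)
  have hk1 : 1 ≤ k := by omega
  have hB : (0 : ℝ) ≤ (n.choose k : ℝ) / DD n k := by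
    unfold Pool.Agent.H70.KG.DD
    positivity
  rcases Nat.lt_or_ge n (2 * k + (h0 + 2)) with h | h
  · obtain ⟨F, hF, hc⟩ := near_half (by omega) hk1 hk h
    refine ⟨F, hF, hc.trans (mul_le_mul_of_nonneg_right ?_ hB)⟩
    exact pow_le_pow_right₀ hn3 (by omega)
  · obtain ⟨j, hj1, hjk, hj2, hj3⟩ := hj n k hn1 h3 (by omega)
    obtain ⟨F, hF, hc⟩ := far_half hn2 h3 (by omega) hj1 hjk hj2 (by exact_mod_cast hj3)
    refine ⟨F, hF, hc.trans (mul_le_mul_of_nonneg_right ?_ hB)⟩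
    exact pow_le_pow_right₀ hn3 (by omega)

end Pool.Agent.H14.KD
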