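import Pool.Agent.H14.KD.PB
import Pool.Agent.H70.KG.BI

/-!
# [H14 KD NP] the parameters of the process from simple hypotheses

Write L = log n >= 6.9, D = DD n k, N = n.choose k, r = rr n k 1 <= 1. Put del = n^-2, d1 = 1/(3 n^3),
a = 3 n^3, a1 = 9 n^4, rho = n^-10, e = D/(2N), nu = D/n^156, tau = floor((log D - 158 L)/e). Then
log D - 158 L >= 66 L > 1 (h3: log D >= (16 j + 208) L), e <= n^-30/2 (h4), so tau >= 1 and
log D - 158 L - 1 <= e tau <= log D - 158 L <= log D <= n (KG.log_D_le).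
Fields: aa, aa1, ad, eN are equalities; arho 3 n^3 n^-10 <= 1; a1e: 72 n^4 e <= 1; e2: 16 n e <= n^-2;
cc: 81 n^8 (64 e + 8 n^-10) n <= 81 n^8 * 9 n^-10 * n = 729/n <= n; c4: n^2 n^-10 n <= 1/2; dtau: 3/n <= 1/16.
H1: sz (k+j) = rr j * D <= n^-11 D (h2): n^-155 + 5 n^-11 <= n^-10. H2: 5 n^(4j) <= n^(4j+1) <= n^-200 D
(h3). H3: exp (e tau) <= D n^-158, exp (2 del e tau) <= exp (2/n) <= 2: 2 q * 2 D n^-158 <= D n^-156 as
4 q <= n^2. HQ: take logarithms. Left: log 8 + L + log N + 4 j q L + q log (8 (e tau + 1)) - q log D +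
(1 + del)(q (q-1)/2)(r + d1)(e tau). Here 8 (e tau + 1) <= 8 (n+1) <= n^2, so q log (..) <= 2 q L; the last
term is at most (q (q-1)/2) r log D + (q^2/2)(del r + 2 d1) n and (q^2/2) del r n <= (q/2)(q r)/n <= 1
(q <= n, q r <= 3/2), q^2 d1 n <= 1. Right: q log (4/n^156) >= - 156 q L. So it is enough that
log 8 + L + 2 + log N + (4 j + 158) q L < (q - q (q-1)/2 r) log D, and h5 gives this since
log 8 + L + 2 < 4 q L.
-/

namespace Pool.Agent.H14.KD

open Finset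
open Pool.Agent.H70.KG (KS DD S gf up0 up pr pr0)
open Pool.Agent.H70.KP (Sta Ex E1 Mild sz rr dis nea TS nc tg WW)

/-- The exponent of the growth factor. -/
theorem gl_bd {n l : ℕ} {r T LD : ℝ} (hn : 1 ≤ n) (hr : 0 ≤ r) (hl : l ≤ n)
    (hlr : l * r ≤ 3 / 2) (hT0 : 0 ≤ T) (hT1 : T ≤ LD) (hT2 : T ≤ n) :
    (1 + 1 / (n : ℝ) ^ 2) * ((l : ℝ) * (l - 1) / 2) * (r + 1 / (3 * (n : ℝ) ^ 3)) * T ≤
      (l : ℝ) * (l - 1) / 2 * r * LD + 2 := by
  have hn1 : (1 : ℝ) ≤ n := by exact_mod_cast hn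
  have hn0 : (0 : ℝ) < n := by linarith
  have hl0 : (0 : ℝ) ≤ l := Nat.cast_nonneg l
  have hl1 : (l : ℝ) ≤ n := by exact_mod_cast hl
  have ha0 : 0 ≤ (l : ℝ) * (l - 1) / 2 := by
    rcases Nat.eq_zero_or_pos l with h | h
    · rw [h]
      simp
    · have h' : (1 : ℝ) ≤ l := by exact_mod_cast h
      have : 0 ≤ (l : ℝ) * (l - 1) := mul_nonneg hl0 (by linarith)
      linarith
  have ha1 : (l : ℝ) * (l - 1) / 2 ≤ l * l / 2 := by
    have : (l : ℝ) * (l - 1) = l * l - l := by ring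
    linarith
  generalize hA : (l : ℝ) * (l - 1) / 2 = A at *
  have e1 : 1 / (n : ℝ) ^ 2 * T ≤ 1 / n := by
    have h1 := mul_le_mul_of_nonneg_left hT2 (by positivity : (0 : ℝ) ≤ 1 / (n : ℝ) ^ 2)
    have h2 : 1 / (n : ℝ) ^ 2 * n = 1 / n := by field_simp
    linarith
  have e2 : 1 / (3 * (n : ℝ) ^ 3) * T ≤ 1 / (3 * (n : ℝ) ^ 2) := by
    have h1 := mul_le_mul_of_nonneg_left hT2 (by positivity : (0 : ℝ) ≤ 1 / (3 * (n : ℝ) ^ 3))
    have h2 : 1 / (3 * (n : ℝ) ^ 3) * n = 1 / (3 * (n : ℝ) ^ 2) := by field_simp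
    linarith
  have har : A * r ≤ 3 / 4 * n := by
    have h1 := mul_le_mul_of_nonneg_right ha1 hr
    have h2 := mul_le_mul_of_nonneg_left hlr (by linarith : (0 : ℝ) ≤ l / 2)
    have h3 : (l : ℝ) * l / 2 * r = l / 2 * (l * r) := by ring
    linarith
  have har0 : 0 ≤ A * r := mul_nonneg ha0 hr
  have t1 : A * r * T ≤ A * r * LD := mul_le_mul_of_nonneg_left hT1 har0
  have t2 : A * r * (1 / (n : ℝ) ^ 2 * T) ≤ 3 / 4 := by
    have h1 : A * r * (1 / (n : ℝ) ^ 2 * T) ≤ 3 / 4 * n * (1 / n) :=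
      mul_le_mul har e1 (by positivity) (by positivity)
    have h2 : 3 / 4 * (n : ℝ) * (1 / n) = 3 / 4 := by field_simp
    linarith
  have t3 : A * (1 / (3 * (n : ℝ) ^ 3) * T) ≤ 1 / 6 := by
    have h0 : A ≤ (n : ℝ) ^ 2 / 2 := by
      have : (l : ℝ) * l ≤ (n : ℝ) * n := mul_le_mul hl1 hl1 hl0 hn0.le
      have h2 : (n : ℝ) ^ 2 = n * n := by ring
      linarith
    have h1 : A * (1 / (3 * (n : ℝ) ^ 3) * T) ≤ (n : ℝ) ^ 2 / 2 * (1 / (3 * (n : ℝ) ^ 2)) :=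
      mul_le_mul h0 e2 (by positivity) (by positivity)
    have h2 : (n : ℝ) ^ 2 / 2 * (1 / (3 * (n : ℝ) ^ 2)) = 1 / 6 := by
      field_simp
      norm_num
    linarith
  have t4 : 1 + 1 / (n : ℝ) ^ 2 ≤ 2 := by
    have : 1 / (n : ℝ) ^ 2 ≤ 1 := by
      rw [div_le_one (by positivity)]
      exact one_le_pow₀ hn1
    linarith
  have t5 : (1 + 1 / (n : ℝ) ^ 2) * (A * (1 / (3 * (n : ℝ) ^ 3) * T)) ≤ 2 * (1 / 6) :=
    mul_le_mul t4 t3 (by positivity) (by norm_num)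
  have t6 : (1 + 1 / (n : ℝ) ^ 2) * A * (r + 1 / (3 * (n : ℝ) ^ 3)) * T =
      A * r * T + A * r * (1 / (n : ℝ) ^ 2 * T) +
        (1 + 1 / (n : ℝ) ^ 2) * (A * (1 / (3 * (n : ℝ) ^ 3) * T)) := by ring
  rw [t6]
  linarith

private theorem exp_half : Real.exp (1 / 2) ≤ 2 := by
  have h1 : Real.exp (1 / 2) ^ 2 = Real.exp 1 := by
    rw [← Real.exp_nat_mul]
    congr 1
    norm_num
  have h2 := Real.exp_one_lt_d9
  have h3 := Real.exp_pos (1 / 2)
  nlinarith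

private theorem H3_aux {n q : ℕ} {D T : ℝ} (hn : 1000 ≤ n) (hq : q ≤ n) (hD : 0 < D)
    (hT1 : T ≤ Real.log D - 158 * Real.log n) (hT2 : T ≤ n) :
    2 * q * Real.exp ((1 + 2 * (1 / (n : ℝ) ^ 2)) * T) ≤ D / (n : ℝ) ^ 156 := by
  have hn1 : (1000 : ℝ) ≤ n := by exact_mod_cast hn
  have hn0 : (0 : ℝ) < n := by linarith
  have hq1 : (q : ℝ) ≤ n := by exact_mod_cast hq
  have h1 : (1 + 2 * (1 / (n : ℝ) ^ 2)) * T ≤ Real.log D - 158 * Real.log n + 1 / 2 := by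
    have h2 := mul_le_mul_of_nonneg_left hT2 (by positivity : (0 : ℝ) ≤ 2 * (1 / (n : ℝ) ^ 2))
    have h3 : 2 * (1 / (n : ℝ) ^ 2) * n = 2 * (1 / n) := by field_simp
    have h4 : 1 / (n : ℝ) ≤ 1 / 4 := one_div_le_one_div_of_le (by norm_num) (by linarith)
    have h5 : (1 + 2 * (1 / (n : ℝ) ^ 2)) * T = T + 2 * (1 / (n : ℝ) ^ 2) * T := by ring
    linarith
  have h2 : Real.exp (Real.log D - 158 * Real.log n + 1 / 2) = D / (n : ℝ) ^ 158 *
      Real.exp (1 / 2) := by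
    rw [Real.exp_add, Real.exp_sub, Real.exp_log hD]
    have : (158 : ℝ) * Real.log n = ((158 : ℕ) : ℝ) * Real.log n := by norm_num
    rw [this, Real.exp_nat_mul, Real.exp_log hn0]
  have h3 : Real.exp ((1 + 2 * (1 / (n : ℝ) ^ 2)) * T) ≤ D / (n : ℝ) ^ 158 * 2 := by
    refine (Real.exp_le_exp.mpr h1).trans ?_
    rw [h2]
    exact mul_le_mul_of_nonneg_left exp_half (by positivity)
  have h4 : 2 * (q : ℝ) * Real.exp ((1 + 2 * (1 / (n : ℝ) ^ 2)) * T) ≤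
      2 * n * (D / (n : ℝ) ^ 158 * 2) :=
    mul_le_mul (by linarith) h3 (Real.exp_pos _).le (by linarith)
  refine h4.trans ?_
  have h5 : 2 * (n : ℝ) * (D / (n : ℝ) ^ 158 * 2) = D / (n : ℝ) ^ 156 * (4 / n) := by
    field_simp
    norm_num
  rw [h5]
  have h6 : 4 / (n : ℝ) ≤ 1 := by
    rw [div_le_one hn0]
    linarith
  have h7 := mul_le_mul_of_nonneg_left h6 (by positivity : 0 ≤ D / (n : ℝ) ^ 156)
  linarith

private theorem HQ_aux {n j q : ℕ} {N D T G r : ℝ} (hn : 1000 ≤ n) (hq : 2 ≤ q) (hN : 0 < N)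
    (hD : 0 < D) (hT0 : 0 ≤ T) (hT2 : T ≤ n)
    (hG : G ≤ (q : ℝ) * (q - 1) / 2 * r * Real.log D + 2)
    (h5 : Real.log N + (4 * j + 162) * q * Real.log n ≤
      (q - q * (q - 1) / 2 * r) * Real.log D) :
    8 * n * (N * (n : ℝ) ^ (4 * j * q) * (8 * (T + 1) / D) ^ q) * Real.exp G <
      (4 * (D / (n : ℝ) ^ 156) / D) ^ q := by
  have hn1 : (1000 : ℝ) ≤ n := by exact_mod_cast hn
  have hn0 : (0 : ℝ) < n := by linarith
  have hq2 : (2 : ℝ) ≤ q := by exact_mod_cast hq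
  have hL : 1 ≤ Real.log n := by
    rw [Real.le_log_iff_exp_le hn0]
    have := Real.exp_one_lt_d9
    linarith
  set L := Real.log n with hLd
  set LD := Real.log D with hLDd
  have hnE : (n : ℝ) = Real.exp L := (Real.exp_log hn0).symm
  have hDE : D = Real.exp LD := (Real.exp_log hD).symm
  have hNE : N = Real.exp (Real.log N) := (Real.exp_log hN).symm
  have h8 : 8 * (T + 1) ≤ (n : ℝ) ^ 2 := by nlinarith
  have h9 : 8 * (n : ℝ) ≤ (n : ℝ) ^ 2 := by nlinarith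
  have e1 : 8 * n * (N * (n : ℝ) ^ (4 * j * q) * (8 * (T + 1) / D) ^ q) * Real.exp G ≤
      (n : ℝ) ^ 2 * (N * (n : ℝ) ^ (4 * j * q) * ((n : ℝ) ^ 2 / D) ^ q) * Real.exp G := by
    refine mul_le_mul_of_nonneg_right ?_ (Real.exp_pos _).le
    refine mul_le_mul h9 ?_ (by positivity) (by positivity)
    refine mul_le_mul_of_nonneg_left ?_ (by positivity)
    refine pow_le_pow_left₀ (by positivity) ?_ q
    exact div_le_div_of_nonneg_right h8 hD.le
  have e2 : (n : ℝ) ^ 2 * (N * (n : ℝ) ^ (4 * j * q) * ((n : ℝ) ^ 2 / D) ^ q) * Real.exp G =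
      Real.exp (2 * L + (Real.log N + 4 * j * q * L + q * (2 * L - LD)) + G) := by
    have p1 : (n : ℝ) ^ 2 = Real.exp (2 * L) := by
      have : (2 : ℝ) * L = ((2 : ℕ) : ℝ) * L := by norm_num
      rw [this, Real.exp_nat_mul, ← hnE]
    have p2 : (n : ℝ) ^ (4 * j * q) = Real.exp (4 * j * q * L) := by
      have : (4 : ℝ) * j * q * L = ((4 * j * q : ℕ) : ℝ) * L := by push_cast; ring
      rw [this, Real.exp_nat_mul, ← hnE]
    have p3 : ((n : ℝ) ^ 2 / D) ^ q = Real.exp (q * (2 * L - LD)) := by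
      rw [p1, Real.exp_nat_mul, Real.exp_sub, ← hDE]
    rw [p3, p2, p1, Real.exp_add, Real.exp_add, Real.exp_add, Real.exp_add, ← hNE]
  have e3 : (Real.exp (-(156 * L))) ^ q ≤ (4 * (D / (n : ℝ) ^ 156) / D) ^ q := by
    refine pow_le_pow_left₀ (Real.exp_pos _).le ?_ q
    have p1 : (n : ℝ) ^ 156 = Real.exp (156 * L) := by
      have : (156 : ℝ) * L = ((156 : ℕ) : ℝ) * L := by norm_num
      rw [this, Real.exp_nat_mul, ← hnE]
    rw [p1, Real.exp_neg]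
    have p2 : 4 * (D / Real.exp (156 * L)) / D = 4 * (Real.exp (156 * L))⁻¹ := by
      have := (Real.exp_pos (156 * L)).ne'
      field_simp
    rw [p2]
    have : 0 < (Real.exp (156 * L))⁻¹ := by positivity
    linarith
  refine lt_of_le_of_lt e1 (lt_of_lt_of_le ?_ e3)
  rw [e2, ← Real.exp_nat_mul]
  refine Real.exp_lt_exp.mpr ?_
  have h10 : (4 * (j : ℝ) + 162) * q * L = 4 * j * q * L + 162 * (q * L) := by ring
  have h11 : ((q : ℝ) - q * (q - 1) / 2 * r) * LD = q * LD - q * (q - 1) / 2 * r * LD := by ring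
  have h12 : (q : ℝ) * (2 * L - LD) = 2 * (q * L) - q * LD := by ring
  have h13 : (q : ℝ) * -(156 * L) = -(156 * (q * L)) := by ring
  have h14 : 2 * L ≤ q * L := mul_le_mul_of_nonneg_right hq2 (by linarith)
  rw [h10, h11] at h5
  rw [h12, h13]
  linarith

theorem exists_par {n k j q : ℕ} (hn : 1000 ≤ n) (hk : 2 * k ≤ n) (hj : 1 ≤ j)
    (hjk : 2 * j ≤ k) (hq : 2 ≤ q) (hqn : q + 1 ≤ n) (hqr : q * rr n k 1 ≤ 3 / 2)
    (h2 : (n : ℝ) ^ 11 * rr n k j ≤ 1) (h3 : (n : ℝ) ^ (16 * j + 208) ≤ DD n k)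
    (h4 : (n : ℝ) ^ 30 * DD n k ≤ n.choose k)
    (h5 : Real.log (n.choose k) + (4 * j + 162) * q * Real.log n ≤
      (q - q * (q - 1) / 2 * rr n k 1) * Real.log (DD n k)) :
    ∃ P : Par n k, P.j = j ∧ P.q = q ∧ P.del = 1 / (n : ℝ) ^ 2 ∧ P.d1 = 1 / (3 * (n : ℝ) ^ 3) ∧
      P.e = DD n k / (2 * n.choose k) ∧
      Real.log (DD n k) - 158 * Real.log n - 1 ≤ P.e * P.tau ∧
      P.e * P.tau ≤ Real.log (DD n k) - 158 * Real.log n := by
  have hn1 : (1000 : ℝ) ≤ n := by exact_mod_cast hn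
  have hn0 : (0 : ℝ) < n := by linarith
  have hk1 : 1 ≤ k := by omega
  have hL : 1 ≤ Real.log n := by
    rw [Real.le_log_iff_exp_le hn0]
    have := Real.exp_one_lt_d9
    linarith
  have hD : 0 < DD n k := by
    unfold Pool.Agent.H70.KG.DD
    exact_mod_cast Nat.choose_pos (by omega)
  have hN : (0 : ℝ) < n.choose k := by exact_mod_cast Nat.choose_pos (by omega)
  have hlogD : Real.log (DD n k) ≤ n := Pool.Agent.H70.KG.log_D_le n k hk
  have hr0 : 0 ≤ rr n k 1 := Pool.Agent.H70.KP.rr_nonneg n k 1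
  have hLD : (16 * j + 208) * Real.log n ≤ Real.log (DD n k) := by
    have h6 := Real.log_le_log (by positivity) h3
    rw [Real.log_pow] at h6
    push_cast at h6
    exact h6
  have hj1 : (1 : ℝ) ≤ j := by exact_mod_cast hj
  have hLD2 : 66 * Real.log n ≤ Real.log (DD n k) - 158 * Real.log n := by
    have : (224 : ℝ) * Real.log n ≤ (16 * j + 208) * Real.log n :=
      mul_le_mul_of_nonneg_right (by linarith) (by linarith)
    linarith
  set D := DD n k with hDd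
  set N : ℝ := (n.choose k : ℝ) with hNd
  set e : ℝ := D / (2 * N) with he
  have he0 : 0 < e := by rw [he]; positivity
  have he1 : e * (n : ℝ) ^ 30 ≤ 1 / 2 := by
    rw [he, div_mul_eq_mul_div, div_le_div_iff₀ (by positivity) (by norm_num)]
    linarith
  have hn30 : (1 : ℝ) ≤ (n : ℝ) ^ 30 := one_le_pow₀ (by linarith)
  have he2 : e ≤ 1 / 2 := by
    have : e * 1 ≤ e * (n : ℝ) ^ 30 := mul_le_mul_of_nonneg_left hn30 he0.le
    linarith
  set x : ℝ := (Real.log D - 158 * Real.log n) / e with hx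
  have hxe : e * x = Real.log D - 158 * Real.log n := by
    rw [hx]
    field_simp
  have hx1 : 1 ≤ x := by
    rw [hx, le_div_iff₀ he0]
    linarith
  set tau : ℕ := ⌊x⌋₊ with htau
  have ht1 : 1 ≤ tau := Nat.le_floor (by exact_mod_cast hx1)
  have ht2 : (tau : ℝ) ≤ x := Nat.floor_le (by linarith)
  have ht3 : x < tau + 1 := Nat.lt_floor_add_one x
  have hT1 : e * tau ≤ Real.log D - 158 * Real.log n := by
    have := mul_le_mul_of_nonneg_left ht2 he0.le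
    linarith
  have hT3 : Real.log D - 158 * Real.log n - 1 ≤ e * tau := by
    have := mul_le_mul_of_nonneg_left ht3.le he0.le
    linarith
  have hT0 : 0 ≤ e * tau := by positivity
  have hT2 : e * tau ≤ n := by linarith
  have hT4 : e * tau ≤ Real.log D := by linarith
  have h25 : (n : ℝ) ^ 5 * (n : ℝ) ^ 25 = (n : ℝ) ^ 30 := by rw [← pow_add]
  have hesmall : e * (n : ℝ) ^ 10 ≤ 1 / 2 := by
    have h6 : (n : ℝ) ^ 10 ≤ (n : ℝ) ^ 30 := pow_le_pow_right₀ (by linarith) (by norm_num)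
    have := mul_le_mul_of_nonneg_left h6 he0.le
    linarith
  have hpn : ∀ m : ℕ, (0 : ℝ) < (n : ℝ) ^ m := fun m => by positivity
  have hn10 : (1 : ℝ) ≤ (n : ℝ) ^ 10 := one_le_pow₀ (by linarith)
  have heb : e ≤ 1 / (n : ℝ) ^ 10 := by
    rw [le_div_iff₀ (hpn 10)]
    linarith
  have hszj : sz n k (k + j) ≤ D * (1 / (n : ℝ) ^ 11) := by
    have h6 : rr n k j ≤ 1 / (n : ℝ) ^ 11 := by
      rw [le_div_iff₀ (hpn 11)]
      linarith
    have h7 : sz n k (k + j) = D * rr n k j := by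
      unfold Pool.Agent.H70.KP.rr
      rw [← hDd]
      field_simp
    rw [h7]
    exact mul_le_mul_of_nonneg_left h6 hD.le
  have hsmall : (n : ℝ) * (D / (n : ℝ) ^ 156) ≤ D * (1 / (n : ℝ) ^ 11) := by
    have h6 : (n : ℝ) * (D / (n : ℝ) ^ 156) = D * (1 / (n : ℝ) ^ 155) := by
      field_simp
    rw [h6]
    refine mul_le_mul_of_nonneg_left ?_ hD.le
    exact one_div_le_one_div_of_le (hpn 11) (pow_le_pow_right₀ (by linarith) (by norm_num))
  have hten : 6 * (D * (1 / (n : ℝ) ^ 11)) ≤ 1 / (n : ℝ) ^ 10 * D := by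
    have h6 : 1 / (n : ℝ) ^ 10 * D = n * (D * (1 / (n : ℝ) ^ 11)) := by
      field_simp
    rw [h6]
    exact mul_le_mul_of_nonneg_right (by linarith) (by positivity)
  refine ⟨{ j := j, q := q, tau := tau, del := 1 / (n : ℝ) ^ 2, d1 := 1 / (3 * (n : ℝ) ^ 3),
            a := 3 * (n : ℝ) ^ 3, a1 := 9 * (n : ℝ) ^ 4, rho := 1 / (n : ℝ) ^ 10, e := e,
            nu := D / (n : ℝ) ^ 156, hn := by omega, hk := hk1, hj := hj, hjk := hjk,
            hsz := hk, htau := ht1, hq := hq, hqn := hqn, del0 := by positivity,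
            del1 := ?_, d10 := by positivity, d1le := ?_, e0 := he0, e2 := ?_, eN := ?_,
            rho0 := by positivity, rho1 := ?_, nu0 := by positivity, aa := ?_, aa1 := ?_,
            ad := ?_, arho := ?_, a1e := ?_, cc := ?_, c4 := ?_, dtau := ?_, H1 := ?_,
            H2 := ?_, H3 := ?_, HQ := ?_ }, rfl, rfl, rfl, rfl, rfl, hT3, hT1⟩
  · -- del1
    refine one_div_le_one_div_of_le (by norm_num) ?_
    nlinarith
  · -- d1le
    have h6 : 2 * (1 / (3 * (n : ℝ) ^ 3)) = 1 / (n : ℝ) ^ 2 * (2 / (3 * n)) := by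
      field_simp
    rw [h6]
    have h7 : 2 / (3 * (n : ℝ)) ≤ 1 := by
      rw [div_le_one (by positivity)]
      linarith
    have := mul_le_mul_of_nonneg_left h7 (by positivity : (0 : ℝ) ≤ 1 / (n : ℝ) ^ 2)
    linarith
  · -- e2
    have h6 : 16 * (n : ℝ) * e ≤ 16 * n * (1 / (n : ℝ) ^ 10) :=
      mul_le_mul_of_nonneg_left heb (by positivity)
    refine h6.trans ?_
    have h7 : 16 * (n : ℝ) * (1 / (n : ℝ) ^ 10) = 1 / (n : ℝ) ^ 2 * (16 / (n : ℝ) ^ 7) := by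
      field_simp
    rw [h7]
    have h8 : 16 / (n : ℝ) ^ 7 ≤ 1 := by
      rw [div_le_one (hpn 7)]
      have : (n : ℝ) ^ 1 ≤ (n : ℝ) ^ 7 := pow_le_pow_right₀ (by linarith) (by norm_num)
      linarith
    have := mul_le_mul_of_nonneg_left h8 (by positivity : (0 : ℝ) ≤ 1 / (n : ℝ) ^ 2)
    linarith
  · -- eN
    have : 2 * (e * N) = D := by
      rw [he]
      field_simp
    linarith
  · -- rho1
    rw [div_le_one (hpn 10)]
    exact hn10
  · -- aa
    field_simp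
  · -- aa1
    field_simp
    norm_num
  · -- ad
    have : 3 * (n : ℝ) ^ 3 * (1 / (3 * (n : ℝ) ^ 3)) = 1 := by field_simp
    linarith
  · -- arho
    have h6 : 3 * (n : ℝ) ^ 3 * (1 / (n : ℝ) ^ 10) = 3 / (n : ℝ) ^ 7 := by field_simp
    rw [h6, div_le_one (hpn 7)]
    have : (n : ℝ) ^ 1 ≤ (n : ℝ) ^ 7 := pow_le_pow_right₀ (by linarith) (by norm_num)
    linarith
  · -- a1e
    have h6 : 8 * (9 * (n : ℝ) ^ 4) * e ≤ 8 * (9 * (n : ℝ) ^ 4) * (1 / (n : ℝ) ^ 10) :=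
      mul_le_mul_of_nonneg_left heb (by positivity)
    refine h6.trans ?_
    have h7 : 8 * (9 * (n : ℝ) ^ 4) * (1 / (n : ℝ) ^ 10) = 72 / (n : ℝ) ^ 6 := by
      field_simp
      norm_num
    rw [h7, div_le_one (hpn 6)]
    have : (n : ℝ) ^ 1 ≤ (n : ℝ) ^ 6 := pow_le_pow_right₀ (by linarith) (by norm_num)
    linarith
  · -- cc
    have h6 : 64 * e + 8 * (1 / (n : ℝ) ^ 10) ≤ 72 * (1 / (n : ℝ) ^ 10) := by linarith
    have h7 : (9 * (n : ℝ) ^ 4) ^ 2 * (64 * e + 8 * (1 / (n : ℝ) ^ 10)) ≤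
        (9 * (n : ℝ) ^ 4) ^ 2 * (72 * (1 / (n : ℝ) ^ 10)) :=
      mul_le_mul_of_nonneg_left h6 (by positivity)
    have h8 : (9 * (n : ℝ) ^ 4) ^ 2 * (64 * e + 8 * (1 / (n : ℝ) ^ 10)) * (e * tau) ≤
        (9 * (n : ℝ) ^ 4) ^ 2 * (72 * (1 / (n : ℝ) ^ 10)) * n :=
      mul_le_mul h7 hT2 hT0 (by positivity)
    refine h8.trans ?_
    have h9 : (9 * (n : ℝ) ^ 4) ^ 2 * (72 * (1 / (n : ℝ) ^ 10)) * n = 5832 / n := by
      field_simp
      norm_num
    rw [h9, div_le_iff₀ hn0]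
    nlinarith
  · -- c4
    have h8 : (n : ℝ) ^ 2 * (1 / (n : ℝ) ^ 10) * (e * tau) ≤
        (n : ℝ) ^ 2 * (1 / (n : ℝ) ^ 10) * n :=
      mul_le_mul_of_nonneg_left hT2 (by positivity)
    refine h8.trans ?_
    have h9 : (n : ℝ) ^ 2 * (1 / (n : ℝ) ^ 10) * n = 1 / (n : ℝ) ^ 7 := by
      field_simp
    rw [h9]
    refine one_div_le_one_div_of_le (by norm_num) ?_
    have : (n : ℝ) ^ 1 ≤ (n : ℝ) ^ 7 := pow_le_pow_right₀ (by linarith) (by norm_num)
    linarith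
  · -- dtau
    have h8 : 3 * (1 / (n : ℝ) ^ 2) * (e * tau) ≤ 3 * (1 / (n : ℝ) ^ 2) * n :=
      mul_le_mul_of_nonneg_left hT2 (by positivity)
    refine h8.trans ?_
    have h9 : 3 * (1 / (n : ℝ) ^ 2) * n = 3 / n := by
      field_simp
    rw [h9, div_le_div_iff₀ hn0 (by norm_num)]
    linarith
  · -- H1
    linarith
  · -- H2
    have h6 : 5 * (n : ℝ) ^ (4 * j) ≤ 5 * (D * (1 / (n : ℝ) ^ 11)) := by
      have h7 : (n : ℝ) ^ (4 * j) * (n : ℝ) ^ 11 ≤ D := by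
        rw [← pow_add]
        exact (pow_le_pow_right₀ (by linarith) (by omega)).trans h3
      have h8 : (n : ℝ) ^ (4 * j) ≤ D * (1 / (n : ℝ) ^ 11) := by
        rw [mul_one_div, le_div_iff₀ (hpn 11)]
        exact h7
      linarith
    linarith
  · -- H3
    exact H3_aux hn (by omega) hD hT1 hT2
  · -- HQ
    refine HQ_aux (r := rr n k 1) hn hq hN hD hT0 hT2 ?_ h5
    exact gl_bd (by omega) hr0 (by omega) hqr hT0 hT4 hT2

end Pool.Agent.H14.KD
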