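import Pool.Agent.H14.KD.NP
import Pool.Agent.H14.KD.FN

/-!
# [H14 KD NQ] the family is small, simple hypotheses

Take P from exists_par and F from main_family. L = log n, Tf = e tau, r = rr n k 1, N, D as in NP.
(1) tau = Tf/e <= n * 2 N/D.
(2) For 1 <= l < q the logarithm of the l-th summand is
-Tf + del Tf + l r Tf + log 8 + L + log N + 4 j l L + l log (8 (Tf + 1)) - l log D + gl l * Tf. Use
-Tf <= - log D + 158 L + 1, del Tf <= 1, l r Tf <= l r log D, log (8 (Tf+1)) <= 2 L and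
gl l * Tf <= (l (l-1)/2) r log D + 2 (as in NP, l <= q). Together it is at most
log N - log D + 159 L + 7 + (4 j + 2) l L - l log D (1 - (l + 1) r/2), and
(l + 1) r <= q r <= 3/2, so the last term is <= - (l/4) log D <= - l (4 j + 52) L (h3). So the summand is at
most n^160 N/D, the sum of the at most n summands n^161 N/D.
(3) 2 N exp (-(1 - del) Tf) <= 2 N exp (1) exp (1) n^158/D <= n^160 N/D.
Total <= n^162 N/D.
-/

namespace Pool.Agent.H14.KD

open Finset
open Pool.Agent.H70.KG (KS DD S gf up0 up pr pr0)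
open Pool.Agent.H70.KP (Sta Ex E1 Mild sz rr dis nea TS nc tg WW)

private theorem term_bd {n j l q : ℕ} {N D T G r del : ℝ} (hn : 1000 ≤ n) (hl : 1 ≤ l)
    (hlq : l < q) (hr : 0 ≤ r) (hqr : q * r ≤ 3 / 2) (hN : 0 < N) (hD : 0 < D) (hT0 : 0 ≤ T)
    (hT1 : Real.log D - 158 * Real.log n - 1 ≤ T) (hT2 : T ≤ n) (hT4 : T ≤ Real.log D)
    (hdel : del = 1 / (n : ℝ) ^ 2)
    (hLD : (16 * j + 208) * Real.log n ≤ Real.log D)
    (hG : G ≤ (l : ℝ) * (l - 1) / 2 * r * Real.log D + 2) :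
    Real.exp (-((1 - del - l * r) * T)) *
      (8 * n * (N * (n : ℝ) ^ (4 * j * l) * (8 * (T + 1) / D) ^ l) * Real.exp G) ≤
      (n : ℝ) ^ 160 * (N / D) := by
  have hn1 : (1000 : ℝ) ≤ n := by exact_mod_cast hn
  have hn0 : (0 : ℝ) < n := by linarith
  have hl1 : (1 : ℝ) ≤ l := by exact_mod_cast hl
  have hlq' : (l : ℝ) + 1 ≤ q := by exact_mod_cast hlq
  have hL : 1 ≤ Real.log n := by
    rw [Real.le_log_iff_exp_le hn0]
    have := Real.exp_one_lt_d9
    linarith
  have hdT : del * T ≤ 1 := by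
    have h1 := mul_le_mul_of_nonneg_left hT2 (by positivity : (0 : ℝ) ≤ 1 / (n : ℝ) ^ 2)
    have h2 : 1 / (n : ℝ) ^ 2 * n = 1 / n := by field_simp
    have h3 : 1 / (n : ℝ) ≤ 1 := by
      rw [div_le_one hn0]
      linarith
    rw [hdel]
    linarith
  set L := Real.log n with hLd
  set LD := Real.log D with hLDd
  have hnE : (n : ℝ) = Real.exp L := (Real.exp_log hn0).symm
  have hDE : D = Real.exp LD := (Real.exp_log hD).symm
  have hNE : N = Real.exp (Real.log N) := (Real.exp_log hN).symm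
  have h8 : 8 * (T + 1) ≤ (n : ℝ) ^ 2 := by nlinarith
  have h9 : 8 * (n : ℝ) ≤ (n : ℝ) ^ 2 := by nlinarith
  have e1 : 8 * n * (N * (n : ℝ) ^ (4 * j * l) * (8 * (T + 1) / D) ^ l) * Real.exp G ≤
      (n : ℝ) ^ 2 * (N * (n : ℝ) ^ (4 * j * l) * ((n : ℝ) ^ 2 / D) ^ l) * Real.exp G := by
    refine mul_le_mul_of_nonneg_right ?_ (Real.exp_pos _).le
    refine mul_le_mul h9 ?_ (by positivity) (by positivity)
    refine mul_le_mul_of_nonneg_left ?_ (by positivity)
    refine pow_le_pow_left₀ (by positivity) ?_ l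
    exact div_le_div_of_nonneg_right h8 hD.le
  have e2 : (n : ℝ) ^ 2 * (N * (n : ℝ) ^ (4 * j * l) * ((n : ℝ) ^ 2 / D) ^ l) * Real.exp G =
      Real.exp (2 * L + (Real.log N + 4 * j * l * L + l * (2 * L - LD)) + G) := by
    have p1 : (n : ℝ) ^ 2 = Real.exp (2 * L) := by
      have : (2 : ℝ) * L = ((2 : ℕ) : ℝ) * L := by norm_num
      rw [this, Real.exp_nat_mul, ← hnE]
    have p2 : (n : ℝ) ^ (4 * j * l) = Real.exp (4 * j * l * L) := by
      have : (4 : ℝ) * j * l * L = ((4 * j * l : ℕ) : ℝ) * L := by push_cast; ring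
      rw [this, Real.exp_nat_mul, ← hnE]
    have p3 : ((n : ℝ) ^ 2 / D) ^ l = Real.exp (l * (2 * L - LD)) := by
      rw [p1, Real.exp_nat_mul, Real.exp_sub, ← hDE]
    rw [p3, p2, p1, Real.exp_add, Real.exp_add, Real.exp_add, Real.exp_add, ← hNE]
  have e3 : (n : ℝ) ^ 160 * (N / D) = Real.exp (160 * L + (Real.log N - LD)) := by
    have p1 : (n : ℝ) ^ 160 = Real.exp (160 * L) := by
      have : (160 : ℝ) * L = ((160 : ℕ) : ℝ) * L := by norm_num
      rw [this, Real.exp_nat_mul, ← hnE]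
    rw [p1, Real.exp_add, Real.exp_sub, ← hNE, ← hDE]
  refine (mul_le_mul_of_nonneg_left e1 (Real.exp_pos _).le).trans ?_
  rw [e2, e3, ← Real.exp_add]
  refine Real.exp_le_exp.mpr ?_
  have hLD0 : 0 ≤ LD := by linarith
  have h10 : -((1 - del - l * r) * T) = -T + del * T + l * r * T := by ring
  have h11 : (l : ℝ) * r * T ≤ l * r * LD := mul_le_mul_of_nonneg_left hT4 (by positivity)
  have h12 : (l : ℝ) * (2 * L - LD) = 2 * (l * L) - l * LD := by ring
  -- the main inequality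
  have h13 : ((l : ℝ) + 1) * r ≤ 3 / 2 := (mul_le_mul_of_nonneg_right hlq' hr).trans hqr
  have h14 : (l : ℝ) * LD * (((l : ℝ) + 1) * r) ≤ l * LD * (3 / 2) :=
    mul_le_mul_of_nonneg_left h13 (by positivity)
  have h15 : (l : ℝ) * r * LD + (l : ℝ) * (l - 1) / 2 * r * LD =
      l * LD * (((l : ℝ) + 1) * r) / 2 := by ring
  have h16 : (l : ℝ) * ((16 * j + 208) * L) ≤ l * LD :=
    mul_le_mul_of_nonneg_left hLD (by positivity)
  have h17 : (l : ℝ) * ((16 * j + 208) * L) = 16 * (j * l * L) + 208 * (l * L) := by ring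
  have h18 : 4 * (j : ℝ) * l * L = 4 * (j * l * L) := by ring
  have h19 : 1 ≤ (l : ℝ) * L := by
    have := mul_le_mul hl1 hL (by norm_num) (by linarith)
    linarith
  rw [h10, h12, h18]
  rw [h17] at h16
  linarith

theorem dense_family {n k j q : ℕ} (hn : 1000 ≤ n) (hk : 2 * k ≤ n) (hj : 1 ≤ j)
    (hjk : 2 * j ≤ k) (hq : 2 ≤ q) (hqn : q + 1 ≤ n) (hqr : q * rr n k 1 ≤ 3 / 2)
    (h2 : (n : ℝ) ^ 11 * rr n k j ≤ 1) (h3 : (n : ℝ) ^ (16 * j + 208) ≤ DD n k)
    (h4 : (n : ℝ) ^ 30 * DD n k ≤ n.choose k)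
    (h5 : Real.log (n.choose k) + (4 * j + 162) * q * Real.log n ≤
      (q - q * (q - 1) / 2 * rr n k 1) * Real.log (DD n k)) :
    ∃ F : Finset (Finset (Fin n)), Maximal (Pool.Agent.H31.Kn.IsInt n k) F ∧
      (F.card : ℝ) ≤ (n : ℝ) ^ 162 * ((n.choose k : ℝ) / DD n k) := by
  obtain ⟨P, hPj, hPq, hdel, hd1, he, hT1, hT3⟩ := exists_par hn hk hj hjk hq hqn hqr h2 h3 h4 h5
  obtain ⟨F, hF, hcard⟩ := main_family P
  refine ⟨F, hF, hcard.trans ?_⟩
  have hn1 : (1000 : ℝ) ≤ n := by exact_mod_cast hn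
  have hn0 : (0 : ℝ) < n := by linarith
  have hk1 : 1 ≤ k := by omega
  have hL : 1 ≤ Real.log n := by
    rw [Real.le_log_iff_exp_le hn0]
    have := Real.exp_one_lt_d9
    linarith
  have hD : 0 < DD n k := by
    unfold Pool.Agent.H70.KG.DD
    exact_mod_cast Nat.choose_pos (by omega)
  have hN : (0 : ℝ) < n.choose k := by exact_mod_cast Nat.choose_pos (by omega)
  have hlogD : Real.log (DD n k) ≤ n := Pool.Agent.H70.KG.log_D_le n k hk
  have hr0 : 0 ≤ rr n k 1 := Pool.Agent.H70.KP.rr_nonneg n k 1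
  have hLD : (16 * j + 208) * Real.log n ≤ Real.log (DD n k) := by
    have h6 := Real.log_le_log (by positivity) h3
    rw [Real.log_pow] at h6
    push_cast at h6
    exact h6
  have hT0 : 0 ≤ P.e * P.tau := mul_nonneg P.e0.le (Nat.cast_nonneg _)
  have hT4 : P.e * P.tau ≤ Real.log (DD n k) := by linarith
  have hT2 : P.e * P.tau ≤ n := by linarith
  -- the three parts
  have a1 : (P.tau : ℝ) ≤ 2 * n * (n.choose k / DD n k) := by
    have h6 : P.e * P.tau ≤ P.e * (2 * n * (n.choose k / DD n k)) := by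
      have h7 : P.e * (2 * n * (n.choose k / DD n k)) = n := by
        rw [he]
        field_simp
      rw [h7]
      exact hT2
    exact le_of_mul_le_mul_left h6 P.e0
  have a2 : ∑ l ∈ Ico 1 P.q, Real.exp (-((1 - P.del - l * rr n k 1) * (P.e * P.tau))) *
      (8 * n * P.U0 l * Real.exp (P.gl l * (P.e * P.tau))) ≤
      n * ((n : ℝ) ^ 160 * (n.choose k / DD n k)) := by
    have h6 : ∀ l ∈ Ico 1 P.q, Real.exp (-((1 - P.del - l * rr n k 1) * (P.e * P.tau))) *
        (8 * n * P.U0 l * Real.exp (P.gl l * (P.e * P.tau))) ≤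
        (n : ℝ) ^ 160 * (n.choose k / DD n k) := by
      intro l hl
      rw [mem_Ico, hPq] at hl
      have hlr : (l : ℝ) * rr n k 1 ≤ 3 / 2 := by
        have : (l : ℝ) * rr n k 1 ≤ q * rr n k 1 :=
          mul_le_mul_of_nonneg_right (by exact_mod_cast hl.2.le) hr0
        linarith
      have h7 := gl_bd (n := n) (l := l) (by omega) hr0 (by omega) hlr hT0 hT4 hT2
      unfold Par.U0 Par.gl
      rw [hPj, hd1]
      rw [← hdel] at h7
      exact term_bd hn hl.1 hl.2 hr0 hqr hN hD hT0 hT1 hT2 hT4 hdel hLD h7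
    refine (sum_le_card_nsmul _ _ _ h6).trans ?_
    rw [nsmul_eq_mul, Nat.card_Ico, hPq]
    refine mul_le_mul_of_nonneg_right ?_ (by positivity)
    exact_mod_cast (by omega : q - 1 ≤ n)
  have a3 : 2 * (n.choose k : ℝ) * Real.exp (-((1 - P.del) * (P.e * P.tau))) ≤
      (n : ℝ) ^ 160 * (n.choose k / DD n k) := by
    have hdT : P.del * (P.e * P.tau) ≤ 1 := by
      have h1 := mul_le_mul_of_nonneg_left hT2 (by positivity : (0 : ℝ) ≤ 1 / (n : ℝ) ^ 2)
      have h2 : 1 / (n : ℝ) ^ 2 * n = 1 / n := by field_simp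
      have h3 : 1 / (n : ℝ) ≤ 1 := by
        rw [div_le_one hn0]
        linarith
      rw [hdel]
      linarith
    have h6 : -((1 - P.del) * (P.e * P.tau)) ≤
        2 + 158 * Real.log n - Real.log (DD n k) := by
      have : -((1 - P.del) * (P.e * P.tau)) = -(P.e * P.tau) + P.del * (P.e * P.tau) := by ring
      linarith
    have h7 : Real.exp (2 + 158 * Real.log n - Real.log (DD n k)) =
        Real.exp 2 * (n : ℝ) ^ 158 / DD n k := by
      rw [Real.exp_sub, Real.exp_log hD, Real.exp_add]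
      have : (158 : ℝ) * Real.log n = ((158 : ℕ) : ℝ) * Real.log n := by norm_num
      rw [this, Real.exp_nat_mul, Real.exp_log hn0]
    have h8 : Real.exp 2 ≤ 9 := by
      have h9 : Real.exp 2 = Real.exp 1 ^ 2 := by
        rw [← Real.exp_nat_mul]
        norm_num
      rw [h9]
      have h10 := Real.exp_one_lt_d9
      have h11 := Real.exp_pos 1
      nlinarith
    calc 2 * (n.choose k : ℝ) * Real.exp (-((1 - P.del) * (P.e * P.tau)))
        ≤ 2 * (n.choose k : ℝ) * (Real.exp 2 * (n : ℝ) ^ 158 / DD n k) := by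
          rw [← h7]
          exact mul_le_mul_of_nonneg_left (Real.exp_le_exp.mpr h6) (by positivity)
      _ = (2 * Real.exp 2) * ((n : ℝ) ^ 158 * (n.choose k / DD n k)) := by ring
      _ ≤ (n : ℝ) ^ 2 * ((n : ℝ) ^ 158 * (n.choose k / DD n k)) := by
          refine mul_le_mul_of_nonneg_right ?_ (by positivity)
          nlinarith
      _ = (n : ℝ) ^ 160 * (n.choose k / DD n k) := by ring
  have hB : (0 : ℝ) < n.choose k / DD n k := by positivity
  set B : ℝ := n.choose k / DD n k with hBd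
  have b0 : (n : ℝ) ^ 162 * B = n * (n * ((n : ℝ) ^ 160 * B)) := by ring
  have b1 : 1000 * (n * ((n : ℝ) ^ 160 * B)) ≤ n * (n * ((n : ℝ) ^ 160 * B)) :=
    mul_le_mul_of_nonneg_right hn1 (by positivity)
  have b2 : 2 * n * B ≤ 2 * (n * ((n : ℝ) ^ 160 * B)) := by
    have h6 : 1 * B ≤ (n : ℝ) ^ 160 * B :=
      mul_le_mul_of_nonneg_right (one_le_pow₀ (by linarith)) hB.le
    have h7 := mul_le_mul_of_nonneg_left h6 (by linarith : (0 : ℝ) ≤ 2 * n)
    linarith
  have b3 : (n : ℝ) ^ 160 * B ≤ n * ((n : ℝ) ^ 160 * B) := by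
    have h6 : 1 * ((n : ℝ) ^ 160 * B) ≤ n * ((n : ℝ) ^ 160 * B) :=
      mul_le_mul_of_nonneg_right (by linarith) (by positivity)
    linarith
  have b4 : 0 ≤ n * ((n : ℝ) ^ 160 * B) := by positivity
  rw [b0]
  linarith

end Pool.Agent.H14.KD
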