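import Pool.Agent.H14.KD.Defs
import Pool.Agent.H70.KP.CB

/-!
# [H14 KD PB] consequences of the numerical hypotheses

Compare H70/KP/PB.
* D_pos: k <= n - k (hsz).
* rr_anti: sz_anti, 1 <= d. gam_nonneg: rr >= 0, d1 > 0, del > 0.
* a = 3 n / del, a1 = 3 n / d1 >= a (d1 <= del), 1 <= a.
* c_nonneg; c (e s) <= n for s <= tau (cc).
* cT: e (8 a e rho + a^2 (64 e + 4 rho)) + 3 rho e <= c e: 8 a e rho <= a^2 rho (8 e <= 1 <= a),
  3 rho <= 3 a^2 rho, so the left side is <= e a^2 (64 e + 8 rho) <= e a1^2 (64 e + 8 rho).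
* 4 nu <= n nu <= rho DD <= DD (H1).
* al: al s - al (s+1) = 8 e / DD; for s <= tau: e s <= e tau, so al s >= 8/DD; e <= e (e tau + 1 - e s)
  gives (1 - e) al s <= al (s+1).
* U0_pos: all factors positive. gl_nonneg.
-/

namespace Pool.Agent.H14.KD

open Finset
open Pool.Agent.H70.KG (KS DD S gf up0 up pr pr0)
open Pool.Agent.H70.KP (Sta Ex E1 Mild sz rr dis nea TS nc tg WW sz_anti sz_nonneg rr_nonneg)

variable {n k : ℕ}

theorem Par.D_pos (P : Par n k) : 0 < DD n k := by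
  have h := P.hsz
  unfold Pool.Agent.H70.KG.DD
  exact_mod_cast Nat.choose_pos (by omega)

theorem Par.n_pos (P : Par n k) : (0 : ℝ) < n := by
  have h := P.hn
  exact_mod_cast (by omega : 0 < n)

theorem rr_anti (n k : ℕ) {d : ℕ} (hd : 1 ≤ d) : rr n k d ≤ rr n k 1 := by
  unfold Pool.Agent.H70.KP.rr
  exact div_le_div_of_nonneg_right (sz_anti (by omega)) (Nat.cast_nonneg _)

theorem Par.gam_nonneg (P : Par n k) : 0 ≤ rr n k 1 + P.d1 :=
  add_nonneg (rr_nonneg n k 1) P.d10.le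

private theorem n_four (P : Par n k) : (16 : ℝ) ≤ n := by
  exact_mod_cast P.hn

private theorem a_pos (P : Par n k) : 0 < P.a := by
  have h1 := P.aa
  have h2 := P.n_pos
  by_contra h3
  push Not at h3
  nlinarith [P.del0]

theorem Par.a_one (P : Par n k) : 1 ≤ P.a := by
  have h1 := P.aa
  have h2 := n_four P
  have h3 := a_pos P
  nlinarith [P.del0, P.del1]

theorem Par.a_le (P : Par n k) : P.a ≤ P.a1 := by
  have h1 := P.aa
  have h2 := P.aa1
  have h3 := a_pos P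
  have h4 := P.d10
  have h5 := P.d1le
  by_contra h6
  push Not at h6
  have h7 : P.a1 * P.d1 < P.a * P.d1 := mul_lt_mul_of_pos_right h6 h4
  have h8 : P.a * P.d1 ≤ P.a * P.del := mul_le_mul_of_nonneg_left (by linarith) h3.le
  linarith

theorem Par.c_nonneg (P : Par n k) : 0 ≤ P.c := by
  have h1 := P.e0
  have h2 := P.rho0
  unfold Par.c
  positivity

theorem Par.c_le (P : Par n k) {s : ℕ} (hs : s ≤ P.tau) : P.c * (P.e * s) ≤ n := by
  have h1 := P.cc
  have h2 := P.c_nonneg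
  have h3 : (s : ℝ) ≤ P.tau := by exact_mod_cast hs
  have h4 : P.e * s ≤ P.e * P.tau := mul_le_mul_of_nonneg_left h3 P.e0.le
  calc P.c * (P.e * s) ≤ P.c * (P.e * P.tau) := mul_le_mul_of_nonneg_left h4 h2
    _ ≤ n := h1

private theorem e_le8 (P : Par n k) : 8 * P.e ≤ 1 := by
  have h1 := P.e2
  have h2 := n_four P
  have h3 := P.e0
  have h4 := P.del1
  nlinarith

theorem Par.cT (P : Par n k) :
    P.e * (8 * P.a * P.e * P.rho + P.a ^ 2 * (64 * P.e + 4 * P.rho)) + 3 * P.rho * P.e ≤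
      P.c * P.e := by
  have he := P.e0
  have hr := P.rho0
  have ha := P.a_one
  have hal := P.a_le
  have he8 : 8 * P.e ≤ 1 := e_le8 P
  have h1 : 8 * P.a * P.e * P.rho ≤ P.a ^ 2 * P.rho := by
    have : 8 * P.a * P.e ≤ P.a ^ 2 := by nlinarith
    exact mul_le_mul_of_nonneg_right this hr.le
  have h2 : 3 * P.rho ≤ 3 * (P.a ^ 2 * P.rho) := by
    have : 1 ≤ P.a ^ 2 := one_le_pow₀ ha
    nlinarith
  have h3 : P.a ^ 2 ≤ P.a1 ^ 2 := pow_le_pow_left₀ (by linarith) hal 2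
  have h4 : P.a ^ 2 * (64 * P.e + 8 * P.rho) ≤ P.a1 ^ 2 * (64 * P.e + 8 * P.rho) :=
    mul_le_mul_of_nonneg_right h3 (by positivity)
  have h5 : 8 * P.a * P.e * P.rho + P.a ^ 2 * (64 * P.e + 4 * P.rho) + 3 * P.rho ≤
      P.a1 ^ 2 * (64 * P.e + 8 * P.rho) := by nlinarith
  have h6 := mul_le_mul_of_nonneg_right h5 he.le
  unfold Par.c
  linarith

theorem Par.nu_le (P : Par n k) : 4 * P.nu ≤ DD n k := by
  have h1 := P.H1
  have h2 := n_four P
  have h3 := P.nu0
  have h4 := sz_nonneg n k (k + P.j)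
  have h5 := P.rho1
  have h6 := P.D_pos
  have h7 : P.rho * DD n k ≤ 1 * DD n k := mul_le_mul_of_nonneg_right h5 h6.le
  nlinarith

private theorem es_le (P : Par n k) {s : ℕ} (hs : s ≤ P.tau) : P.e * s ≤ P.e * P.tau := by
  have h3 : (s : ℝ) ≤ P.tau := by exact_mod_cast hs
  exact mul_le_mul_of_nonneg_left h3 P.e0.le

theorem Par.al_ge (P : Par n k) {s : ℕ} (hs : s ≤ P.tau) : 8 / DD n k ≤ P.al s := by
  have h1 := es_le P hs
  unfold Par.al
  refine div_le_div_of_nonneg_right ?_ P.D_pos.le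
  linarith

theorem Par.al_pos (P : Par n k) {s : ℕ} (hs : s ≤ P.tau) : 0 < P.al s :=
  lt_of_lt_of_le (div_pos (by norm_num) P.D_pos) (P.al_ge hs)

theorem Par.al_step (P : Par n k) (s : ℕ) : P.al s - P.al (s + 1) = 8 * P.e / DD n k := by
  unfold Par.al
  rw [← sub_div]
  congr 1
  push_cast
  ring

theorem Par.al_half (P : Par n k) {s : ℕ} (hs : s ≤ P.tau) :
    (1 - P.e) * P.al s ≤ P.al (s + 1) := by
  have h1 := P.al_ge hs
  have h2 := P.al_step s
  have h3 := mul_le_mul_of_nonneg_left h1 P.e0.le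
  have h4 : P.e * (8 / DD n k) = 8 * P.e / DD n k := by ring
  rw [h4] at h3
  linarith

theorem Par.U0_pos (P : Par n k) (l : ℕ) : 0 < P.U0 l := by
  have h1 := P.D_pos
  have h2 := P.n_pos
  have h3 := P.e0
  have h4 : (0 : ℝ) < (n.choose k : ℝ) := by
    have h := P.hsz
    exact_mod_cast Nat.choose_pos (by omega)
  unfold Par.U0
  positivity

theorem Par.gl_nonneg (P : Par n k) (l : ℕ) : 0 ≤ P.gl l := by
  have h1 := P.gam_nonneg
  have h2 := P.del0
  have h3 : 0 ≤ (l : ℝ) * (l - 1) / 2 := by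
    rcases Nat.eq_zero_or_pos l with h | h
    · subst h
      simp
    · have h4 : (1 : ℝ) ≤ l := by exact_mod_cast h
      have h5 : 0 ≤ (l : ℝ) * (l - 1) := mul_nonneg (by linarith) (by linarith)
      linarith
  unfold Par.gl
  exact mul_nonneg (mul_nonneg (by linarith) h3) h1

theorem Par.WW_pos (P : Par n k) : 0 < WW n := by
  have h := P.n_pos
  unfold Pool.Agent.H70.KP.WW
  positivity

end Pool.Agent.H14.KD
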