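import Pool.Agent.H14.KD.RO

/-!
# [H14 KD R1] bounds for the sums S

upp: read_V: a1/D (S V - sz) - c (e s) <= log (4^n) = n log 4 <= 1.4 n, and c (e s) <= n (Par.c_le), so
a1/D (S V - sz) <= 3 n = a1 d1 (aa1).
low: read_T in the same way: -(a/D)(S T - tg D) <= 3 n = a del (aa), so S T >= (tg - del) D.
-/

namespace Pool.Agent.H14.KD

open Finset
open Pool.Agent.H70.KG (KS DD S gf up0 up pr pr0)
open Pool.Agent.H70.KP (Sta Ex E1 Mild sz rr dis nea TS nc tg WW)

variable {n k : ℕ}

private theorem log_four (n : ℕ) : Real.log ((4 : ℝ) ^ n) ≤ 2 * n := by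
  rw [Real.log_pow]
  have h1 : Real.log 4 ≤ 2 := by
    have h2 : (4 : ℝ) = 2 ^ 2 := by norm_num
    rw [h2, Real.log_pow]
    have := Real.log_two_lt_d9
    push_cast
    linarith
  have h2 : (0 : ℝ) ≤ n := Nat.cast_nonneg n
  nlinarith

theorem upp {P : Par n k} {s : ℕ} {σ : Sta n} (b : Base P s σ) {V : Finset (Fin n)}
    (h1 : k ≤ V.card) (h2 : V.card < k + 2 * P.j) :
    S n k σ.y V ≤ sz n k V.card + P.d1 * DD n k := by
  have hD := P.D_pos
  have h3 := read_V b (mem_filter.2 ⟨mem_univ V, h1, h2⟩)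
  have h4 := (Real.le_log_iff_exp_le (by positivity)).2 h3
  have h5 := log_four n
  have h6 := P.c_le b.hs
  have h7 := P.aa1
  have h8 : P.a1 / DD n k * (S n k σ.y V - sz n k V.card) ≤ P.a1 * P.d1 := by
    rw [h7]
    linarith
  have ha1 : 0 < P.a1 := by linarith [P.a_one, P.a_le]
  have h9 : P.a1 * (S n k σ.y V - sz n k V.card) ≤ P.a1 * (P.d1 * DD n k) := by
    have h10 := mul_le_mul_of_nonneg_right h8 hD.le
    have e : P.a1 / DD n k * (S n k σ.y V - sz n k V.card) * DD n k =
        P.a1 * (S n k σ.y V - sz n k V.card) := by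
      field_simp
    rw [e] at h10
    linarith
  have h10 := le_of_mul_le_mul_left h9 ha1
  linarith

theorem low {P : Par n k} {s : ℕ} {σ : Sta n} (b : Base P s σ) {T : Finset (Fin n)}
    (hT : T ∈ KS n k) : (tg k P.j σ.C T - P.del) * DD n k ≤ S n k σ.y T := by
  have hD := P.D_pos
  have h3 := read_T b hT
  have h4 := (Real.le_log_iff_exp_le (by positivity)).2 h3
  have h5 := log_four n
  have h6 := P.c_le b.hs
  have h7 := P.aa
  have h8 : -(P.a / DD n k) * (S n k σ.y T - tg k P.j σ.C T * DD n k) ≤ P.a * P.del := by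
    rw [h7]
    linarith
  have ha : 0 < P.a := by linarith [P.a_one]
  have h9 : P.a * (tg k P.j σ.C T * DD n k - S n k σ.y T) ≤ P.a * (P.del * DD n k) := by
    have h10 := mul_le_mul_of_nonneg_right h8 hD.le
    have e : -(P.a / DD n k) * (S n k σ.y T - tg k P.j σ.C T * DD n k) * DD n k =
        P.a * (tg k P.j σ.C T * DD n k - S n k σ.y T) := by
      field_simp
      ring
    rw [e] at h10
    linarith
  have h10 := le_of_mul_le_mul_left h9 ha
  linarith

end Pool.Agent.H14.KD
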