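import Pool.Agent.H14.KD.RO

/-!
# [H14 KD R2] balls: few chosen sets, small weight

QQ_lt: read_Q, gl q >= 0, e s <= e tau, and HQ (P.gl P.q, P.U0 P.q unfolded): QQ < (4 nu/D)^q.
nc_lt: suppose q <= (nc j C T).card. Take an injective f : Fin q -> nc j C T (e.g. the first q
values of an enumeration, Finset.exists_subset_card_eq and Finset.equivFin / orderEmbOfFin).
f is in tup q (nea j T) (C in KS; different k-sets have (f i' \ f i).card >= 1, eq_of_sd). Each
factor wt 0 0 (al s) (e s) σ (f i) = exp 0 + al s * exp 0 * y >= 1, so QQ >= 1 (the other terms are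
>= 0). But QQ < (4 nu/D)^q <= 1 (Par.nu_le).
ball_le: let F = nea j T, X = sum of y over F, M = exp ((1 + 2 del)(e s)) (Base.ymax). Suppose
X > nu. 2 q M <= nu (H3, e s <= e tau). H70.KP.TS_ge with j := 1, nu := M, m := q (the hypothesis:
for T' in KS the A in KS with (A \ T').card < 1 is only T' (eq_of_sd), so the sum is y T' <= M):
(X - q M)^q <= TS 1 q y F, and X - q M >= nu/2. For f in tup q F: product of wt >= product of
al s * y (f i) >= (8/D)^q * product of y (f i) (Par.al_ge). So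
(8/D)^q (nu/2)^q <= (8/D)^q TS 1 q y F <= QQ < (4 nu/D)^q, contradiction.
-/

namespace Pool.Agent.H14.KD

open Finset
open Pool.Agent.H70.KG (KS DD S gf up0 up pr pr0)
open Pool.Agent.H70.KP (Sta Ex E1 Mild sz rr dis nea TS nc tg WW TS_ge nea_sub eq_of_sd)

variable {n k : ℕ}

private theorem es_le {P : Par n k} {s : ℕ} (hs : s ≤ P.tau) : P.e * s ≤ P.e * P.tau := by
  have h1 : (s : ℝ) ≤ P.tau := by exact_mod_cast hs
  exact mul_le_mul_of_nonneg_left h1 P.e0.le

theorem QQ_lt {P : Par n k} {s : ℕ} {σ : Sta n} (b : Base P s σ) :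
    P.QQ s σ < (4 * P.nu / DD n k) ^ P.q := by
  have h1 := read_Q b
  have h2 := P.HQ
  have h3 : P.gl P.q * (P.e * s) ≤ P.gl P.q * (P.e * P.tau) :=
    mul_le_mul_of_nonneg_left (es_le b.hs) (P.gl_nonneg P.q)
  have hn := P.n_pos
  have h4 : 8 * n * P.U0 P.q * Real.exp (P.gl P.q * (P.e * s)) ≤
      8 * n * P.U0 P.q * Real.exp (P.gl P.q * (P.e * P.tau)) :=
    mul_le_mul_of_nonneg_left (Real.exp_le_exp.2 h3)
      (mul_nonneg (by positivity) (P.U0_pos P.q).le)
  refine lt_of_le_of_lt (h1.trans h4) ?_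
  exact h2

private theorem tup_sum_le {P : Par n k} {s : ℕ} {σ : Sta n} (b : Base P s σ)
    {T : Finset (Fin n)} (hT : T ∈ KS n k) :
    ∑ f ∈ tup P.q (nea n k P.j T), ∏ i, wt 0 0 (P.al s) (P.e * s) σ (f i) ≤ P.QQ s σ := by
  unfold Par.QQ
  refine single_le_sum (f := fun T => ∑ f ∈ tup P.q (nea n k P.j T),
    ∏ i, wt 0 0 (P.al s) (P.e * s) σ (f i)) (fun T _ => ?_) hT
  refine sum_nonneg fun f hf => prod_nonneg fun i _ => ?_
  have h1 := Fintype.mem_piFinset.1 (mem_filter.1 hf).1 i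
  exact wt_nonneg (P.al_pos b.hs).le (b.nonneg _ (nea_sub n k P.j T h1))

theorem nc_lt {P : Par n k} {s : ℕ} {σ : Sta n} (b : Base P s σ) {T : Finset (Fin n)}
    (hT : T ∈ KS n k) : (nc P.j σ.C T).card < P.q := by
  by_contra hcon
  push Not at hcon
  obtain ⟨F, hF, hFc⟩ := Finset.exists_subset_card_eq hcon
  let f : Fin P.q → Finset (Fin n) := fun i => ((F.equivFinOfCardEq hFc).symm i : Finset (Fin n))
  have hfF : ∀ i, f i ∈ F := fun i => ((F.equivFinOfCardEq hFc).symm i).2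
  have hfC : ∀ i, f i ∈ σ.C := fun i => (mem_filter.1 (hF (hfF i))).1
  have hfK : ∀ i, f i ∈ KS n k := fun i => b.sub (hfC i)
  have hft : f ∈ tup P.q (nea n k P.j T) := by
    refine mem_filter.2 ⟨Fintype.mem_piFinset.2 fun i => mem_filter.2
      ⟨hfK i, (mem_filter.1 (hF (hfF i))).2⟩, fun i i' hne => ?_⟩
    by_contra h
    have h0 : (f i' \ f i).card = 0 := by omega
    have h1 := eq_of_sd (hfK i) (hfK i') h0
    have h2 : (F.equivFinOfCardEq hFc).symm i = (F.equivFinOfCardEq hFc).symm i' :=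
      Subtype.ext h1
    exact hne ((F.equivFinOfCardEq hFc).symm.injective h2)
  have h1 : 1 ≤ ∏ i, wt 0 0 (P.al s) (P.e * s) σ (f i) := by
    have h0 : (1 : ℝ) = ∏ _i : Fin P.q, (1 : ℝ) := by simp
    rw [h0]
    refine Finset.prod_le_prod (fun _ _ => zero_le_one) fun i _ => ?_
    unfold wt
    rw [if_pos (hfC i), zero_mul, neg_zero, Real.exp_zero]
    have h2 : 0 ≤ P.al s * Real.exp (-(0 * (P.e * s))) * σ.y (f i) :=
      mul_nonneg (mul_nonneg (P.al_pos b.hs).le (Real.exp_pos _).le) (b.nonneg _ (hfK i))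
    linarith
  have h2 : ∏ i, wt 0 0 (P.al s) (P.e * s) σ (f i) ≤
      ∑ f ∈ tup P.q (nea n k P.j T), ∏ i, wt 0 0 (P.al s) (P.e * s) σ (f i) := by
    refine single_le_sum (f := fun f : Fin P.q → Finset (Fin n) =>
      ∏ i, wt 0 0 (P.al s) (P.e * s) σ (f i)) (fun f hf => prod_nonneg fun i _ => ?_) hft
    have h1 := Fintype.mem_piFinset.1 (mem_filter.1 hf).1 i
    exact wt_nonneg (P.al_pos b.hs).le (b.nonneg _ (nea_sub n k P.j T h1))
  have h3 := tup_sum_le b hT
  have h4 := QQ_lt b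
  have h5 : (4 * P.nu / DD n k) ^ P.q ≤ 1 := by
    refine pow_le_one₀ (div_nonneg (by linarith [P.nu0]) P.D_pos.le) ?_
    rw [div_le_one P.D_pos]
    exact P.nu_le
  linarith

theorem ball_le {P : Par n k} {s : ℕ} {σ : Sta n} (b : Base P s σ) {T : Finset (Fin n)}
    (hT : T ∈ KS n k) :
    ∑ A ∈ (KS n k).filter (fun A => (A \ T).card < P.j), σ.y A ≤ P.nu := by
  by_contra hcon
  push Not at hcon
  have hD := P.D_pos
  have hnu := P.nu0
  have hX : ∑ A ∈ (KS n k).filter (fun A => (A \ T).card < P.j), σ.y A =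
      ∑ A ∈ nea n k P.j T, σ.y A := rfl
  rw [hX] at hcon
  set M : ℝ := Real.exp ((1 + 2 * P.del) * (P.e * s)) with hM
  have hM0 : 0 ≤ M := (Real.exp_pos _).le
  have hM2 : 2 * P.q * M ≤ P.nu := by
    refine le_trans ?_ P.H3
    refine mul_le_mul_of_nonneg_left ?_ (by positivity)
    refine Real.exp_le_exp.2 ?_
    exact mul_le_mul_of_nonneg_left (es_le b.hs) (by linarith [P.del0])
  have hone : ∀ T' ∈ KS n k, ∑ A ∈ (KS n k).filter (fun A => (A \ T').card < 1), σ.y A ≤ M := by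
    intro T' hT'
    have h1 : (KS n k).filter (fun A => (A \ T').card < 1) = {T'} := by
      ext A
      rw [mem_filter, mem_singleton]
      constructor
      · rintro ⟨h2, h3⟩
        exact (eq_of_sd hT' h2 (by omega)).symm
      · rintro rfl
        exact ⟨hT', by simp⟩
    rw [h1, sum_singleton]
    exact b.ymax T' hT'
  have hge := TS_ge (j := 1) (nea_sub n k P.j T) b.nonneg hM0 hone P.q (by linarith)
  have h1 : (P.nu / 2) ^ P.q ≤ TS 1 P.q σ.y (nea n k P.j T) := by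
    refine le_trans (pow_le_pow_left₀ (by linarith) ?_ _) hge
    linarith
  have h2 : TS 1 P.q σ.y (nea n k P.j T) = ∑ f ∈ tup P.q (nea n k P.j T), ∏ i, σ.y (f i) := by
    unfold Pool.Agent.H70.KP.TS tup
    rfl
  have h3 : (8 / DD n k) ^ P.q * TS 1 P.q σ.y (nea n k P.j T) ≤ P.QQ s σ := by
    refine le_trans ?_ (tup_sum_le b hT)
    rw [h2, mul_sum]
    refine sum_le_sum fun f hf => ?_
    have h4 : (8 / DD n k) ^ P.q * ∏ i, σ.y (f i) = ∏ i : Fin P.q, (8 / DD n k * σ.y (f i)) := by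
      rw [prod_mul_distrib, prod_const, card_univ, Fintype.card_fin]
    rw [h4]
    have hy : ∀ i, 0 ≤ σ.y (f i) := fun i => b.nonneg _ (nea_sub n k P.j T
      (Fintype.mem_piFinset.1 (mem_filter.1 hf).1 i))
    refine prod_le_prod (fun i _ => mul_nonneg (by positivity) (hy i)) fun i _ => ?_
    unfold wt
    rw [zero_mul (P.e * (s : ℝ)), neg_zero, Real.exp_zero, mul_one]
    have h5 := mul_le_mul_of_nonneg_right (P.al_ge b.hs) (hy i)
    have h6 : (0 : ℝ) ≤ if f i ∈ σ.C then Real.exp (-(0 * σ.st (f i))) else 0 := by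
      split_ifs
      · exact (Real.exp_pos _).le
      · exact le_rfl
    linarith
  have h4 := QQ_lt b
  have h5 : (4 * P.nu / DD n k) ^ P.q = (8 / DD n k) ^ P.q * (P.nu / 2) ^ P.q := by
    rw [← mul_pow]
    congr 1
    ring
  have h6 : (8 / DD n k) ^ P.q * (P.nu / 2) ^ P.q ≤
      (8 / DD n k) ^ P.q * TS 1 P.q σ.y (nea n k P.j T) :=
    mul_le_mul_of_nonneg_left h1 (by positivity)
  linarith

end Pool.Agent.H14.KD
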