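import Pool.Agent.H14.KD.R2
import Pool.Agent.H70.KP.NV
import Pool.Agent.H70.KG.SB

/-!
# [H14 KD R3] families: far jumps and near weights are small

fam_le: let F be dis n k V (V in Vd) or nea n k j V (V in Vc), X = sum of y over F. If X <= n nu we are
done. Otherwise H70.KP.TS_ge (m = n, hypothesis by ball_le): (X - n nu)^n <= TS j n y F. read_Fd or
read_Fn: TS <= 4^n exp (n^2 rho (e s)) F.card^n <= 4^n exp (1/2) F.card^n (c4; if F.card = 0 then
X = 0). So X - n nu <= 4 exp (1/(2n)) F.card <= 5 F.card (n >= 16: exp (1/32) <= 5/4; compare n-th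
powers: pow_le_pow_left / abs_le_of_pow_le).
far_le: (V u B).card = V.card + (B \ V).card >= k + j, so V u B in Vd; S (V u B) is the sum over
dis n k (V u B), of cardinality (n - (V u B).card).choose k <= sz (k + j) (KG.sb_card, sz_anti): H1.
near_le: the sum over nea n k j V, (nea n k j V).card <= n^(4 j) (H70.KP.nea_card): H2.
-/

namespace Pool.Agent.H14.KD

open Finset
open Pool.Agent.H70.KG (KS DD S gf up0 up pr pr0)
open Pool.Agent.H70.KP (Sta Ex E1 Mild sz rr dis nea TS nc tg WW TS_ge nea_sub dis_sub nea_card sz_anti)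

variable {n k : ℕ}

private theorem two_four (m : ℕ) (h : 4 ≤ m) : (2 : ℝ) * 4 ^ m ≤ 5 ^ m := by
  induction m, h using Nat.le_induction with
  | base => norm_num
  | succ m _ ih =>
    rw [pow_succ, pow_succ]
    nlinarith [pow_pos (show (0 : ℝ) < 4 by norm_num) m]

private theorem exp_half : Real.exp (1 / 2) ≤ 2 := by
  have h9 : Real.exp (1 / 2) ^ 2 ≤ 2 ^ 2 := by
    rw [← Real.exp_nat_mul]
    have : ((2 : ℕ) : ℝ) * (1 / 2) = 1 := by norm_num
    rw [this]
    have := Real.exp_one_lt_d9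
    linarith
  exact le_of_sq_le_sq h9 (by norm_num)

private theorem fam_le {P : Par n k} {s : ℕ} {σ : Sta n} (b : Base P s σ)
    {F : Finset (Finset (Fin n))} (hF : F ⊆ KS n k)
    (hT : Real.exp (-((n : ℝ) ^ 2 * P.rho * (P.e * s))) *
      (TS P.j n σ.y F / (F.card : ℝ) ^ n) ≤ 4 ^ n) :
    ∑ A ∈ F, σ.y A ≤ n * P.nu + 5 * F.card := by
  have hn4 : 4 ≤ n := by have := P.hn; omega
  have hnu := P.nu0
  by_cases hX : ∑ A ∈ F, σ.y A ≤ n * P.nu
  · have : (0 : ℝ) ≤ 5 * F.card := by positivity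
    linarith
  push Not at hX
  have hge := TS_ge (j := P.j) hF b.nonneg hnu.le (fun T hT => ball_le b hT) n hX.le
  have hFn : F.Nonempty := by
    rw [nonempty_iff_ne_empty]
    intro h
    rw [h, sum_empty] at hX
    have : 0 ≤ (n : ℝ) * P.nu := by positivity
    linarith
  have hc : (0 : ℝ) < F.card := by exact_mod_cast card_pos.mpr hFn
  set E := (n : ℝ) ^ 2 * P.rho * (P.e * s) with hE
  have hE2 : Real.exp E ≤ 2 := by
    refine le_trans (Real.exp_le_exp.mpr ?_) exp_half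
    have h1 : (s : ℝ) ≤ P.tau := by exact_mod_cast b.hs
    have h2 : P.e * s ≤ P.e * P.tau := mul_le_mul_of_nonneg_left h1 P.e0.le
    have h3 : 0 ≤ (n : ℝ) ^ 2 * P.rho := by
      have := P.rho0
      positivity
    exact (mul_le_mul_of_nonneg_left h2 h3).trans P.c4
  have hEE : Real.exp E * Real.exp (-E) = 1 := by
    rw [← Real.exp_add, add_neg_cancel, Real.exp_zero]
  have hcn : (0 : ℝ) < (F.card : ℝ) ^ n := pow_pos hc n
  have h1 : TS P.j n σ.y F ≤ Real.exp E * 4 ^ n * (F.card : ℝ) ^ n := by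
    have h2 := mul_le_mul_of_nonneg_left hT (Real.exp_pos E).le
    rw [← mul_assoc, hEE, one_mul] at h2
    exact (div_le_iff₀ hcn).mp h2
  have h2 : (∑ A ∈ F, σ.y A - n * P.nu) ^ n ≤ (5 * (F.card : ℝ)) ^ n := by
    calc (∑ A ∈ F, σ.y A - n * P.nu) ^ n ≤ Real.exp E * 4 ^ n * (F.card : ℝ) ^ n :=
          hge.trans h1
      _ ≤ 2 * 4 ^ n * (F.card : ℝ) ^ n := by
          refine mul_le_mul_of_nonneg_right ?_ hcn.le
          exact mul_le_mul_of_nonneg_right hE2 (by positivity)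
      _ ≤ 5 ^ n * (F.card : ℝ) ^ n := mul_le_mul_of_nonneg_right (two_four n hn4) hcn.le
      _ = (5 * (F.card : ℝ)) ^ n := by rw [mul_pow]
  have h3 := (pow_le_pow_iff_left₀ (by linarith : 0 ≤ ∑ A ∈ F, σ.y A - n * P.nu)
    (by positivity) (by omega)).mp h2
  linarith

theorem fam_le_d {P : Par n k} {s : ℕ} {σ : Sta n} (b : Base P s σ) {V : Finset (Fin n)}
    (hV : V ∈ P.Vd) : ∑ A ∈ dis n k V, σ.y A ≤ n * P.nu + 5 * ((dis n k V).card : ℝ) :=
  fam_le b (dis_sub n k V) (read_Fd b hV)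

theorem fam_le_n {P : Par n k} {s : ℕ} {σ : Sta n} (b : Base P s σ) {V : Finset (Fin n)}
    (hV : V ∈ P.Vc) :
    ∑ A ∈ nea n k P.j V, σ.y A ≤ n * P.nu + 5 * ((nea n k P.j V).card : ℝ) :=
  fam_le b (nea_sub n k P.j V) (read_Fn b hV)

theorem far_le {P : Par n k} {s : ℕ} {σ : Sta n} (b : Base P s σ) {V B : Finset (Fin n)}
    (h1 : k ≤ V.card) (h3 : P.j ≤ (B \ V).card) :
    S n k σ.y (V ∪ B) ≤ P.rho * DD n k := by
  have hc := Pool.Agent.H70.KP.union_card V B
  have hVd : V ∪ B ∈ P.Vd := mem_filter.mpr ⟨mem_univ _, by omega⟩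
  have h4 := fam_le_d b hVd
  have h5 : ((dis n k (V ∪ B)).card : ℝ) ≤ sz n k (k + P.j) := by
    have h6 := Pool.Agent.H70.KG.sb_card (n := n) (k := k) (V ∪ B)
    have h7 : ((dis n k (V ∪ B)).card : ℝ) = sz n k (V ∪ B).card := by
      unfold Pool.Agent.H70.KP.dis Pool.Agent.H70.KP.sz
      exact_mod_cast h6
    rw [h7]
    exact sz_anti (by omega)
  have h6 : S n k σ.y (V ∪ B) = ∑ A ∈ dis n k (V ∪ B), σ.y A := rfl
  rw [h6]
  have h7 := P.H1
  linarith

theorem near_le {P : Par n k} {s : ℕ} {σ : Sta n} (b : Base P s σ) {V : Finset (Fin n)}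
    (h1 : k ≤ V.card) (h2 : V.card < k + 2 * P.j) :
    ∑ B ∈ (KS n k).filter (fun B => (B \ V).card < P.j), σ.y B ≤ P.rho * DD n k := by
  have hn4 := P.hn
  have hVc : V ∈ P.Vc := mem_filter.mpr ⟨mem_univ _, h1, h2⟩
  have h3 := fam_le_n b hVc
  have h4 : ((nea n k P.j V).card : ℝ) ≤ (n : ℝ) ^ (4 * P.j) := by
    exact_mod_cast nea_card (by omega) h1 h2
  have h5 : ∑ B ∈ (KS n k).filter (fun B => (B \ V).card < P.j), σ.y B =
      ∑ A ∈ nea n k P.j V, σ.y A := rfl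
  rw [h5]
  have h6 := P.H2
  linarith

end Pool.Agent.H14.KD
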