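import Pool.Agent.H14.KD.R1
import Pool.Agent.H14.KD.R3
import Pool.Agent.H70.KG.SB

/-!
# [H14 KD R4] the derived facts

S_le: A in KS has card k, upp with sz n k k = DD.
total: KG.sum_S: DD * (sum of y) = sum over T in KS of S T <= C(n,k) (1 + d1) DD.
p0: pr0 = 1 - (e/DD) (sum of y) >= 1 - (1 + d1) e C(n,k)/DD >= 1 - (1 + d1)/2 >= 0 (eN, d1 <= 1).
good: collect (Mild: e <= 1/16 and 4 n e <= 1 from e2, del1, hn; far from far_le, near from near_le).
-/

namespace Pool.Agent.H14.KD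

open Finset
open Pool.Agent.H70.KG (KS DD S gf up0 up pr pr0)
open Pool.Agent.H70.KP (Sta Ex E1 Mild sz rr dis nea TS nc tg WW mem_KS sz_k card_KS)

variable {n k : ℕ}

theorem S_le {P : Par n k} {s : ℕ} {σ : Sta n} (b : Base P s σ) {A : Finset (Fin n)}
    (hA : A ∈ KS n k) : S n k σ.y A ≤ (1 + P.d1) * DD n k := by
  have hAc : A.card = k := mem_KS.mp hA
  have h := upp b (V := A) (by omega) (by have := P.hj; omega)
  rw [hAc, sz_k] at h
  linarith

theorem total {P : Par n k} {s : ℕ} {σ : Sta n} (b : Base P s σ) :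
    ∑ A ∈ KS n k, σ.y A ≤ (1 + P.d1) * (n.choose k : ℝ) := by
  have hD := P.D_pos
  have h1 := Pool.Agent.H70.KG.sum_S (n := n) (k := k) σ.y
  have h2 : ∑ T ∈ KS n k, S n k σ.y T ≤ ∑ _T ∈ KS n k, (1 + P.d1) * DD n k :=
    sum_le_sum fun T hT => S_le b hT
  rw [sum_const, nsmul_eq_mul, card_KS, h1] at h2
  have h3 : DD n k * ∑ A ∈ KS n k, σ.y A ≤ DD n k * ((1 + P.d1) * (n.choose k : ℝ)) := by
    linarith
  exact le_of_mul_le_mul_left h3 hD

theorem p0 {P : Par n k} {s : ℕ} {σ : Sta n} (b : Base P s σ) : 0 ≤ pr0 n k P.e σ.y := by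
  have hD := P.D_pos
  have he := P.e0
  have h1 := total b
  have h2 := P.eN
  have h3 : ∑ B ∈ KS n k, pr n k P.e σ.y B = P.e * (∑ A ∈ KS n k, σ.y A) / DD n k := by
    unfold Pool.Agent.H70.KG.pr
    rw [mul_sum, sum_div]
  have h4 : P.e * (∑ A ∈ KS n k, σ.y A) / DD n k ≤ 1 := by
    rw [div_le_one hD]
    have h5 := mul_le_mul_of_nonneg_left h1 he.le
    have h6 : 0 ≤ P.e * (n.choose k : ℝ) := mul_nonneg he.le (Nat.cast_nonneg _)
    nlinarith [P.d1le, P.del1]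
  unfold Pool.Agent.H70.KG.pr0
  rw [h3]
  linarith

theorem good {P : Par n k} {s : ℕ} {σ : Sta n} (b : Base P s σ) : Good P σ := by
  have hD := P.D_pos
  have hn : (16 : ℝ) ≤ n := by exact_mod_cast P.hn
  have he := P.e0
  have he2 := P.e2
  have hdel := P.del1
  have hne : 16 * ((n : ℝ) * P.e) ≤ 1 / 2 := by linarith
  have h16 : P.e ≤ 1 / 16 := by nlinarith
  refine ⟨⟨hD, P.e0, by linarith, h16, b.nonneg, fun A hA => ?_, p0 b⟩,
    b.dead, b.sub, fun V h1 h2 => upp b h1 h2, fun V B h1 _ h3 => far_le b h1 h3,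
    fun V h1 h2 => near_le b h1 h2⟩
  exact (S_le b hA).trans (mul_le_mul_of_nonneg_right (by linarith [P.d1le, P.del1]) hD.le)

end Pool.Agent.H14.KD
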