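import Pool.Agent.H14.KD.PB
import Pool.Agent.H70.KP.TR

/-!
# [H14 KD RO] reading off the terms of the potential

All parts of Phi are >= 0 (weights >= 0, s <= tau, al s > 0, wt >= 0, TS_nonneg), so each part, and
each summand of each part, is <= 4^n. For the parts multiplied by WW = 4^n / (8 n) the rest is
<= 8 n; U0 > 0; multiply by exp (gl (e s)).
-/

namespace Pool.Agent.H14.KD

open Finset
open Pool.Agent.H70.KG (KS DD S gf up0 up pr pr0)
open Pool.Agent.H70.KP (Sta Ex E1 Mild sz rr dis nea TS nc tg WW TS_nonneg dis_sub nea_sub)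

variable {n k : ℕ}

theorem wt_nonneg {k1 k2 al t : ℝ} (hal : 0 ≤ al) {σ : Sta n} {B : Finset (Fin n)}
    (hB : 0 ≤ σ.y B) : 0 ≤ wt k1 k2 al t σ B := by
  unfold wt
  refine add_nonneg ?_ (mul_nonneg (mul_nonneg hal (Real.exp_pos _).le) hB)
  split_ifs
  · exact (Real.exp_pos _).le
  · exact le_rfl

theorem QQ_nonneg (P : Par n k) {s : ℕ} (hs : s ≤ P.tau) {σ : Sta n}
    (hy : ∀ A ∈ KS n k, 0 ≤ σ.y A) : 0 ≤ P.QQ s σ := by
  unfold Par.QQ
  refine sum_nonneg fun T _ => sum_nonneg fun f hf => prod_nonneg fun i _ => ?_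
  have h1 := Fintype.mem_piFinset.1 (mem_filter.1 hf).1 i
  exact wt_nonneg (P.al_pos hs).le (hy _ (nea_sub n k P.j T h1))

theorem rin_sub (n k j : ℕ) (T : Finset (Fin n)) : rin n k j T ⊆ KS n k := filter_subset _ _

theorem UU_nonneg (P : Par n k) (l : ℕ) {s : ℕ} (hs : s ≤ P.tau) {σ : Sta n}
    (hy : ∀ A ∈ KS n k, 0 ≤ σ.y A) : 0 ≤ P.UU l s σ := by
  unfold Par.UU
  refine sum_nonneg fun T hT => sum_nonneg fun f hf => mul_nonneg (hy T hT)
    (prod_nonneg fun i _ => ?_)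
  have h1 := Fintype.mem_piFinset.1 (mem_filter.1 hf).1 i
  exact wt_nonneg (P.al_pos hs).le (hy _ (rin_sub n k P.j T h1))

theorem PF_nonneg (P : Par n k) (s : ℕ) {y : Finset (Fin n) → ℝ} (hy : ∀ A ∈ KS n k, 0 ≤ y A) :
    0 ≤ P.PF s y := by
  unfold Par.PF
  refine mul_nonneg (Real.exp_pos _).le (add_nonneg (sum_nonneg fun V _ => ?_)
    (sum_nonneg fun V _ => ?_))
  · exact div_nonneg (TS_nonneg (dis_sub n k V) hy n) (pow_nonneg (Nat.cast_nonneg _) _)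
  · exact div_nonneg (TS_nonneg (nea_sub n k P.j V) hy n) (pow_nonneg (Nat.cast_nonneg _) _)

private theorem PV_nonneg (P : Par n k) (s : ℕ) (y : Finset (Fin n) → ℝ) : 0 ≤ P.PV s y := by
  unfold Par.PV
  exact sum_nonneg fun V _ => (Real.exp_pos _).le

private theorem PT_nonneg (P : Par n k) (s : ℕ) (σ : Sta n) : 0 ≤ P.PT s σ := by
  unfold Par.PT
  exact sum_nonneg fun V _ => (Real.exp_pos _).le

private theorem parts {P : Par n k} {s : ℕ} {σ : Sta n} (b : Base P s σ) :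
    P.PV s σ.y ≤ 4 ^ n ∧ P.PT s σ ≤ 4 ^ n ∧ P.PF s σ.y ≤ 4 ^ n ∧
      WW n * (Real.exp (-(P.gl P.q * (P.e * s))) * P.QQ s σ / P.U0 P.q) ≤ 4 ^ n ∧
      WW n * (∑ l ∈ Ico 1 P.q, Real.exp (-(P.gl l * (P.e * s))) * P.UU l s σ / P.U0 l) ≤
        4 ^ n := by
  have h := b.phi
  unfold Par.Phi at h
  have hW := P.WW_pos.le
  have h1 := PV_nonneg P s σ.y
  have h2 := PT_nonneg P s σ
  have h3 := PF_nonneg P s b.nonneg
  have h4 : 0 ≤ WW n * (Real.exp (-(P.gl P.q * (P.e * s))) * P.QQ s σ / P.U0 P.q) :=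
    mul_nonneg hW (div_nonneg (mul_nonneg (Real.exp_pos _).le (QQ_nonneg P b.hs b.nonneg))
      (P.U0_pos P.q).le)
  have h5 : 0 ≤ WW n * (∑ l ∈ Ico 1 P.q,
      Real.exp (-(P.gl l * (P.e * s))) * P.UU l s σ / P.U0 l) :=
    mul_nonneg hW (sum_nonneg fun l _ => div_nonneg
      (mul_nonneg (Real.exp_pos _).le (UU_nonneg P l b.hs b.nonneg)) (P.U0_pos l).le)
  refine ⟨?_, ?_, ?_, ?_, ?_⟩ <;> linarith

private theorem of_WW (P : Par n k) {X : ℝ} (h : WW n * X ≤ 4 ^ n) : X ≤ 8 * n := by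
  have hW := P.WW_pos
  have hn := P.n_pos
  have h1 : WW n * (8 * n) = 4 ^ n := by
    unfold Pool.Agent.H70.KP.WW
    field_simp
  rw [← h1] at h
  exact le_of_mul_le_mul_left h hW

theorem read_V {P : Par n k} {s : ℕ} {σ : Sta n} (b : Base P s σ) {V : Finset (Fin n)}
    (hV : V ∈ P.Vc) :
    Real.exp (P.a1 / DD n k * (S n k σ.y V - sz n k V.card) - P.c * (P.e * s)) ≤ 4 ^ n := by
  refine le_trans ?_ (parts b).1
  unfold Par.PV
  exact single_le_sum (f := fun V => Real.exp (P.a1 / DD n k *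
    (S n k σ.y V - sz n k V.card) - P.c * (P.e * s))) (fun _ _ => (Real.exp_pos _).le) hV

theorem read_T {P : Par n k} {s : ℕ} {σ : Sta n} (b : Base P s σ) {T : Finset (Fin n)}
    (hT : T ∈ KS n k) :
    Real.exp (-(P.a / DD n k) * (S n k σ.y T - tg k P.j σ.C T * DD n k) - P.c * (P.e * s)) ≤
      4 ^ n := by
  refine le_trans ?_ (parts b).2.1
  unfold Par.PT
  exact single_le_sum (f := fun T => Real.exp (-(P.a / DD n k) *
    (S n k σ.y T - tg k P.j σ.C T * DD n k) - P.c * (P.e * s)))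
    (fun _ _ => (Real.exp_pos _).le) hT

theorem read_Fd {P : Par n k} {s : ℕ} {σ : Sta n} (b : Base P s σ) {V : Finset (Fin n)}
    (hV : V ∈ P.Vd) :
    Real.exp (-((n : ℝ) ^ 2 * P.rho * (P.e * s))) *
      (TS P.j n σ.y (dis n k V) / ((dis n k V).card : ℝ) ^ n) ≤ 4 ^ n := by
  refine le_trans ?_ (parts b).2.2.1
  unfold Par.PF
  refine mul_le_mul_of_nonneg_left ?_ (Real.exp_pos _).le
  have h1 := single_le_sum (f := fun V => TS P.j n σ.y (dis n k V) /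
    ((dis n k V).card : ℝ) ^ n) (fun V _ => div_nonneg (TS_nonneg (dis_sub n k V) b.nonneg n)
      (pow_nonneg (Nat.cast_nonneg _) _)) hV
  have h2 : 0 ≤ ∑ V ∈ P.Vc, TS P.j n σ.y (nea n k P.j V) / ((nea n k P.j V).card : ℝ) ^ n :=
    sum_nonneg fun V _ => div_nonneg (TS_nonneg (nea_sub n k P.j V) b.nonneg n)
      (pow_nonneg (Nat.cast_nonneg _) _)
  exact h1.trans (le_add_of_nonneg_right h2)

theorem read_Fn {P : Par n k} {s : ℕ} {σ : Sta n} (b : Base P s σ) {V : Finset (Fin n)}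
    (hV : V ∈ P.Vc) :
    Real.exp (-((n : ℝ) ^ 2 * P.rho * (P.e * s))) *
      (TS P.j n σ.y (nea n k P.j V) / ((nea n k P.j V).card : ℝ) ^ n) ≤ 4 ^ n := by
  refine le_trans ?_ (parts b).2.2.1
  unfold Par.PF
  refine mul_le_mul_of_nonneg_left ?_ (Real.exp_pos _).le
  have h1 := single_le_sum (f := fun V => TS P.j n σ.y (nea n k P.j V) /
    ((nea n k P.j V).card : ℝ) ^ n) (fun V _ => div_nonneg
      (TS_nonneg (nea_sub n k P.j V) b.nonneg n) (pow_nonneg (Nat.cast_nonneg _) _)) hV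
  have h2 : 0 ≤ ∑ V ∈ P.Vd, TS P.j n σ.y (dis n k V) / ((dis n k V).card : ℝ) ^ n :=
    sum_nonneg fun V _ => div_nonneg (TS_nonneg (dis_sub n k V) b.nonneg n)
      (pow_nonneg (Nat.cast_nonneg _) _)
  exact h1.trans (le_add_of_nonneg_left h2)

private theorem of_exp {x Q U : ℝ} {n : ℕ} (hU : 0 < U)
    (h : Real.exp (-x) * Q / U ≤ 8 * n) : Q ≤ 8 * n * U * Real.exp x := by
  rw [div_le_iff₀ hU] at h
  have h1 := mul_le_mul_of_nonneg_left h (Real.exp_pos x).le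
  have h2 : Real.exp x * (Real.exp (-x) * Q) = Q := by
    rw [← mul_assoc, ← Real.exp_add, add_neg_cancel, Real.exp_zero, one_mul]
  rw [h2] at h1
  linarith

theorem read_Q {P : Par n k} {s : ℕ} {σ : Sta n} (b : Base P s σ) :
    P.QQ s σ ≤ 8 * n * P.U0 P.q * Real.exp (P.gl P.q * (P.e * s)) :=
  of_exp (P.U0_pos P.q) (of_WW P (parts b).2.2.2.1)

theorem read_U {P : Par n k} {s : ℕ} {σ : Sta n} (b : Base P s σ) {l : ℕ}
    (hl : l ∈ Ico 1 P.q) :
    P.UU l s σ ≤ 8 * n * P.U0 l * Real.exp (P.gl l * (P.e * s)) := by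
  have h1 := of_WW P (parts b).2.2.2.2
  have h2 := single_le_sum (f := fun l => Real.exp (-(P.gl l * (P.e * s))) * P.UU l s σ / P.U0 l)
    (fun l _ => div_nonneg
      (mul_nonneg (Real.exp_pos _).le (UU_nonneg P l b.hs b.nonneg)) (P.U0_pos l).le) hl
  exact of_exp (P.U0_pos l) (h2.trans h1)

end Pool.Agent.H14.KD
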