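import Pool.Agent.H14.KD.Defs
import Pool.Agent.H70.KP.MA
import Pool.Agent.H70.KP.BF

/-!
# [H14 KD TM] product moments, sharp constant, general index set

Compare H70/KP/PM (tuple_moment), which has the constant 2 instead of 1 + 4 n e and `Fin m` instead
of a finset of indices. Put x_i = e S (f i) / D in [0, 2 e], x_il = e S (f i u f l) / D. The product of
the new weights is prod (y (f i) gf (f i)) if B meets all f i, i in I, and 0 otherwise (if nothing is
chosen it is the product). So E1 = (prod y)(prod gf)(1 - Q), Q = sum of pr B over the B in KS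
disjoint from some f i, i in I. Bonferroni: for every B (p i = Disjoint B (f i)):
sum_{i in I} [p i] - (1/2) sum_{i in I} sum_{l in I, l <> i} [p i and p l] <= [exists i in I, p i]
(if r of the p i hold: r - r(r-1)/2 <= min r 1). Summed with the weights pr B >= 0 and pr_dis (B is
disjoint from f i and f l iff from f i u f l): Q >= sum x_i - X, X = (1/2) sum sum x_il.
Let M = prod (1 - x_i) = 1 / prod gf (gf_mul). M >= 1 - sum x_i >= 1 - 2 n e >= 1/2 (4 n e <= 1,
|I| <= n). 1 - Q <= 1 - sum x_i + X <= M + X, so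
E1 <= prod y * (M + X)/M = prod y * (1 + X/M) and 1/M <= 1/(1 - 2 n e) <= 1 + 4 n e.
-/

namespace Pool.Agent.H14.KD

open Finset
open Pool.Agent.H70.KG (KS DD S gf up0 up pr pr0)
open Pool.Agent.H70.KP (Sta Ex E1 Mild sz rr dis nea TS nc tg WW sum_pr pr_dis pr_nonneg x_nonneg x_le
  one_le_gf gf_mul)

variable {n k : ℕ} {e : ℝ} {y : Finset (Fin n) → ℝ}

/-- Bonferroni -/
private theorem bonfI {ι : Type} [DecidableEq ι] (I : Finset ι) (p : ι → Prop)
    [DecidablePred p] :
    (∑ i ∈ I, (if p i then (1 : ℝ) else 0)) -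
      1 / 2 * ∑ i ∈ I, ∑ l ∈ I.erase i, (if p i ∧ p l then (1 : ℝ) else 0) ≤
    if ∃ i ∈ I, p i then 1 else 0 := by
  obtain ⟨r, hr⟩ : ∃ r, r = (I.filter p).card := ⟨_, rfl⟩
  have h1 : ∑ i ∈ I, (if p i then (1 : ℝ) else 0) = r := by
    rw [Finset.sum_boole, hr]
  have h2 : ∑ i ∈ I, ∑ l ∈ I.erase i, (if p i ∧ p l then (1 : ℝ) else 0) =
      (r : ℝ) * (r - 1) := by
    have h3 : ∀ i ∈ I, ∑ l ∈ I.erase i, (if p i ∧ p l then (1 : ℝ) else 0) =
        if p i then (r : ℝ) - 1 else 0 := by
      intro i hi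
      by_cases hp : p i
      · rw [if_pos hp]
        have h4 : ∀ l ∈ I.erase i, (if p i ∧ p l then (1 : ℝ) else 0) =
            if p l then 1 else 0 := by
          intro l _
          simp only [hp, true_and]
        rw [Finset.sum_congr rfl h4, Finset.sum_boole]
        have h5 : (I.erase i).filter p = (I.filter p).erase i := by
          ext x
          simp only [mem_filter, mem_erase]
          tauto
        have h6 : i ∈ I.filter p := mem_filter.2 ⟨hi, hp⟩
        rw [h5, card_erase_of_mem h6, ← hr, Nat.cast_sub]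
        · simp
        · rw [hr]
          exact Finset.card_pos.2 ⟨i, h6⟩
      · rw [if_neg hp]
        refine Finset.sum_eq_zero fun l _ => ?_
        rw [if_neg (fun h => hp h.1)]
    rw [Finset.sum_congr rfl h3, ← Finset.sum_filter, Finset.sum_const, ← hr, nsmul_eq_mul]
  rw [h1, h2]
  by_cases hex : ∃ i ∈ I, p i
  · rw [if_pos hex]
    rcases Nat.lt_or_ge r 3 with h | h
    · interval_cases r <;> norm_num
    · have h3 : (3 : ℝ) ≤ r := by exact_mod_cast h
      nlinarith
  · rw [if_neg hex]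
    have h3 : r = 0 := by
      rw [hr, Finset.card_eq_zero, Finset.filter_eq_empty_iff]
      intro i hi hp
      exact hex ⟨i, hi, hp⟩
    rw [h3]
    norm_num

private theorem one_sub_sum_leI {ι : Type} [DecidableEq ι] (I : Finset ι) (x : ι → ℝ)
    (h0 : ∀ i ∈ I, 0 ≤ x i) (h1 : ∀ i ∈ I, x i ≤ 1) :
    1 - ∑ i ∈ I, x i ≤ ∏ i ∈ I, (1 - x i) ∧ ∏ i ∈ I, (1 - x i) ≤ 1 := by
  induction I using Finset.induction_on with
  | empty => simp
  | insert i I hi ih =>
    rw [Finset.sum_insert hi, Finset.prod_insert hi]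
    obtain ⟨h2, h3⟩ := ih (fun i hi => h0 i (mem_insert_of_mem hi))
      (fun i hi => h1 i (mem_insert_of_mem hi))
    have h4 := h0 i (mem_insert_self _ _)
    have h5 := h1 i (mem_insert_self _ _)
    have h6 : 0 ≤ ∏ i ∈ I, (1 - x i) :=
      Finset.prod_nonneg fun l hl => by linarith [h1 l (mem_insert_of_mem hl)]
    constructor
    · nlinarith
    · nlinarith

private theorem moment_eq (q : Finset (Fin n) → Prop) [DecidablePred q] (G : ℝ) :
    ∑ B ∈ KS n k, pr n k e y B * (if q B then 0 else G) + pr0 n k e y * G =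
      G * (1 - ∑ B ∈ KS n k, pr n k e y B * (if q B then 1 else 0)) := by
  have h1 : ∑ B ∈ KS n k, pr n k e y B * (if q B then 0 else G) =
      G * (∑ B ∈ KS n k, pr n k e y B - ∑ B ∈ KS n k, pr n k e y B * (if q B then 1 else 0)) := by
    rw [← sum_sub_distrib, mul_sum]
    refine sum_congr rfl fun B _ => ?_
    split_ifs <;> ring
  have h2 := sum_pr n k e y
  rw [h1]
  have h3 : pr0 n k e y = 1 - ∑ B ∈ KS n k, pr n k e y B := by linarith
  rw [h3]
  ring

private theorem sum_ind (q : Finset (Fin n) → Prop) [DecidablePred q] :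
    ∑ B ∈ KS n k, pr n k e y B * (if q B then 1 else 0) =
      ∑ B ∈ (KS n k).filter q, pr n k e y B := by
  rw [sum_filter]
  refine sum_congr rfl fun B _ => ?_
  split_ifs <;> ring

theorem moment {ι : Type} [DecidableEq ι] (h : Mild n k e y) (I : Finset ι) (hI : I.card ≤ n)
    (f : ι → Finset (Fin n)) (hf : ∀ i ∈ I, f i ∈ KS n k) :
    E1 n k e y (fun y' => ∏ i ∈ I, y' (f i)) ≤
      (∏ i ∈ I, y (f i)) *
        (1 + (1 + 4 * n * e) * (1 / 2 * ∑ i ∈ I, ∑ l ∈ I.erase i,
          e * S n k y (f i ∪ f l) / DD n k)) := by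
  set x : ι → ℝ := fun i => e * S n k y (f i) / DD n k with hx
  set X : ℝ := 1 / 2 * ∑ i ∈ I, ∑ l ∈ I.erase i, e * S n k y (f i ∪ f l) / DD n k with hX
  set Y := ∏ i ∈ I, y (f i) with hY
  set G := ∏ i ∈ I, gf n k e y (f i) with hG
  have hY0 : 0 ≤ Y := prod_nonneg fun i hi => h.nonneg _ (hf i hi)
  have hG0 : 0 ≤ G := prod_nonneg fun i hi => zero_le_one.trans (one_le_gf h (hf i hi))
  have hX0 : 0 ≤ X := by
    rw [hX]
    refine mul_nonneg (by norm_num) ?_
    exact sum_nonneg fun i _ => sum_nonneg fun l _ => x_nonneg h _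
  have hx0 : ∀ i ∈ I, 0 ≤ x i := fun i _ => x_nonneg h _
  have hx1 : ∀ i ∈ I, x i ≤ 2 * e := fun i hi => x_le h (hf i hi)
  have he := h.e_pos
  have he8 := h.e_le8
  have hne := h.e_le
  have hsum : ∑ i ∈ I, x i ≤ 2 * n * e := by
    have h1 : ∑ i ∈ I, x i ≤ ∑ _i ∈ I, 2 * e := sum_le_sum fun i hi => hx1 i hi
    rw [sum_const, nsmul_eq_mul] at h1
    have h2 : (I.card : ℝ) ≤ n := by exact_mod_cast hI
    nlinarith
  have hE : E1 n k e y (fun y' => ∏ i ∈ I, y' (f i)) = Y * G *
      (1 - ∑ B ∈ KS n k, pr n k e y B * (if ∃ i ∈ I, Disjoint B (f i) then 1 else 0)) := by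
    rw [← moment_eq]
    unfold E1
    congr 1
    · refine sum_congr rfl fun B _ => ?_
      congr 1
      by_cases hd : ∃ i ∈ I, Disjoint B (f i)
      · rw [if_pos hd]
        obtain ⟨i, hi, hdi⟩ := hd
        refine prod_eq_zero hi ?_
        unfold Pool.Agent.H70.KG.up
        rw [if_pos hdi.symm]
      · rw [if_neg hd, hY, hG, ← prod_mul_distrib]
        refine prod_congr rfl fun i hi => ?_
        unfold Pool.Agent.H70.KG.up
        rw [if_neg fun hdi => hd ⟨i, hi, hdi.symm⟩]
    · congr 1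
      rw [hY, hG, ← prod_mul_distrib]
      rfl
  have hQ : ∑ i ∈ I, x i - X ≤
      ∑ B ∈ KS n k, pr n k e y B * (if ∃ i ∈ I, Disjoint B (f i) then 1 else 0) := by
    have h1 : ∑ i ∈ I, x i - X = ∑ B ∈ KS n k, pr n k e y B *
        ((∑ i ∈ I, (if Disjoint B (f i) then (1 : ℝ) else 0)) -
      1 / 2 * ∑ i ∈ I, ∑ l ∈ I.erase i,
        (if Disjoint B (f i) ∧ Disjoint B (f l) then (1 : ℝ) else 0)) := by
      have h2 : ∑ i ∈ I, x i = ∑ B ∈ KS n k, pr n k e y B *
          ∑ i ∈ I, (if Disjoint B (f i) then (1 : ℝ) else 0) := by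
        simp only [mul_sum]
        rw [sum_comm]
        refine sum_congr rfl fun i _ => ?_
        rw [sum_ind, pr_dis]
      have h3 : X = ∑ B ∈ KS n k, pr n k e y B *
          (1 / 2 * ∑ i ∈ I, ∑ l ∈ I.erase i,
            (if Disjoint B (f i) ∧ Disjoint B (f l) then (1 : ℝ) else 0)) := by
        rw [hX]
        simp only [mul_sum]
        rw [sum_comm]
        refine sum_congr rfl fun i _ => ?_
        rw [sum_comm]
        refine sum_congr rfl fun l _ => ?_
        have h4 : ∀ B ∈ KS n k, pr n k e y B * (1 / 2 *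
            (if Disjoint B (f i) ∧ Disjoint B (f l) then (1 : ℝ) else 0)) =
            1 / 2 * (pr n k e y B *
            (if Disjoint B (f i) ∧ Disjoint B (f l) then (1 : ℝ) else 0)) := by
          intro B _
          ring
        rw [Finset.sum_congr rfl h4, ← Finset.mul_sum, sum_ind, ← pr_dis]
        congr 1
        refine sum_congr ?_ fun _ _ => rfl
        ext B
        simp only [mem_filter, disjoint_union_right]
      rw [h2, h3, ← sum_sub_distrib]
      exact sum_congr rfl fun B _ => by ring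
    rw [h1]
    refine sum_le_sum fun B hB => ?_
    exact mul_le_mul_of_nonneg_left (bonfI I (fun i => Disjoint B (f i))) (pr_nonneg h hB)
  obtain ⟨hp1, hp2⟩ := one_sub_sum_leI I x hx0 (fun i hi => by linarith [hx1 i hi])
  set M := ∏ i ∈ I, (1 - x i) with hM
  have hGp : G * M = 1 := by
    rw [hG, hM, ← prod_mul_distrib]
    exact prod_eq_one fun i hi => gf_mul h (hf i hi)
  have hn0 : (0 : ℝ) ≤ n := Nat.cast_nonneg n
  have hne0 : 0 ≤ (n : ℝ) * e := mul_nonneg hn0 he.le
  have hG2 : G ≤ 1 + 4 * n * e := by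
    have h1 : G * (1 - 2 * n * e) ≤ 1 := by
      calc G * (1 - 2 * n * e) ≤ G * M := mul_le_mul_of_nonneg_left (by linarith) hG0
        _ = 1 := hGp
    have h2 : 1 ≤ (1 + 4 * n * e) * (1 - 2 * n * e) := by nlinarith
    have h3 : 0 < 1 - 2 * n * e := by nlinarith
    exact le_of_mul_le_mul_right (h1.trans h2) h3
  rw [hE]
  calc Y * G * (1 - ∑ B ∈ KS n k, pr n k e y B * (if ∃ i ∈ I, Disjoint B (f i) then 1 else 0))
      ≤ Y * G * (M + X) :=
        mul_le_mul_of_nonneg_left (by linarith) (mul_nonneg hY0 hG0)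
    _ = Y * (G * M + G * X) := by ring
    _ ≤ Y * (1 + (1 + 4 * n * e) * X) := by
        refine mul_le_mul_of_nonneg_left ?_ hY0
        rw [hGp]
        exact add_le_add le_rfl (mul_le_mul_of_nonneg_right hG2 hX0)

end Pool.Agent.H14.KD
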