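import Mathlib

/-!
# [H14 KD W1] two inequalities for products. Mathlib only

prod_diff: induction on I (Finset.induction_on). For insert i0 I:
(c + a)_0 P - (c + b)_0 P' = (a_0 - b_0) P + (c_0 + b_0)(P - P') with P = prod_I (c + a) >= P' =
prod_I (c + b) >= 0; the first term is >= (a_0 - b_0) P', the second by induction.
prod_half: c + b >= (1 - e)(c + a) (c >= 0, b >= (1 - e) a, 0 <= e <= 1) for each factor, so the
product is >= (1 - e)^|I| prod (c + a), and (1 - e)^|I| >= 1 - |I| e >= 3/4 (Bernoulli: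
one_add_mul_le_pow).
-/

namespace Pool.Agent.H14.KD

open Finset

theorem prod_diff {ι : Type} [DecidableEq ι] (I : Finset ι) (c a b : ι → ℝ)
    (hc : ∀ i ∈ I, 0 ≤ c i) (hb : ∀ i ∈ I, 0 ≤ b i) (hab : ∀ i ∈ I, b i ≤ a i) :
    ∑ i ∈ I, (a i - b i) * ∏ l ∈ I.erase i, (c l + b l) ≤
      ∏ i ∈ I, (c i + a i) - ∏ i ∈ I, (c i + b i) := by
  induction I using Finset.induction_on with
  | empty => simp
  | insert i0 I hi ih =>
    have ih' := ih (fun i h => hc i (mem_insert_of_mem h)) (fun i h => hb i (mem_insert_of_mem h))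
      (fun i h => hab i (mem_insert_of_mem h))
    rw [Finset.sum_insert hi, Finset.prod_insert hi, Finset.prod_insert hi,
      Finset.erase_insert hi]
    have h1 : ∀ i ∈ I, (a i - b i) * ∏ l ∈ (insert i0 I).erase i, (c l + b l) =
        (c i0 + b i0) * ((a i - b i) * ∏ l ∈ I.erase i, (c l + b l)) := by
      intro i hiI
      have hne : i0 ≠ i := fun h => hi (h ▸ hiI)
      rw [Finset.erase_insert_of_ne hne, Finset.prod_insert]
      · ring
      · exact fun h => hi (mem_of_mem_erase h)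
    rw [Finset.sum_congr rfl h1, ← Finset.mul_sum]
    have hc0 := hc i0 (mem_insert_self _ _)
    have hb0 := hb i0 (mem_insert_self _ _)
    have hab0 := hab i0 (mem_insert_self _ _)
    set P := ∏ i ∈ I, (c i + a i) with hP
    set P' := ∏ i ∈ I, (c i + b i) with hP'
    have hPP : P' ≤ P := by
      refine Finset.prod_le_prod (fun i h => ?_) fun i h => ?_
      · exact add_nonneg (hc i (mem_insert_of_mem h)) (hb i (mem_insert_of_mem h))
      · linarith [hab i (mem_insert_of_mem h)]
    have h2 : (c i0 + b i0) * ∑ i ∈ I, (a i - b i) * ∏ l ∈ I.erase i, (c l + b l) ≤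
        (c i0 + b i0) * (P - P') := mul_le_mul_of_nonneg_left ih' (add_nonneg hc0 hb0)
    have h3 : (a i0 - b i0) * P' ≤ (a i0 - b i0) * P :=
      mul_le_mul_of_nonneg_left hPP (by linarith)
    nlinarith

theorem prod_half {ι : Type} [DecidableEq ι] (I : Finset ι) (c a b : ι → ℝ) {e : ℝ} {n : ℕ}
    (he : 0 ≤ e) (hne : 4 * n * e ≤ 1) (hI : I.card ≤ n)
    (hc : ∀ i ∈ I, 0 ≤ c i) (ha : ∀ i ∈ I, 0 ≤ a i) (hab : ∀ i ∈ I, (1 - e) * a i ≤ b i) :
    3 / 4 * ∏ i ∈ I, (c i + a i) ≤ ∏ i ∈ I, (c i + b i) := by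
  rcases Nat.eq_zero_or_pos n with hn | hn
  · have : I = ∅ := Finset.card_eq_zero.1 (by omega)
    subst this
    simp
    norm_num
  · have hn1 : (1 : ℝ) ≤ n := by exact_mod_cast hn
    have he1 : e ≤ 1 / 4 := by nlinarith
    have hP0 : 0 ≤ ∏ i ∈ I, (c i + a i) :=
      Finset.prod_nonneg fun i h => add_nonneg (hc i h) (ha i h)
    have h1 : (3 : ℝ) / 4 ≤ (1 - e) ^ I.card := by
      have h2 := one_add_mul_le_pow (a := -e) (by linarith) I.card
      have h3 : (I.card : ℝ) ≤ n := by exact_mod_cast hI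
      have h4 : (I.card : ℝ) * e ≤ n * e := mul_le_mul_of_nonneg_right h3 he
      have h5 : 1 + (I.card : ℝ) * -e ≤ (1 - e) ^ I.card := by
        rw [sub_eq_add_neg]
        exact h2
      linarith
    calc 3 / 4 * ∏ i ∈ I, (c i + a i) ≤ (1 - e) ^ I.card * ∏ i ∈ I, (c i + a i) :=
          mul_le_mul_of_nonneg_right h1 hP0
      _ = ∏ i ∈ I, ((1 - e) * (c i + a i)) := by
          rw [Finset.prod_mul_distrib, Finset.prod_const]
      _ ≤ ∏ i ∈ I, (c i + b i) := by
          refine Finset.prod_le_prod (fun i h => ?_) fun i h => ?_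
          · exact mul_nonneg (by linarith) (add_nonneg (hc i h) (ha i h))
          · have h2 := hab i h
            have h3 := hc i h
            nlinarith

end Pool.Agent.H14.KD
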