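import Pool.Agent.H14.KD.TM
import Pool.Agent.H70.KP.EO

/-!
# [H14 KD W2] product step, the part without new chosen sets

Expand the product over I (Finset.prod_add: prod (c + b y') = sum over I' of
prod_{I'} (b i y' (B i)) * prod_{I \ I'} c i; or with the roles exchanged), E1 is linear (E1_sum,
E1_mul), and by `moment` for I':
E1 (prod_{I'} y' (B i)) <= prod_{I'} y (B i) * (1 + (1 + 4 n e)(1/2) sum sum e S/D)
<= prod_{I'} y * exp (e * (1/2) sum_{i in I'} sum_{l in I'.erase i} ga i l)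
<= prod_{I'} y * exp (e (G + sum_{I'} th i)).
As b i exp (e th i) >= 0, the term of I' is at most
exp (e G) * prod_{I \ I'} c i * prod_{I'} (b i exp (e th i) y (B i)). Sum over I' (prod_add again).
All of b, c, y are >= 0.
-/

namespace Pool.Agent.H14.KD

open Finset
open Pool.Agent.H70.KG (KS DD S gf up0 up pr pr0)
open Pool.Agent.H70.KP (Sta Ex E1 Mild sz rr dis nea TS nc tg WW E1_sum E1_mul)

variable {n k : ℕ} {e : ℝ} {y : Finset (Fin n) → ℝ}

theorem prod_E1 {ι : Type} [DecidableEq ι] (h : Mild n k e y) (I : Finset ι) (hI : I.card ≤ n)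
    (B : ι → Finset (Fin n)) (hB : ∀ i ∈ I, B i ∈ KS n k) (c b th : ι → ℝ) (ga : ι → ι → ℝ) (G : ℝ)
    (hc : ∀ i ∈ I, 0 ≤ c i) (hb : ∀ i ∈ I, 0 ≤ b i)
    (hga : ∀ i ∈ I, ∀ l ∈ I, i ≠ l → (1 + 4 * n * e) * (S n k y (B i ∪ B l) / DD n k) ≤ ga i l)
    (hG : ∀ I' ⊆ I, 1 / 2 * ∑ i ∈ I', ∑ l ∈ I'.erase i, ga i l ≤ G + ∑ i ∈ I', th i) :
    E1 n k e y (fun y' => ∏ i ∈ I, (c i + b i * y' (B i))) ≤
      Real.exp (e * G) * ∏ i ∈ I, (c i + b i * Real.exp (e * th i) * y (B i)) := by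
  have he := h.e_pos
  have hL : E1 n k e y (fun y' => ∏ i ∈ I, (c i + b i * y' (B i))) =
      ∑ I' ∈ I.powerset, ((∏ i ∈ I \ I', c i) * ∏ i ∈ I', b i) *
        E1 n k e y (fun y' => ∏ i ∈ I', y' (B i)) := by
    have h1 : (fun y' : Finset (Fin n) → ℝ => ∏ i ∈ I, (c i + b i * y' (B i))) =
        fun y' => ∑ I' ∈ I.powerset, ((∏ i ∈ I \ I', c i) * ∏ i ∈ I', b i) *
          ∏ i ∈ I', y' (B i) := by
      funext y'
      have h2 : ∏ i ∈ I, (c i + b i * y' (B i)) = ∏ i ∈ I, (b i * y' (B i) + c i) :=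
        Finset.prod_congr rfl fun i _ => add_comm _ _
      rw [h2, Finset.prod_add]
      refine Finset.sum_congr rfl fun I' _ => ?_
      rw [Finset.prod_mul_distrib]
      ring
    rw [h1, E1_sum]
    refine Finset.sum_congr rfl fun I' _ => ?_
    rw [E1_mul]
  have hR : Real.exp (e * G) * ∏ i ∈ I, (c i + b i * Real.exp (e * th i) * y (B i)) =
      ∑ I' ∈ I.powerset, ((∏ i ∈ I \ I', c i) * ∏ i ∈ I', b i) *
        ((∏ i ∈ I', y (B i)) * Real.exp (e * (G + ∑ i ∈ I', th i))) := by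
    have h2 : ∏ i ∈ I, (c i + b i * Real.exp (e * th i) * y (B i)) =
        ∏ i ∈ I, (b i * Real.exp (e * th i) * y (B i) + c i) :=
      Finset.prod_congr rfl fun i _ => add_comm _ _
    rw [h2, Finset.prod_add, Finset.mul_sum]
    refine Finset.sum_congr rfl fun I' _ => ?_
    rw [Finset.prod_mul_distrib, Finset.prod_mul_distrib, mul_add, Real.exp_add, Finset.mul_sum,
      Real.exp_sum]
    ring
  rw [hL, hR]
  refine Finset.sum_le_sum fun I' hI' => ?_
  have hsub := Finset.mem_powerset.1 hI'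
  have hcb : 0 ≤ (∏ i ∈ I \ I', c i) * ∏ i ∈ I', b i :=
    mul_nonneg (Finset.prod_nonneg fun i hi => hc i (mem_sdiff.1 hi).1)
      (Finset.prod_nonneg fun i hi => hb i (hsub hi))
  refine mul_le_mul_of_nonneg_left ?_ hcb
  refine (moment h I' ((card_le_card hsub).trans hI) B fun i hi => hB i (hsub hi)).trans ?_
  refine mul_le_mul_of_nonneg_left ?_
    (Finset.prod_nonneg fun i hi => h.nonneg _ (hB i (hsub hi)))
  refine le_trans ?_ (Real.exp_le_exp.2 (mul_le_mul_of_nonneg_left (hG I' hsub) he.le))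
  have h3 : (1 + 4 * n * e) * (1 / 2 * ∑ i ∈ I', ∑ l ∈ I'.erase i,
      e * S n k y (B i ∪ B l) / DD n k) ≤ e * (1 / 2 * ∑ i ∈ I', ∑ l ∈ I'.erase i, ga i l) := by
    have h4 : (1 + 4 * n * e) * (1 / 2 * ∑ i ∈ I', ∑ l ∈ I'.erase i,
        e * S n k y (B i ∪ B l) / DD n k) = e * (1 / 2 * ∑ i ∈ I', ∑ l ∈ I'.erase i,
        (1 + 4 * n * e) * (S n k y (B i ∪ B l) / DD n k)) := by
      simp only [Finset.mul_sum]
      refine Finset.sum_congr rfl fun i _ => Finset.sum_congr rfl fun l _ => ?_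
      ring
    rw [h4]
    refine mul_le_mul_of_nonneg_left ?_ he.le
    refine mul_le_mul_of_nonneg_left ?_ (by norm_num)
    refine Finset.sum_le_sum fun i hi => Finset.sum_le_sum fun l hl => ?_
    exact hga i (hsub hi) l (hsub (mem_of_mem_erase hl)) (ne_of_mem_erase hl).symm
  have h5 := Real.add_one_le_exp (e * (1 / 2 * ∑ i ∈ I', ∑ l ∈ I'.erase i, ga i l))
  linarith

end Pool.Agent.H14.KD
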