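import Pool.Agent.H14.KD.W1
import Pool.Agent.H14.KD.W2

/-!
# [H14 KD W3] the product step

`val σ' i` is the mixed weight of `B i` in the new state. Write y = σ.y, a i = al i * y (B i),
a~ i = b i exp (e th i) y (B i) <= a i, R = KS \ C.
In the state `pick B0` the product is
prod_I (c i + b i y' (B i)) + [B0 = B i0 for some (unique, hinj) i0 in I]
  * J i0 * prod_{I.erase i0} (c l + b l y' (B l)),   y' = up y B0,
because only the factor of i0 gets the additional summand J i0. So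
Ex = E' + E2, where E' = Ex of prod_I (c i + b i σ'.y (B i)), which is E1 of the same functional of
the weights by `Ex_y` (it is local, uses `dead`), and
E2 = sum over i0 in I with B i0 not in C of pr (B i0) * J i0 * prod_{I.erase i0} (c l + b l (up y
(B i0)) (B l)).
* E' <= exp (e G) prod_I (c + a~) by `prod_E1`.
* up y (B i0) (B l) <= y (B l) gf (B l) <= (1 + 4 e) y (B l) (x = e S/D <= 2 e, 1/(1-x) <= 1 + 2 x:
  `x_le`, KG.inv_one_sub_le), b l <= al l (as b exp (e th) <= al, th >= 0), so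
  c l + b l (..) <= (1 + 4 e)(c l + a l) and the product over I.erase i0 is at most
  (1 + 4 e)^n prod (c + a) <= exp (4 n e) prod <= exp (1/4) prod <= (3/2) prod. pr (B i0) =
  e y (B i0)/D. So E2 <= sum_{i in I} (3/2)(e/D) J i y (B i) prod_{I.erase i} (c + a).
* `prod_diff` and `prod_half` (for I.erase i; a~ >= (1 - e) a):
  prod_I (c + a) - prod_I (c + a~) >= sum_i (a i - a~ i) prod_{I.erase i} (c + a~)
  >= sum_i (4 e/D) J i y (B i) (3/4) prod_{I.erase i} (c + a) >= E2.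
* exp (e G) >= 1 (G >= 0 by hG with I' empty): Ex <= exp (e G)(prod (c + a~) + E2) <=
  exp (e G) prod_I (c + a).
-/

namespace Pool.Agent.H14.KD

open Finset
open Pool.Agent.H70.KG (KS DD S gf up0 up pr pr0)
open Pool.Agent.H70.KP (Sta Ex E1 Mild sz rr dis nea TS nc tg WW E1_sum E1_mul Ex_y Ex_add x_nonneg x_le
  one_le_gf up_nonneg up_le_up0 pr_nonneg up0_nonneg)

variable {n k : ℕ} {e t : ℝ}

private theorem gf_le {y : Finset (Fin n) → ℝ} (h : Mild n k e y) {A : Finset (Fin n)}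
    (hA : A ∈ KS n k) : gf n k e y A ≤ 1 + 4 * e := by
  have h0 := x_nonneg h A
  have h1 := x_le h hA
  have h2 := h.e_le8
  have h3 := h.e_pos
  unfold Pool.Agent.H70.KG.gf
  rw [div_le_iff₀ (by linarith)]
  nlinarith

private theorem exp_quarter : Real.exp (1 / 4) ≤ 3 / 2 := by
  have h1 := Real.add_one_le_exp (-(1 / 4 : ℝ))
  have h2 : Real.exp (1 / 4) * Real.exp (-(1 / 4 : ℝ)) = 1 := by
    rw [← Real.exp_add]
    norm_num
  have h3 := Real.exp_pos (1 / 4 : ℝ)
  nlinarith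

theorem prod_step {ι : Type} [DecidableEq ι] {σ : Sta n} (h : Mild n k e σ.y)
    (he : 16 * n * e ≤ 1) (hd : ∀ A ∈ KS n k, (∃ B ∈ σ.C, Disjoint A B) → σ.y A = 0)
    (I : Finset ι) (hI : I.card ≤ n)
    (B : ι → Finset (Fin n)) (hB : ∀ i ∈ I, B i ∈ KS n k) (hinj : Set.InjOn B (I : Set ι))
    (c al b J th : ι → ℝ) (ga : ι → ι → ℝ) (G : ℝ)
    (hc : ∀ i ∈ I, 0 ≤ c i) (hb : ∀ i ∈ I, 0 ≤ b i) (hJ : ∀ i ∈ I, 0 ≤ J i)
    (hth : ∀ i ∈ I, 0 ≤ th i)
    (h1 : ∀ i ∈ I, b i * Real.exp (e * th i) ≤ al i)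
    (h2 : ∀ i ∈ I, (1 - e) * al i ≤ b i * Real.exp (e * th i))
    (h3 : ∀ i ∈ I, 4 * e / DD n k * J i ≤ al i - b i * Real.exp (e * th i))
    (hga : ∀ i ∈ I, ∀ l ∈ I, i ≠ l →
      (1 + 4 * n * e) * (S n k σ.y (B i ∪ B l) / DD n k) ≤ ga i l)
    (hG : ∀ I' ⊆ I, 1 / 2 * ∑ i ∈ I', ∑ l ∈ I'.erase i, ga i l ≤ G + ∑ i ∈ I', th i)
    (val : Sta n → ι → ℝ)
    (hstay : ∀ i ∈ I, val (σ.stay k e) i = c i + b i * up0 n k e σ.y (B i))
    (hpick : ∀ B0 ∈ KS n k, B0 ∉ σ.C → ∀ i ∈ I, val (σ.pick k e t B0) i =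
      c i + (if B0 = B i then J i else 0) + b i * up n k e σ.y B0 (B i)) :
    Ex k e t σ (fun σ' => ∏ i ∈ I, val σ' i) ≤
      Real.exp (e * G) * ∏ i ∈ I, (c i + al i * σ.y (B i)) := by
  classical
  have he0 := h.e_pos
  have hD := h.D_pos
  have hy : ∀ i ∈ I, 0 ≤ σ.y (B i) := fun i hi => h.nonneg _ (hB i hi)
  set F0 : Sta n → ℝ := fun σ' => ∏ i ∈ I, (c i + b i * σ'.y (B i)) with hF0
  set F1 : Sta n → ℝ := fun σ' => ∏ i ∈ I, val σ' i with hF1
  set E2 : Finset (Fin n) → ℝ := fun B0 => ∑ i ∈ I, (if B0 = B i then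
    J i * ∏ l ∈ I.erase i, (c l + b l * up n k e σ.y B0 (B l)) else 0) with hE2
  -- the product after a pick
  have hprod : ∀ B0 ∈ KS n k, B0 ∉ σ.C → F1 (σ.pick k e t B0) = F0 (σ.pick k e t B0) + E2 B0 := by
    intro B0 hB0 hB0C
    have h4 : F1 (σ.pick k e t B0) =
        ∏ i ∈ I, (c i + (if B0 = B i then J i else 0) + b i * up n k e σ.y B0 (B i)) :=
      Finset.prod_congr rfl fun i hi => hpick B0 hB0 hB0C i hi
    have h5 : F0 (σ.pick k e t B0) = ∏ i ∈ I, (c i + b i * up n k e σ.y B0 (B i)) := rfl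
    rw [h4, h5]
    by_cases hex : ∃ i ∈ I, B0 = B i
    · obtain ⟨i0, hi0, rfl⟩ := hex
      have hne : ∀ l ∈ I, l ≠ i0 → B i0 ≠ B l := by
        intro l hl hli hBB
        exact hli (hinj (Finset.mem_coe.2 hl) (Finset.mem_coe.2 hi0) hBB.symm)
      have h6 : E2 (B i0) = J i0 * ∏ l ∈ I.erase i0, (c l + b l * up n k e σ.y (B i0) (B l)) := by
        rw [hE2]
        refine (Finset.sum_eq_single_of_mem i0 hi0 fun l hl hli => ?_).trans ?_
        · rw [if_neg (hne l hl hli)]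
        · rw [if_pos rfl]
      rw [h6, ← Finset.mul_prod_erase I
        (fun i => c i + (if B i0 = B i then J i else 0) + b i * up n k e σ.y (B i0) (B i)) hi0,
        ← Finset.mul_prod_erase I (fun i => c i + b i * up n k e σ.y (B i0) (B i)) hi0]
      have h7 : ∏ l ∈ I.erase i0, (c l + (if B i0 = B l then J l else 0) +
          b l * up n k e σ.y (B i0) (B l)) =
          ∏ l ∈ I.erase i0, (c l + b l * up n k e σ.y (B i0) (B l)) := by
        refine Finset.prod_congr rfl fun l hl => ?_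
        rw [if_neg (hne l (mem_of_mem_erase hl) (ne_of_mem_erase hl)), add_zero]
      rw [h7, if_pos rfl]
      ring
    · have h6 : E2 B0 = 0 := by
        rw [hE2]
        refine Finset.sum_eq_zero fun i hi => ?_
        rw [if_neg]
        exact fun h => hex ⟨i, hi, h⟩
      rw [h6, add_zero]
      refine Finset.prod_congr rfl fun i hi => ?_
      rw [if_neg (fun h => hex ⟨i, hi, h⟩), add_zero]
  have hstay' : F1 (σ.stay k e) = F0 (σ.stay k e) :=
    Finset.prod_congr rfl fun i hi => hstay i hi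
  have hEx : Ex k e t σ F1 = Ex k e t σ F0 +
      ∑ B0 ∈ (KS n k).filter (fun B => B ∉ σ.C), pr n k e σ.y B0 * E2 B0 := by
    unfold Ex
    rw [hstay']
    have h4 : ∑ B0 ∈ (KS n k).filter (fun B => B ∉ σ.C), pr n k e σ.y B0 *
        F1 (σ.pick k e t B0) = ∑ B0 ∈ (KS n k).filter (fun B => B ∉ σ.C), pr n k e σ.y B0 *
        F0 (σ.pick k e t B0) +
        ∑ B0 ∈ (KS n k).filter (fun B => B ∉ σ.C), pr n k e σ.y B0 * E2 B0 := by
      rw [← Finset.sum_add_distrib]
      refine Finset.sum_congr rfl fun B0 hB0 => ?_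
      obtain ⟨h5, h6⟩ := mem_filter.1 hB0
      rw [hprod B0 h5 h6, mul_add]
    rw [h4]
    ring
  -- E'
  have hE' : Ex k e t σ F0 ≤ Real.exp (e * G) *
      ∏ i ∈ I, (c i + b i * Real.exp (e * th i) * σ.y (B i)) := by
    have h4 : Ex k e t σ F0 = E1 n k e σ.y (fun y' => ∏ i ∈ I, (c i + b i * y' (B i))) := by
      refine Ex_y hd (F := fun y' => ∏ i ∈ I, (c i + b i * y' (B i))) fun y y' hyy => ?_
      refine Finset.prod_congr rfl fun i hi => ?_
      rw [hyy _ (hB i hi)]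
    rw [h4]
    exact prod_E1 h I hI B hB c b th ga G hc hb hga hG
  -- bounds on the numbers
  have hexp1 : ∀ i ∈ I, 1 ≤ Real.exp (e * th i) := fun i hi =>
    Real.one_le_exp (mul_nonneg he0.le (hth i hi))
  have hbal : ∀ i ∈ I, b i ≤ al i := by
    intro i hi
    refine le_trans ?_ (h1 i hi)
    have := mul_le_mul_of_nonneg_left (hexp1 i hi) (hb i hi)
    linarith
  have hal0 : ∀ i ∈ I, 0 ≤ al i := fun i hi => (hb i hi).trans (hbal i hi)
  set a : ι → ℝ := fun i => al i * σ.y (B i) with ha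
  set at' : ι → ℝ := fun i => b i * Real.exp (e * th i) * σ.y (B i) with hat'
  have ha0 : ∀ i ∈ I, 0 ≤ a i := fun i hi => mul_nonneg (hal0 i hi) (hy i hi)
  have hat0 : ∀ i ∈ I, 0 ≤ at' i := fun i hi =>
    mul_nonneg (mul_nonneg (hb i hi) (Real.exp_pos _).le) (hy i hi)
  have hata : ∀ i ∈ I, at' i ≤ a i := fun i hi =>
    mul_le_mul_of_nonneg_right (h1 i hi) (hy i hi)
  have hata2 : ∀ i ∈ I, (1 - e) * a i ≤ at' i := by
    intro i hi
    have h4 := mul_le_mul_of_nonneg_right (h2 i hi) (hy i hi)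
    calc (1 - e) * a i = (1 - e) * al i * σ.y (B i) := by rw [ha]; ring
      _ ≤ at' i := h4
  have hP0 : ∀ i, 0 ≤ ∏ l ∈ I.erase i, (c l + a l) := fun i =>
    Finset.prod_nonneg fun l hl => add_nonneg (hc l (mem_of_mem_erase hl))
      (ha0 l (mem_of_mem_erase hl))
  have hne4 : 4 * (n : ℝ) * e ≤ 1 / 4 := by linarith
  have hdec : ∀ i ∈ I, ∏ l ∈ I.erase i, (c l + b l * up n k e σ.y (B i) (B l)) ≤
      3 / 2 * ∏ l ∈ I.erase i, (c l + a l) := by
    intro i _
    have h4 : ∏ l ∈ I.erase i, (c l + b l * up n k e σ.y (B i) (B l)) ≤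
        ∏ l ∈ I.erase i, ((1 + 4 * e) * (c l + a l)) := by
      refine Finset.prod_le_prod (fun l hl => ?_) fun l hl => ?_
      · have hlI := mem_of_mem_erase hl
        exact add_nonneg (hc l hlI) (mul_nonneg (hb l hlI) (up_nonneg h (hB l hlI) _))
      · have hlI := mem_of_mem_erase hl
        have h5 : up n k e σ.y (B i) (B l) ≤ (1 + 4 * e) * σ.y (B l) := by
          refine (up_le_up0 h (hB l hlI) _).trans ?_
          show σ.y (B l) * gf n k e σ.y (B l) ≤ _
          rw [mul_comm]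
          exact mul_le_mul_of_nonneg_right (gf_le h (hB l hlI)) (hy l hlI)
        have h6 : b l * up n k e σ.y (B i) (B l) ≤ al l * ((1 + 4 * e) * σ.y (B l)) :=
          mul_le_mul (hbal l hlI) h5 (up_nonneg h (hB l hlI) _) (hal0 l hlI)
        have h7 : al l * ((1 + 4 * e) * σ.y (B l)) = (1 + 4 * e) * a l := by
          rw [ha]
          ring
        have h8 := hc l hlI
        have h9 : 0 ≤ e * c l := mul_nonneg he0.le h8
        rw [h7] at h6
        linarith
    refine h4.trans ?_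
    rw [Finset.prod_mul_distrib, Finset.prod_const]
    refine mul_le_mul_of_nonneg_right ?_ (hP0 i)
    have h5 : (I.erase i).card ≤ n := (card_le_card (erase_subset _ _)).trans hI
    have h6 : (1 + 4 * e) ≤ Real.exp (4 * e) := by
      have := Real.add_one_le_exp (4 * e)
      linarith
    calc (1 + 4 * e) ^ (I.erase i).card ≤ (Real.exp (4 * e)) ^ (I.erase i).card :=
          pow_le_pow_left₀ (by linarith) h6 _
      _ = Real.exp ((I.erase i).card * (4 * e)) := by rw [← Real.exp_nat_mul]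
      _ ≤ Real.exp (1 / 4) := by
          refine Real.exp_le_exp.2 ?_
          have h7 : ((I.erase i).card : ℝ) ≤ n := by exact_mod_cast h5
          have h8 : ((I.erase i).card : ℝ) * (4 * e) ≤ n * (4 * e) :=
            mul_le_mul_of_nonneg_right h7 (by linarith)
          linarith
      _ ≤ 3 / 2 := exp_quarter
  -- E2
  have hE2le : ∑ B0 ∈ (KS n k).filter (fun B => B ∉ σ.C), pr n k e σ.y B0 * E2 B0 ≤
      ∑ i ∈ I, pr n k e σ.y (B i) * (J i * (3 / 2 * ∏ l ∈ I.erase i, (c l + a l))) := by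
    have h4 : ∑ B0 ∈ (KS n k).filter (fun B => B ∉ σ.C), pr n k e σ.y B0 * E2 B0 =
        ∑ i ∈ I, ∑ B0 ∈ (KS n k).filter (fun B => B ∉ σ.C), (if B0 = B i then
          pr n k e σ.y (B i) *
          (J i * ∏ l ∈ I.erase i, (c l + b l * up n k e σ.y (B i) (B l))) else 0) := by
      rw [Finset.sum_comm]
      refine Finset.sum_congr rfl fun B0 _ => ?_
      rw [hE2, Finset.mul_sum]
      refine Finset.sum_congr rfl fun i _ => ?_
      by_cases h5 : B0 = B i
      · rw [if_pos h5, if_pos h5, h5]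
      · rw [if_neg h5, if_neg h5, mul_zero]
    rw [h4]
    refine Finset.sum_le_sum fun i hi => ?_
    have h5 : 0 ≤ pr n k e σ.y (B i) := pr_nonneg h (hB i hi)
    have h6 : 0 ≤ J i * ∏ l ∈ I.erase i, (c l + b l * up n k e σ.y (B i) (B l)) :=
      mul_nonneg (hJ i hi) (Finset.prod_nonneg fun l hl => add_nonneg
        (hc l (mem_of_mem_erase hl)) (mul_nonneg (hb l (mem_of_mem_erase hl))
          (up_nonneg h (hB l (mem_of_mem_erase hl)) _)))
    rw [Finset.sum_ite_eq']
    have h7 : pr n k e σ.y (B i) *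
        (J i * ∏ l ∈ I.erase i, (c l + b l * up n k e σ.y (B i) (B l))) ≤
        pr n k e σ.y (B i) * (J i * (3 / 2 * ∏ l ∈ I.erase i, (c l + a l))) :=
      mul_le_mul_of_nonneg_left (mul_le_mul_of_nonneg_left (hdec i hi) (hJ i hi)) h5
    split_ifs
    · exact h7
    · exact (mul_nonneg h5 h6).trans h7
  have hdiff := prod_diff I c a at' hc hat0 hata
  have hkey : ∑ i ∈ I, pr n k e σ.y (B i) * (J i * (3 / 2 * ∏ l ∈ I.erase i, (c l + a l))) ≤
      ∏ i ∈ I, (c i + a i) - ∏ i ∈ I, (c i + at' i) := by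
    refine le_trans (Finset.sum_le_sum fun i hi => ?_) hdiff
    have h4 : 3 / 4 * ∏ l ∈ I.erase i, (c l + a l) ≤ ∏ l ∈ I.erase i, (c l + at' l) :=
      prod_half (n := n) (I.erase i) c a at' he0.le h.e_le
        ((card_le_card (erase_subset _ _)).trans hI)
        (fun l hl => hc l (mem_of_mem_erase hl)) (fun l hl => ha0 l (mem_of_mem_erase hl))
        (fun l hl => hata2 l (mem_of_mem_erase hl))
    have h5 : 4 * e / DD n k * J i * σ.y (B i) ≤ a i - at' i := by
      have := mul_le_mul_of_nonneg_right (h3 i hi) (hy i hi)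
      calc 4 * e / DD n k * J i * σ.y (B i) ≤
            (al i - b i * Real.exp (e * th i)) * σ.y (B i) := this
        _ = a i - at' i := by rw [ha, hat']; ring
    have h6 : 0 ≤ 4 * e / DD n k * J i * σ.y (B i) :=
      mul_nonneg (mul_nonneg (by positivity) (hJ i hi)) (hy i hi)
    calc pr n k e σ.y (B i) * (J i * (3 / 2 * ∏ l ∈ I.erase i, (c l + a l)))
        = (4 * e / DD n k * J i * σ.y (B i)) * (3 / 8 * ∏ l ∈ I.erase i, (c l + a l)) := by
          unfold Pool.Agent.H70.KG.pr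
          ring
      _ ≤ (4 * e / DD n k * J i * σ.y (B i)) * (3 / 4 * ∏ l ∈ I.erase i, (c l + a l)) := by
          refine mul_le_mul_of_nonneg_left ?_ h6
          have := hP0 i
          linarith
      _ ≤ (4 * e / DD n k * J i * σ.y (B i)) * ∏ l ∈ I.erase i, (c l + at' l) :=
          mul_le_mul_of_nonneg_left h4 h6
      _ ≤ (a i - at' i) * ∏ l ∈ I.erase i, (c l + at' l) := by
          refine mul_le_mul_of_nonneg_right h5 ?_
          exact Finset.prod_nonneg fun l hl => add_nonneg (hc l (mem_of_mem_erase hl))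
            (hat0 l (mem_of_mem_erase hl))
  have hG0 : 0 ≤ G := by
    have := hG ∅ (empty_subset _)
    simpa using this
  have hexpG : 1 ≤ Real.exp (e * G) := Real.one_le_exp (mul_nonneg he0.le hG0)
  have hdn : 0 ≤ ∏ i ∈ I, (c i + a i) - ∏ i ∈ I, (c i + at' i) := by
    have h4 : ∏ i ∈ I, (c i + at' i) ≤ ∏ i ∈ I, (c i + a i) :=
      Finset.prod_le_prod (fun i hi => add_nonneg (hc i hi) (hat0 i hi))
        fun i hi => by linarith [hata i hi]
    linarith
  calc Ex k e t σ F1 = Ex k e t σ F0 +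
        ∑ B0 ∈ (KS n k).filter (fun B => B ∉ σ.C), pr n k e σ.y B0 * E2 B0 := hEx
    _ ≤ Real.exp (e * G) * ∏ i ∈ I, (c i + at' i) +
        (∏ i ∈ I, (c i + a i) - ∏ i ∈ I, (c i + at' i)) := by
        have := hE2le.trans hkey
        linarith
    _ ≤ Real.exp (e * G) * ∏ i ∈ I, (c i + at' i) +
        Real.exp (e * G) * (∏ i ∈ I, (c i + a i) - ∏ i ∈ I, (c i + at' i)) := by
        have := mul_le_mul_of_nonneg_right hexpG hdn
        linarith
    _ = Real.exp (e * G) * ∏ i ∈ I, (c i + a i) := by ring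

end Pool.Agent.H14.KD
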